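import Pool.Agent.NH2.Defs
import Pool.Agent.Z363.Z705.C1B

/-!
# Project NH2: the character sum over the cusps, and the twisted sum as a sum of divisor sums
(helper17)
-/

set_option autoImplicit false

namespace Pool.Agent.NH2

open Finset
open Pool.Agent.Z700 (pr un)
open Pool.Agent.NH1

namespace C1

/-- the reflection of the residues -/
def rf (m u : ℕ) : ℕ := (m - u) % m

theorem rf_mem {m u : ℕ} (hm : 0 < m) (hu : u ∈ un m) : rf m u ∈ un m := by
  unfold un at hu ⊢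
  rw [mem_filter, mem_range] at hu ⊢
  refine ⟨Nat.mod_lt _ hm, ?_⟩
  unfold rf
  have h1 : Nat.Coprime (m - u) m := by
    rw [Nat.coprime_self_sub_left hu.1.le]
    exact hu.2
  unfold Nat.Coprime at h1 ⊢
  rw [(Nat.mod_modEq (m - u) m).gcd_eq, h1]

theorem rf_dvd {m u : ℕ} (hu : u < m) : (m : ℤ) ∣ ((rf m u : ℕ) : ℤ) + (u : ℤ) := by
  unfold rf
  have h := Nat.div_add_mod (m - u) m
  have h1 : (m : ℤ) * (((m - u) / m : ℕ) : ℤ) + (((m - u) % m : ℕ) : ℤ) = (m : ℤ) - (u : ℤ) := by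
    have h2 : ((m - u : ℕ) : ℤ) = (m : ℤ) - (u : ℤ) := by
      rw [Nat.cast_sub hu.le]
    rw [← h2]
    exact_mod_cast h
  refine ⟨1 - (((m - u) / m : ℕ) : ℤ), ?_⟩
  linarith

theorem rf_rf {m u : ℕ} (hu : u < m) : rf m (rf m u) = u := by
  rcases Nat.eq_zero_or_pos u with rfl | h0
  · unfold rf
    simp
  · have h1 : rf m u = m - u := by
      unfold rf
      exact Nat.mod_eq_of_lt (by omega)
    rw [h1]
    unfold rf
    have : m - (m - u) = u := by omega
    rw [this]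
    exact Nat.mod_eq_of_lt hu

/-- reindexing a sum over the units by the reflection -/
theorem sum_rf {m : ℕ} (hm : 0 < m) (f : ℕ → ℤ) : ∑ u ∈ un m, f u = ∑ u ∈ un m, f (rf m u) := by
  refine Finset.sum_nbij' (rf m) (rf m) (fun u hu => rf_mem hm hu) (fun u hu => rf_mem hm hu)
    ?_ ?_ ?_
  · intro u hu
    exact rf_rf (mem_range.1 (mem_filter.1 hu).1)
  · intro u hu
    exact rf_rf (mem_range.1 (mem_filter.1 hu).1)
  · intro u hu
    rw [rf_rf (mem_range.1 (mem_filter.1 hu).1)]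

theorem jac_rf {m u : ℕ} (hu : u < m) :
    jacobiSym ((rf m u : ℕ) : ℤ) m = jacobiSym (-1) m * jacobiSym (u : ℤ) m := by
  rw [← jacobiSym.mul_left]
  apply Pool.Agent.Z363.Z705.jac_congr
  have := rf_dvd hu
  have e : ((rf m u : ℕ) : ℤ) - -1 * (u : ℤ) = ((rf m u : ℕ) : ℤ) + u := by ring
  rw [e]
  exact this

end C1

open C1

theorem t_C1B : S_C1B := by
  classical
  intro m d hsq hodd a a' x y hdet
  have hm : 0 < m := Nat.pos_of_ne_zero hsq.ne_zero
  have hP : ∀ p ∈ m.primeFactors, p.Prime := fun p hp => Nat.prime_of_mem_primeFactors hp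
  have hprod : ∏ p ∈ m.primeFactors, p = m := Nat.prod_primeFactors_of_squarefree hsq
  have h0 := Pool.Agent.Z363.Z705.t_C1B m d hsq hodd a a' x y hdet
  rw [Finset.sum_filter] at h0 ⊢
  rw [sum_rf hm]
  have h1 : ∀ u ∈ un m, (if (m : ℤ) ∣ (a : ℤ) * ((rf m u : ℕ) : ℤ) - (x : ℤ) ∧
      (m : ℤ) ∣ (a' : ℤ) * ((rf m u : ℕ) : ℤ) + (y : ℤ) then jacobiSym ((rf m u : ℕ) : ℤ) m else 0) =
      jacobiSym (-1) m * (if (m : ℤ) ∣ (a : ℤ) * (u : ℤ) + (x : ℤ) ∧
      (m : ℤ) ∣ (a' : ℤ) * (u : ℤ) - (y : ℤ) then jacobiSym (u : ℤ) m else 0) := by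
    intro u hu
    have hum : u < m := mem_range.1 (mem_filter.1 hu).1
    have hd := rf_dvd hum
    have e1 : (m : ℤ) ∣ (a : ℤ) * ((rf m u : ℕ) : ℤ) - (x : ℤ) ↔
        (m : ℤ) ∣ (a : ℤ) * (u : ℤ) + (x : ℤ) := by
      have : (a : ℤ) * ((rf m u : ℕ) : ℤ) - (x : ℤ) = a * (((rf m u : ℕ) : ℤ) + u) -
        ((a : ℤ) * (u : ℤ) + (x : ℤ)) := by ring
      rw [this]
      exact dvd_sub_right (hd.mul_left _)
    have e2 : (m : ℤ) ∣ (a' : ℤ) * ((rf m u : ℕ) : ℤ) + (y : ℤ) ↔
        (m : ℤ) ∣ (a' : ℤ) * (u : ℤ) - (y : ℤ) := by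
      have : (a' : ℤ) * ((rf m u : ℕ) : ℤ) + (y : ℤ) = a' * (((rf m u : ℕ) : ℤ) + u) -
        ((a' : ℤ) * (u : ℤ) - (y : ℤ)) := by ring
      rw [this]
      exact dvd_sub_right (hd.mul_left _)
    simp only [e1, e2, jac_rf hum]
    split_ifs
    · rfl
    · rw [mul_zero]
  rw [Finset.sum_congr rfl h1, ← Finset.mul_sum, h0]
  have h2 : jacobiSym (-1) m = ∏ p ∈ m.primeFactors, jacobiSym (-1) p := by
    conv_lhs => rw [← hprod]
    exact Pool.Agent.Z363.Z705.jac_prod hP (-1)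
  rw [h2, ← Finset.prod_mul_distrib]
  refine Finset.prod_congr rfl fun p _ => ?_
  unfold Pool.Agent.Z705.psg w2
  split_ifs
  · rw [← jacobiSym.mul_left]
    congr 1
    ring
  · rw [← jacobiSym.mul_left]
    congr 1
    ring

namespace C1

/-- the change of sign of the middle coefficient -/
def sgB : (ℤ × ℤ × ℤ) ≃ (ℤ × ℤ × ℤ) where
  toFun q := (q.1, -q.2.1, q.2.2)
  invFun q := (q.1, -q.2.1, q.2.2)
  left_inv q := by simp
  right_inv q := by simp

/-- the translation of a form -/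
def trB : (ℤ × ℤ × ℤ) ≃ (ℤ × ℤ × ℤ) where
  toFun q := (q.1, q.2.1 + 2 * q.1, q.1 + q.2.1 + q.2.2)
  invFun q := (q.1, q.2.1 - 2 * q.1, q.1 - q.2.1 + q.2.2)
  left_inv q := by
    ext <;> simp
    ring
  right_inv q := by
    ext <;> simp
    ring

theorem Nr_neg (X : Finset ℕ) (x M : ℤ) : Nr X 15 x M = Nr X 13 (-x) M := by
  classical
  unfold Nr
  rw [← finsum_comp_equiv sgB]
  refine finsum_congr fun q => ?_
  have e1 : Fm X 15 (sgB q) ↔ Fm X 13 q := by
    unfold Fm sgB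
    simp only [Equiv.coe_fn_mk]
    have h : (28 : ℤ) ∣ -q.2.1 - 15 * (pr X : ℤ) ↔ (28 : ℤ) ∣ q.2.1 - 13 * (pr X : ℤ) := by
      constructor
      · intro h; omega
      · intro h; omega
    rw [h, neg_pow_two]
  have e2 : ev (sgB q) x M = ev q (-x) M := by
    unfold ev sgB
    simp only [Equiv.coe_fn_mk]
    ring
  have e3 : cx X (sgB q) = cx X q := rfl
  have e4 : (sgB q).1 = q.1 := rfl
  simp only [e1, e2, e3, e4]

theorem Nr_per (X : Finset ℕ) (hX : Pm X) (k x M : ℤ) : Nr X k (x + M) M = Nr X k x M := by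
  classical
  unfold Nr
  rw [← finsum_comp_equiv trB (f := fun q => if Fm X k q ∧ 0 < q.1 ∧ ev q x M < 0 then cx X q else 0)]
  refine finsum_congr fun q => ?_
  have e1 : Fm X k (trB q) ↔ Fm X k q := by
    unfold Fm trB
    simp only [Equiv.coe_fn_mk]
    constructor
    · rintro ⟨h1, h2, h3⟩
      refine ⟨by linear_combination h1, h2, ?_⟩
      have : q.2.1 - k * (pr X : ℤ) = (q.2.1 + 2 * q.1 - k * (pr X : ℤ)) - 2 * q.1 := by ring
      rw [this]
      refine dvd_sub h3 ?_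
      obtain ⟨c, hc⟩ := h2
      exact ⟨c, by rw [hc]; ring⟩
    · rintro ⟨h1, h2, h3⟩
      refine ⟨by linear_combination h1, h2, ?_⟩
      have : (q.2.1 + 2 * q.1 - k * (pr X : ℤ)) = (q.2.1 - k * (pr X : ℤ)) + 2 * q.1 := by ring
      rw [this]
      refine dvd_add h3 ?_
      obtain ⟨c, hc⟩ := h2
      exact ⟨c, by rw [hc]; ring⟩
  have e2 : ev (trB q) x M = ev q (x + M) M := by
    unfold ev trB
    simp only [Equiv.coe_fn_mk]
    ring
  have e4 : (trB q).1 = q.1 := rfl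
  simp only [e1, e2, e4]
  split_ifs with h
  · obtain ⟨⟨h1, -, -⟩, -, -⟩ := h
    unfold cx
    refine Finset.prod_congr rfl fun p hp => ?_
    rw [e4]
    split_ifs with hd
    · apply (Pool.Agent.Z363.Z705.jac_congr _).symm
      have hpp := Nat.prime_iff_prime_int.1 (hX p hp).1
      have hpX : (p : ℤ) ∣ (pr X : ℤ) := by
        exact_mod_cast Finset.dvd_prod_of_mem (fun p => p) hp
      have h2 : (p : ℤ) ∣ q.2.1 ^ 2 := by
        have : q.2.1 ^ 2 = (pr X : ℤ) ^ 2 + 4 * q.1 * q.2.2 := by linear_combination h1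
        rw [this]
        exact dvd_add (dvd_pow hpX (by norm_num)) ((hd.mul_left 4).mul_right _)
      have h3 := hpp.dvd_of_dvd_pow h2
      have : (trB q).2.2 - q.2.2 = q.1 + q.2.1 := by
        unfold trB
        simp only [Equiv.coe_fn_mk]
        ring
      rw [this]
      exact dvd_add hd h3
    · rfl
  · rfl

theorem Nr_rf (X : Finset ℕ) (hX : Pm X) {m u : ℕ} (hu : u < m) :
    Nr X 13 (-(u : ℤ)) (m : ℤ) = Nr X 13 ((rf m u : ℕ) : ℤ) (m : ℤ) := by
  rcases Nat.eq_zero_or_pos u with rfl | h0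
  · have : rf m 0 = 0 := by unfold rf; simp
    rw [this]
    simp
  · have h1 : rf m u = m - u := by
      unfold rf
      exact Nat.mod_eq_of_lt (by omega)
    rw [h1, Nat.cast_sub hu.le, ← Nr_per X hX 13 (-(u : ℤ)) (m : ℤ)]
    congr 1
    ring

end C1

theorem t_C1' (h1 : S_C1A) : S_C1 := by
  classical
  intro X Z hP hXZ hXn hZn hK
  have hX : Pm X := fun p hp => hP p (mem_union_left _ hp)
  have hZ : Pm Z := fun p hp => hP p (mem_union_right _ hp)
  have hZp : ∀ p ∈ Z, p.Prime := fun p hp => (hZ p hp).1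
  set m := pr Z with hm
  have hm0 : 0 < m := Finset.prod_pos fun p hp => (hZp p hp).pos
  have hN : (pr X * m) % 8 = 3 := hK.1
  -- the symbol of `-1`
  have hj : jacobiSym (-1) (pr X) * jacobiSym (-1) m = -1 := by
    have hX0 : pr X ≠ 0 := by
      intro h
      rw [h, zero_mul] at hN
      omega
    rw [← jacobiSym.mul_right' _ hX0 hm0.ne']
    have hodd : Odd (pr X * m) := by
      rw [Nat.odd_iff]
      omega
    rw [jacobiSym.at_neg_one hodd]
    exact ZMod.χ₄_nat_three_mod_four (by omega)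
  -- the sum with `Nr X 15`
  have h15 : ∑ u ∈ un m, jacobiSym u m * Nr X 15 u m =
      jacobiSym (-1) m * ∑ u ∈ un m, jacobiSym u m * Nr X 13 u m := by
    rw [sum_rf hm0 (fun u => jacobiSym u m * Nr X 13 u m), Finset.mul_sum]
    refine Finset.sum_congr rfl fun u hu => ?_
    have hum : u < m := mem_range.1 (mem_filter.1 hu).1
    rw [Nr_neg, Nr_rf X hX hum, jac_rf hum, ← mul_assoc, ← mul_assoc]
    congr 1
    have hsq : jacobiSym (-1) m * jacobiSym (-1) m = 1 := by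
      rw [← jacobiSym.mul_left]
      norm_num
    rw [hsq, one_mul]
  have hsum : ∑ u ∈ un m, jacobiSym u m * Fx X u m =
      2 * ∑ u ∈ un m, jacobiSym u m * Nr X 13 u m := by
    have e : ∀ u ∈ un m, jacobiSym u m * Fx X u m = jacobiSym u m * Nr X 13 u m -
        jacobiSym (-1) (pr X) * (jacobiSym u m * Nr X 15 u m) := by
      intro u _
      unfold Fx
      ring
    rw [Finset.sum_congr rfl e, Finset.sum_sub_distrib, ← Finset.mul_sum, h15, ← mul_assoc, hj]
    ring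
  rw [hsum, h1 X Z hP hXZ hXn hZn]
  congr 1
  refine Finset.sum_congr rfl fun T hT => ?_
  rw [mem_filter, mem_range] at hT
  unfold WW
  refine Finset.sum_congr rfl fun a ha => ?_
  refine Finset.sum_congr rfl fun a' ha' => ?_
  congr 1
  rw [mem_filter, Nat.mem_divisors] at ha ha'
  have hpf : m.primeFactors = Z := Nat.primeFactors_prod hZp
  have hsq : Squarefree m := by
    rw [hm]
    unfold pr
    exact Finset.squarefree_prod_of_pairwise_isCoprime
      (fun p hp q hq hpq => Nat.coprime_iff_isRelPrime.1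
        ((Nat.coprime_primes (hZp p hp) (hZp q hq)).2 hpq)) fun p hp => (hZp p hp).squarefree
  have hodd : Odd m := by
    rw [Nat.odd_iff]
    have : (pr X * m) % 2 = 1 := by omega
    rcases Nat.mod_two_eq_zero_or_one m with h | h
    · rw [Nat.mul_mod, h, mul_zero] at this
      omega
    · exact h
  have hdet : a * ((pr X * m - T) / a) + a' * (T / a') = pr X * m := by
    rw [Nat.mul_div_cancel' ha.1.1, Nat.mul_div_cancel' ha'.1.1]
    exact Nat.sub_add_cancel (le_of_lt hT.1)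
  have hB := t_C1B m (pr X) hsq hodd a a' (T / a') ((pr X * m - T) / a) hdet
  rw [hpf] at hB
  exact hB

theorem t_C1 (h1 : S_C1A) (_h2 : S_C1B) (_h3 : S_PARI) : S_C1 := t_C1' h1

end Pool.Agent.NH2
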