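import Pool.Agent.NH2.Defs
import Pool.Agent.Y275.N.C2

/-!
# NH2-C2: evaluation of the divisor sums (helper51)

Adaptation of the proofs of helper574, helper275 and helper949 to two sets of primes.
-/

set_option autoImplicit false

namespace Pool.Agent.NH2.C2

open Finset
open Pool.Agent.Z700 (pr fac hh loc)
open Pool.Agent.NH1 (Pm K)
open Pool.Agent.Y687.N (psn)
open Pool.Agent.Y574.Z7 (div_split sum_local chp chp_mul chp_one chp_self chp_nd chp_sq chp_pm jac_eq
  jac_prod dvd_fac alt_sum one_sum two_pt nd4 fac_D fac_D2 chp_D mem_D)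
open Pool.Agent.Y275.N (Pn Pn_mul Pn_fac Pn_pm Pn_nd Pn_l Pn_two Pn_self wn psn_eq QQ mem_QQ2 mem_QQ7
  sub_QQ pf_QQ QQ_prime dvd_iff' ne_two facp_eq facg_eq not_dvd_of chi_sq Ff prod_Ff sign_eq ex
  mem_ex)

/-! ### the number `n` -/

/-- the hypotheses on the two sets -/
structure Hy (X Z : Finset ℕ) (n : ℕ) : Prop where
  pm : Pm (X ∪ Z)
  dj : Disjoint X Z
  eq : n = pr X * pr Z
  k3 : K 3 n

theorem Hy.pr {X Z : Finset ℕ} {n : ℕ} (h : Hy X Z n) : n = ∏ p ∈ X ∪ Z, p := by
  rw [h.eq, prod_union h.dj]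
  rfl

theorem Hy.pf {X Z : Finset ℕ} {n : ℕ} (h : Hy X Z n) : n.primeFactors = X ∪ Z := by
  rw [h.pr]
  exact Nat.primeFactors_prod fun p hp => (h.pm p hp).1

theorem Hy.sq {X Z : Finset ℕ} {n : ℕ} (h : Hy X Z n) : Squarefree n := by
  rw [h.pr]
  have key : ∀ s : Finset ℕ, (∀ p ∈ s, p.Prime) → Squarefree (∏ p ∈ s, p) := by
    intro s
    induction s using Finset.induction_on with
    | empty => intro _; rw [prod_empty]; exact squarefree_one
    | insert a s ha ih =>
      intro hs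
      rw [prod_insert ha]
      have ha' := hs a (mem_insert_self a s)
      refine (Nat.squarefree_mul ?_).2 ⟨ha'.squarefree, ih fun p hp => hs p (mem_insert_of_mem hp)⟩
      rw [Nat.coprime_prod_right_iff]
      intro q hq
      exact (Nat.coprime_primes ha' (hs q (mem_insert_of_mem hq))).2 fun h => ha (h ▸ hq)
  exact key _ fun p hp => (h.pm p hp).1

theorem Hy.m8 {X Z : Finset ℕ} {n : ℕ} (h : Hy X Z n) : n % 8 = 3 := h.k3.1

theorem Hy.m7 {X Z : Finset ℕ} {n : ℕ} (h : Hy X Z n) : n % 7 = 3 ∨ n % 7 = 5 ∨ n % 7 = 6 := by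
  have := h.k3.2
  rw [if_neg (by norm_num)] at this
  exact this

theorem Hy.n7 {X Z : Finset ℕ} {n : ℕ} (h : Hy X Z n) : ¬ 7 ∣ n := by
  have := h.m7
  omega

theorem P7 {X Z : Finset ℕ} {n : ℕ} (h : Hy X Z n) : Pn n 7 = 1 := by
  rw [Pn_l h.sq h.m8 (by norm_num) (by norm_num)
    (fun h' => h.n7 (Nat.dvd_of_mem_primeFactors h'))]
  have h7 := h.m7
  rw [jacobiSym.mod_left]
  have h' : (-(n : ℤ)) % ((7 : ℕ) : ℤ) = 4 ∨ (-(n : ℤ)) % ((7 : ℕ) : ℤ) = 1 ∨
      (-(n : ℤ)) % ((7 : ℕ) : ℤ) = 2 := by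
    push_cast
    omega
  rcases h' with h' | h' | h' <;> rw [h'] <;> norm_num

/-! ### the local weights -/

/-- the local weight at the elements of `X` -/
def wx (S T q i j : ℕ) : ℤ :=
  if q ∣ T then (if i = 0 ∧ j = 0 then 1 else if i = S.factorization q ∧ j = T.factorization q then
    ZMod.χ₄ q * (chp q S * chp q T) else 0) else 1

theorem w1_eq {p S T a a' : ℕ} (hp : p.Prime) (h2 : p ≠ 2) (hS : S ≠ 0) (hT : T ≠ 0)
    (hd : p ∣ S ↔ p ∣ T) (ha : a ∣ S) (ha' : a' ∣ T) :
    w1 p a a' (T / a') (S / a) =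
      chp p a * chp p a' * wx S T p (a.factorization p) (a'.factorization p) := by
  obtain ⟨Y, rfl⟩ := ha
  obtain ⟨X, rfl⟩ := ha'
  have a0 : a ≠ 0 := left_ne_zero_of_mul hS
  have Y0 : Y ≠ 0 := right_ne_zero_of_mul hS
  have b0 : a' ≠ 0 := left_ne_zero_of_mul hT
  have X0 : X ≠ 0 := right_ne_zero_of_mul hT
  rw [Nat.mul_div_cancel_left _ (Nat.pos_of_ne_zero a0), Nat.mul_div_cancel_left _ (Nat.pos_of_ne_zero b0)]
  rw [dvd_fac hp hS, dvd_fac hp hT, Nat.factorization_mul a0 Y0, Nat.factorization_mul b0 X0,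
    Finsupp.add_apply, Finsupp.add_apply] at hd
  unfold w1 wx
  rw [jacobiSym.neg _ (hp.odd_of_ne_two h2), jac_eq hp, jac_eq hp]
  simp only [dvd_fac hp a0, dvd_fac hp b0, dvd_fac hp (mul_ne_zero X0 Y0),
    dvd_fac hp (mul_ne_zero a0 b0), dvd_fac hp hT, Nat.factorization_mul a0 Y0,
    Nat.factorization_mul b0 X0, Nat.factorization_mul X0 Y0, Nat.factorization_mul a0 b0,
    Finsupp.add_apply, chp_mul]
  have s1 := chp_sq hp a0
  have s2 := chp_sq hp b0
  generalize (ZMod.χ₄ p : ℤ) = c at *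
  generalize a.factorization p = i at *
  generalize Y.factorization p = y at *
  generalize a'.factorization p = j at *
  generalize X.factorization p = x at *
  generalize chp p a = α at *
  generalize chp p a' = α' at *
  generalize chp p Y = υ at *
  generalize chp p X = ξ at *
  split_ifs
  all_goals first
    | (exfalso; omega)
    | ring1
    | (linear_combination (-(c * ξ * υ)) * (s1 + s2))
    | (linear_combination (-(c * ξ * υ) * (α' * α')) * s1 - (c * ξ * υ) * s2)

/-- the local weight at a divisor of `n` -/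
def gw (X : Finset ℕ) (S T l i j : ℕ) : ℤ := if l ∈ X then wx S T l i j else wn S T l i j

/-- the local weights -/
def Wl (X : Finset ℕ) (n S T l i j : ℕ) : ℤ :=
  Pn n l ^ (i + j) * (if l ∈ n.primeFactors then gw X S T l i j else 1) *
    (if l = 2 then (if 1 ≤ i then 1 else 0) else 1) * (if l = 7 then (if 1 ≤ j then 1 else 0) else 1)

theorem term_eq {X Z : Finset ℕ} {n S T : ℕ} (h : Hy X Z n) (hS : S ≠ 0) (hT : T ≠ 0)
    (hST : S + T = n) {a a' : ℕ} (ha : a ∣ S) (ha' : a' ∣ T) :
    (if 2 ∣ a then (if 7 ∣ a' then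
      (∏ p ∈ X, w1 p a a' (T / a') (S / a)) * ∏ p ∈ Z, w2 p a a' (T / a') (S / a) else 0)
        else 0) =
      ∏ l ∈ QQ n S T, Wl X n S T l (a.factorization l) (a'.factorization l) := by
  classical
  have h8 := h.m8
  have a0 : a ≠ 0 := by rintro rfl; exact hS (zero_dvd_iff.1 ha)
  have b0 : a' ≠ 0 := by rintro rfl; exact hT (zero_dvd_iff.1 ha')
  have hsa : a.primeFactors ⊆ QQ n S T :=
    (Nat.primeFactors_mono (ha.mul_right T) (mul_ne_zero hS hT)).trans pf_QQ
  have hsb : a'.primeFactors ⊆ QQ n S T :=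
    (Nat.primeFactors_mono (ha'.mul_left S) (mul_ne_zero hS hT)).trans pf_QQ
  unfold Wl
  rw [Finset.prod_mul_distrib, Finset.prod_mul_distrib, Finset.prod_mul_distrib]
  have e1 : ∏ l ∈ QQ n S T, Pn n l ^ (a.factorization l + a'.factorization l) =
      Pn n a * Pn n a' := by
    rw [Pn_fac n (QQ n S T) a a0 hsa, Pn_fac n (QQ n S T) a' b0 hsb,
      ← Finset.prod_mul_distrib]
    exact Finset.prod_congr rfl fun l _ => pow_add _ _ _
  have e2 : ∏ l ∈ QQ n S T, (if l ∈ n.primeFactors then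
      gw X S T l (a.factorization l) (a'.factorization l) else 1) =
      ∏ l ∈ n.primeFactors, gw X S T l (a.factorization l) (a'.factorization l) := by
    rw [Finset.prod_ite_mem, Finset.inter_eq_right.2 sub_QQ]
  have e3 : ∏ l ∈ QQ n S T, (if l = 2 then (if 1 ≤ a.factorization l then (1 : ℤ) else 0) else 1) =
      if 2 ∣ a then 1 else 0 := by
    rw [Finset.prod_ite_eq' (QQ n S T) 2 (fun l => if 1 ≤ a.factorization l then (1 : ℤ) else 0),
      if_pos mem_QQ2]
    simp only [dvd_fac Nat.prime_two a0]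
  have e4 : ∏ l ∈ QQ n S T, (if l = 7 then
      (if 1 ≤ a'.factorization l then (1 : ℤ) else 0) else 1) =
      if 7 ∣ a' then 1 else 0 := by
    rw [Finset.prod_ite_eq' (QQ n S T) 7 (fun l =>
      (if 1 ≤ a'.factorization l then (1 : ℤ) else 0)), if_pos mem_QQ7]
    simp only [dvd_fac (by norm_num : Nat.Prime 7) b0]
  rw [e1, e2, e3, e4]
  have e5 : (∏ p ∈ X, w1 p a a' (T / a') (S / a)) * ∏ p ∈ Z, w2 p a a' (T / a') (S / a) =
      Pn n a * Pn n a' *
        ∏ l ∈ n.primeFactors, gw X S T l (a.factorization l) (a'.factorization l) := by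
    unfold Pn
    rw [h.pf, ← Finset.prod_mul_distrib, ← Finset.prod_mul_distrib, Finset.prod_union h.dj]
    congr 1
    · refine Finset.prod_congr rfl fun p hp => ?_
      have hpn : p ∈ n.primeFactors := by
        rw [h.pf]
        exact mem_union_left _ hp
      rw [w1_eq (Nat.prime_of_mem_primeFactors hpn) (ne_two h8 hpn) hS hT (dvd_iff' hST hpn) ha ha']
      unfold gw
      rw [if_pos hp]
    · refine Finset.prod_congr rfl fun p hp => ?_
      have hpX : p ∉ X := fun h' => (Finset.disjoint_left.1 h.dj h') hp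
      have hpn : p ∈ n.primeFactors := by
        rw [h.pf]
        exact mem_union_right _ hp
      have e6 : w2 p a a' (T / a') (S / a) = psn p a a' (S / a) (T / a') := rfl
      rw [e6, psn_eq (Nat.prime_of_mem_primeFactors hpn) (ne_two h8 hpn) hS hT (dvd_iff' hST hpn) ha ha']
      unfold gw
      rw [if_neg hpX]
  rw [e5]
  split_ifs <;> simp

/-- the sum of the local weights -/
def Ls (X : Finset ℕ) (n S T l : ℕ) : ℤ :=
  ∑ i ∈ range (S.factorization l + 1), ∑ j ∈ range (T.factorization l + 1), Wl X n S T l i j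

theorem WW_eq {X Z : Finset ℕ} {n S T : ℕ} (h : Hy X Z n) (hS : S ≠ 0) (hT : T ≠ 0)
    (hST : S + T = n) : WW X Z T = ∏ l ∈ QQ n S T, Ls X n S T l := by
  have hnT : pr X * pr Z - T = S := by rw [← h.eq]; omega
  unfold Ls
  rw [← sum_local (Wl X n S T) (QQ n S T) QQ_prime S T hS hT
    (fun l hl hd => pf_QQ (Nat.mem_primeFactors.2 ⟨hl, hd.mul_right T, mul_ne_zero hS hT⟩))
    (fun l hl hd => pf_QQ (Nat.mem_primeFactors.2 ⟨hl, hd.mul_left S, mul_ne_zero hS hT⟩))]
  unfold WW
  rw [hnT, Finset.sum_filter]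
  refine Finset.sum_congr rfl fun a ha => ?_
  rw [Finset.sum_filter]
  have ha1 := Nat.dvd_of_mem_divisors ha
  have h1 : ∀ a' ∈ T.divisors,
      ∏ l ∈ QQ n S T, Wl X n S T l (a.factorization l) (a'.factorization l) =
      (if 2 ∣ a then (if 7 ∣ a' then
      (∏ p ∈ X, w1 p a a' (T / a') (S / a)) * ∏ p ∈ Z, w2 p a a' (T / a') (S / a) else 0)
        else 0) :=
    fun a' ha' => (term_eq h hS hT hST ha1 (Nat.dvd_of_mem_divisors ha')).symm
  rw [Finset.sum_congr rfl h1]
  by_cases h2 : 2 ∣ a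
  · simp only [if_pos h2]
  · simp only [if_neg h2, Finset.sum_const_zero]

/-! ### the local sums -/

theorem Ls_two {X Z : Finset ℕ} {n S T : ℕ} (h : Hy X Z n) (hT : Odd T) :
    Ls X n S T 2 = if Odd (S.factorization 2) then -1 else 0 := by
  have h2 : (2 : ℕ) ∉ n.primeFactors := fun h' => ne_two h.m8 h' rfl
  have hT2 : T.factorization 2 = 0 := Nat.factorization_eq_zero_of_not_dvd (fun h => by
      have := (Nat.odd_iff.1 hT); omega)
  unfold Ls
  rw [hT2, zero_add, ← alt_sum]
  refine Finset.sum_congr rfl fun i _ => ?_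
  rw [Finset.sum_range_one]
  unfold Wl
  rw [if_neg h2, if_pos rfl, if_neg (by norm_num : (2 : ℕ) ≠ 7), Pn_two h.sq h.m8,
    add_zero]
  ring

theorem Ls_seven {X Z : Finset ℕ} {n S T : ℕ} (h : Hy X Z n) (hS7 : ¬ 7 ∣ S) :
    Ls X n S T 7 = (T.factorization 7 : ℤ) := by
  have h7' : (7 : ℕ) ∉ n.primeFactors := fun h' => h.n7 (Nat.dvd_of_mem_primeFactors h')
  unfold Ls
  rw [Nat.factorization_eq_zero_of_not_dvd hS7, zero_add, Finset.sum_range_one, ← one_sum]
  refine Finset.sum_congr rfl fun j _ => ?_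
  unfold Wl
  rw [if_neg h7', if_pos rfl, if_neg (by norm_num : (7 : ℕ) ≠ 2), P7 h, one_pow]
  ring

theorem Wl_ex {X : Finset ℕ} {n S T l : ℕ} (hl : l ∉ ex 7) (i j : ℕ) :
    Wl X n S T l i j = Pn n l ^ (i + j) *
      (if l ∈ n.primeFactors then gw X S T l i j else 1) := by
  rw [mem_ex] at hl
  push Not at hl
  unfold Wl
  rw [if_neg hl.1, mul_one]
  by_cases h : l = 7
  · exact absurd rfl (hl.2 h)
  · rw [if_neg h, mul_one]

theorem Ls_gen {X Z : Finset ℕ} {n S T l : ℕ} (h : Hy X Z n) (hS : S ≠ 0) (hT : T ≠ 0)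
    (hST : S + T = n) (hp : l.Prime) (hex : l ∉ ex 7) (hl : l ∉ n.primeFactors) :
    Ls X n S T l = fac n (4 * S * T) l := by
  have h2 : l ≠ 2 := fun h => hex (mem_ex.2 (Or.inl h))
  rw [facg_eq h.sq h.m8 hS hT hp h2 hl]
  unfold Ls
  simp only [Wl_ex hex, if_neg hl, mul_one]
  have h0 : S.factorization l = 0 ∨ T.factorization l = 0 := by
    by_contra h'
    push Not at h'
    have h1 := (dvd_fac hp hS).2 (by omega)
    have h2 := (dvd_fac hp hT).2 (by omega)
    exact not_dvd_of h.sq hp hl (hST ▸ dvd_add h1 h2)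
  rcases h0 with h0 | h0
  · rw [h0, zero_add, Finset.sum_range_one, zero_add]
    exact Finset.sum_congr rfl fun j _ => by rw [zero_add]
  · rw [h0, zero_add, add_zero]
    exact Finset.sum_congr rfl fun i _ => by rw [Finset.sum_range_one, add_zero]

theorem Ls_X {X Z : Finset ℕ} {n S T : ℕ} (h : Hy X Z n) (hS : S ≠ 0) (hT : T ≠ 0)
    (hST : S + T = n) {p : ℕ} (hp : p ∈ n.primeFactors) (hpX : p ∈ X) (hex : p ∉ ex 7) :
    Ls X n S T p = if p ∣ T then fac n (4 * S * T) p else 1 := by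
  have hd := dvd_iff' hST hp
  have hpp := Nat.prime_of_mem_primeFactors hp
  unfold Ls
  simp only [Wl_ex hex, if_pos hp]
  unfold gw wx
  simp only [if_pos hpX]
  by_cases h' : p ∣ T
  · rw [if_pos h', facp_eq h.sq h.m8 hS hT hp]
    simp only [if_pos h']
    have s1 := (dvd_fac hpp hS).1 (hd.2 h')
    have t1 := (dvd_fac hpp hT).1 h'
    rw [two_pt (S.factorization p) (T.factorization p) 0 0 (S.factorization p) (T.factorization p)
      (Nat.zero_le _) (Nat.zero_le _) le_rfl le_rfl (Or.inl (by omega)) 1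
      (ZMod.χ₄ p * (chp p S * chp p T)) (fun i j => Pn n p ^ (i + j))]
    ring
  · rw [if_neg h']
    simp only [if_neg h']
    rw [Nat.factorization_eq_zero_of_not_dvd h', Nat.factorization_eq_zero_of_not_dvd (fun h1 => h' (hd.1 h1))]
    simp

theorem Ls_Z {X Z : Finset ℕ} {n S T : ℕ} (h : Hy X Z n) (hS : S ≠ 0) (hT : T ≠ 0)
    (hST : S + T = n) {p : ℕ} (hp : p ∈ n.primeFactors) (hpX : p ∉ X) (hex : p ∉ ex 7) :
    Ls X n S T p = (Pn n p ^ T.factorization p * chp p T) *
      (if p ∣ T then fac n (4 * S * T) p else 1) := by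
  have hd := dvd_iff' hST hp
  have hpp := Nat.prime_of_mem_primeFactors hp
  unfold Ls
  simp only [Wl_ex hex, if_pos hp]
  unfold gw wn
  simp only [if_neg hpX]
  by_cases h' : p ∣ T
  · rw [if_pos h', facp_eq h.sq h.m8 hS hT hp]
    simp only [if_pos h']
    have s1 := (dvd_fac hpp hS).1 (hd.2 h')
    have t1 := (dvd_fac hpp hT).1 h'
    rw [two_pt (S.factorization p) (T.factorization p) (S.factorization p) 0 0 (T.factorization p)
      le_rfl (Nat.zero_le _) (Nat.zero_le _) le_rfl (Or.inl (by omega)) (ZMod.χ₄ p * chp p S)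
      (chp p T) (fun i j => Pn n p ^ (i + j))]
    simp only [add_zero, zero_add]
    have c1 := chp_sq hpp hT
    have c2 : Pn n p ^ T.factorization p * Pn n p ^ T.factorization p = 1 := by
      rw [← mul_pow]
      rcases Pn_pm (n := n) hpp.ne_zero with h | h <;> rw [h] <;> norm_num
    rw [pow_add]
    linear_combination (-(ZMod.χ₄ p * Pn n p ^ S.factorization p * chp p S *
      (chp p T * chp p T))) * c2 -
      (ZMod.χ₄ p * Pn n p ^ S.factorization p * chp p S) * c1
  · rw [if_neg h']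
    simp only [if_neg h']
    rw [Nat.factorization_eq_zero_of_not_dvd h', Nat.factorization_eq_zero_of_not_dvd (fun h1 => h' (hd.1 h1))]
    simp only [zero_add, Finset.sum_range_one, pow_zero, one_mul, mul_one]

/-- the local sums away from the excluded primes -/
theorem Ls_Q' {X Z : Finset ℕ} {n S T : ℕ} (h : Hy X Z n) (hS : S ≠ 0) (hT : T ≠ 0)
    (hST : S + T = n) {l : ℕ} (hl : l ∈ QQ n S T \ ex 7) :
    Ls X n S T l = (if l ∈ Z then Pn n l ^ T.factorization l * chp l T else 1) *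
      Ff n S T l := by
  obtain ⟨hl1, hex⟩ := Finset.mem_sdiff.1 hl
  have hp := QQ_prime l hl1
  have h2 : l ≠ 2 := fun h => hex (mem_ex.2 (Or.inl h))
  have hD := mem_D hS hT hp h2
  by_cases hlP : l ∈ n.primeFactors
  · have hd := dvd_iff' hST hlP
    have hD' : l ∈ (4 * S * T).primeFactors ↔ l ∣ T := by rw [hD, hd, or_self]
    by_cases h3 : l ∈ X
    · have hlZ : l ∉ Z := fun h' => (Finset.disjoint_left.1 h.dj h3) h'
      rw [if_neg hlZ, one_mul, Ls_X h hS hT hST hlP h3 hex]
      unfold Ff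
      simp only [hD']
    · have hlZ : l ∈ Z := by
        rw [h.pf] at hlP
        exact (Finset.mem_union.1 hlP).resolve_left h3
      rw [if_pos hlZ, Ls_Z h hS hT hST hlP h3 hex]
      unfold Ff
      simp only [hD']
  · have hlZ : l ∉ Z := fun h' => hlP (by
      rw [h.pf]
      exact Finset.mem_union_right _ h')
    rw [if_neg hlZ, one_mul, Ls_gen h hS hT hST hp hex hlP]
    unfold Ff
    split_ifs with h'
    · rfl
    · rw [facg_eq h.sq h.m8 hS hT hp h2 hlP]
      rw [hD] at h'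
      push Not at h'
      rw [Nat.factorization_eq_zero_of_not_dvd h'.1, Nat.factorization_eq_zero_of_not_dvd h'.2]
      simp

/-! ### the weights of the pairs -/

theorem wp_eq {X Z : Finset ℕ} {n S T : ℕ} (h : Hy X Z n) (hST : S + T = n) {p : ℕ}
    (hp : p ∈ n.primeFactors) : wp p n T = chp p S * Pn n p ^ S.factorization p := by
  have hpp := Nat.prime_of_mem_primeFactors hp
  have hnT : n - T = S := by omega
  have hm : chp p n = jacobiSym ((n / p : ℕ) : ℤ) p := by
    unfold chp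
    rw [Pool.Agent.Y275.N.facn_self h.sq hp, pow_one]
  have hsq : chp p n * chp p n = 1 := chp_sq hpp h.sq.ne_zero
  unfold wp
  rw [hnT, Pn_self h.sq h.m8 hp, Nat.cast_mul, jacobiSym.mul_left, ← hm]
  have hc : jacobiSym ((S / p ^ S.factorization p : ℕ) : ℤ) p = chp p S := rfl
  rw [hc]
  split_ifs with he
  · obtain ⟨k, hk⟩ := he
    rw [hk, ← two_mul, pow_mul, sq, hsq, one_pow, mul_one]
  · rw [Nat.not_even_iff_odd] at he
    obtain ⟨k, hk⟩ := he
    rw [hk, pow_succ, pow_mul, sq, hsq, one_pow, one_mul]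

/-- comparison of the weights -/
theorem cmp {X Z : Finset ℕ} {n S T : ℕ} (h : Hy X Z n) (hS : S ≠ 0) (hT : T ≠ 0)
    (hST : S + T = n) {p : ℕ} (hp : p ∈ n.primeFactors) (hF : Ff n S T p ≠ 0) :
    Pn n p ^ T.factorization p * chp p T = ZMod.χ₄ p * wp p n T := by
  have hpp := Nat.prime_of_mem_primeFactors hp
  have h2 := ne_two h.m8 hp
  have hd := dvd_iff' hST hp
  have hodd := hpp.odd_of_ne_two h2
  rw [wp_eq h hST hp]
  have c0 := chi_sq hodd
  have c1 := chp_sq hpp hT
  have c2 : Pn n p ^ T.factorization p * Pn n p ^ T.factorization p = 1 := by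
    rw [← mul_pow]
    rcases Pn_pm (n := n) hpp.ne_zero with h | h <;> rw [h] <;> norm_num
  have c3 := chp_sq hpp hS
  have c4 : Pn n p ^ S.factorization p * Pn n p ^ S.factorization p = 1 := by
    rw [← mul_pow]
    rcases Pn_pm (n := n) hpp.ne_zero with h | h <;> rw [h] <;> norm_num
  by_cases h' : p ∣ T
  · unfold Ff at hF
    rw [if_pos ((mem_D hS hT hpp h2).2 (Or.inr h')), facp_eq h.sq h.m8 hS hT hp, pow_add] at hF
    have c5 : ZMod.χ₄ p * (Pn n p ^ S.factorization p * Pn n p ^ T.factorization p) *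
        (chp p S * chp p T) = 1 := by
      have c6 : ZMod.χ₄ p * (Pn n p ^ S.factorization p * Pn n p ^ T.factorization p) *
        (chp p S * chp p T) = 1 ∨ ZMod.χ₄ p * (Pn n p ^ S.factorization p *
        Pn n p ^ T.factorization p) * (chp p S * chp p T) = -1 := by
        apply mul_self_eq_one_iff.1
        generalize Pn n p ^ S.factorization p = A at *
        generalize Pn n p ^ T.factorization p = B at *
        generalize (ZMod.χ₄ p : ℤ) = c at *
        generalize chp p S = s at *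
        generalize chp p T = t at *
        have : c * (A * B) * (s * t) * (c * (A * B) * (s * t)) =
          (c * c) * (A * A) * (B * B) * (s * s) * (t * t) := by ring
        rw [this, c0, c1, c2, c3, c4]
        norm_num
      rcases c6 with c6 | c6
      · exact c6
      · exact absurd (by rw [c6]; norm_num) hF
    generalize Pn n p ^ S.factorization p = A at *
    generalize Pn n p ^ T.factorization p = B at *
    generalize (ZMod.χ₄ p : ℤ) = c at *
    generalize chp p S = s at *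
    generalize chp p T = t at *
    have e1 : c * (s * A) = (c * (A * B) * (s * t)) * (B * t) - c * s * A * ((B * B) * (t * t) - 1) := by
      ring
    rw [e1, c5, c1, c2]
    ring
  · have hS' : ¬ p ∣ S := fun h1 => h' (hd.1 h1)
    rw [Nat.factorization_eq_zero_of_not_dvd h', Nat.factorization_eq_zero_of_not_dvd hS', pow_zero,
      one_mul, mul_one, chp_nd h', chp_nd hS']
    have e1 : jacobiSym (S : ℤ) p = ZMod.χ₄ p * jacobiSym (T : ℤ) p := by
      rw [← jacobiSym.neg _ hodd]
      apply jacobiSym.mod_left'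
      have h3 := Nat.dvd_of_mem_primeFactors hp
      have h4 : (p : ℤ) ∣ (S : ℤ) - (-(T : ℤ)) := by
        have : ((S : ℤ) - (-(T : ℤ))) = ((n : ℕ) : ℤ) := by rw [← hST]; push_cast; ring
        rw [this]
        exact_mod_cast h3
      exact Int.emod_eq_emod_iff_emod_sub_eq_zero.2 (Int.emod_eq_zero_of_dvd h4)
    rw [e1, ← mul_assoc, c0, one_mul]

end Pool.Agent.NH2.C2

namespace Pool.Agent.NH2

open Finset
open Pool.Agent.Z700 (pr fac hh loc)
open Pool.Agent.Y574.Z7 (chp chp_sq jac_prod fac_D fac_D2 dvd_fac)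
open Pool.Agent.Y275.N (Pn Pn_pm QQ mem_QQ2 mem_QQ7 sub_QQ ne_two Ff prod_Ff sign_eq ex mem_ex)
open Pool.Agent.NH2.C2

/-- C2 -/
theorem t_C2 : S_C2 := by
  classical
  intro X Z hpm hdj hk T hTo h7T hlt
  obtain ⟨n, hn⟩ : ∃ n, n = pr X * pr Z := ⟨_, rfl⟩
  rw [← hn] at hk hlt ⊢
  have h : Hy X Z n := ⟨hpm, hdj, hn, hk⟩
  obtain ⟨S, hSdef⟩ : ∃ S, S = n - T := ⟨_, rfl⟩
  rw [← hSdef]
  have h8 := h.m8
  have hsq := h.sq
  have hST : S + T = n := by omega
  have hS : S ≠ 0 := by omega
  have hT : T ≠ 0 := by rintro rfl; exact absurd hTo (by decide)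
  have hS7 : ¬ 7 ∣ S := fun h' => h.n7 (hST ▸ dvd_add h' h7T)
  rw [WW_eq h hS hT hST]
  have hexs : ex 7 ⊆ QQ n S T := by
    intro l hl
    rcases mem_ex.1 hl with h | ⟨h, _⟩
    · rw [h]; exact mem_QQ2
    · rw [h]; exact mem_QQ7
  have hE : ∏ l ∈ ex 7, Ls X n S T l = (if Odd (S.factorization 2) then -1 else 0) *
      ((4 * S * T).factorization 7 : ℤ) := by
    unfold ex
    rw [if_pos rfl, Finset.prod_pair (by norm_num), Ls_two h hTo, Ls_seven h hS7,
      fac_D hS hT (by norm_num) (by norm_num), Nat.factorization_eq_zero_of_not_dvd hS7, zero_add]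
  have hPs : n.primeFactors ⊆ QQ n S T \ ex 7 := by
    intro l hl'
    refine Finset.mem_sdiff.2 ⟨sub_QQ hl', fun h' => ?_⟩
    rcases mem_ex.1 h' with h' | ⟨h', _⟩
    · exact ne_two h8 hl' h'
    · rw [h'] at hl'
      exact h.n7 (Nat.dvd_of_mem_primeFactors hl')
  have hPsub : Z ⊆ QQ n S T \ ex 7 := fun l hl => hPs (by
    rw [h.pf]
    exact Finset.mem_union_right _ hl)
  have e1 : ∏ l ∈ QQ n S T \ ex 7, Ls X n S T l =
      (∏ l ∈ Z, (Pn n l ^ T.factorization l * chp l T)) *
        ∏ l ∈ QQ n S T \ ex 7, Ff n S T l := by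
    rw [Finset.prod_congr rfl fun l (hl : l ∈ QQ n S T \ ex 7) => Ls_Q' h hS hT hST hl,
      Finset.prod_mul_distrib, Finset.prod_ite_mem, Finset.inter_eq_right.2 hPsub]
  have e2 : ((4 * S * T).primeFactors.erase 2).erase 7 = (4 * S * T).primeFactors \ ex 7 := by
    ext l
    rw [Finset.mem_sdiff, mem_ex, Finset.mem_erase, Finset.mem_erase]
    constructor
    · rintro ⟨h1, h2, h3⟩
      refine ⟨h3, ?_⟩
      rintro (h | ⟨h, _⟩)
      · exact h2 h
      · exact h1 h
    · rintro ⟨h1, h2⟩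
      exact ⟨fun h => h2 (Or.inr ⟨h, rfl⟩), fun h => h2 (Or.inl h), h1⟩
  have hneg : jacobiSym (-1) (pr X) = ∏ p ∈ X, (ZMod.χ₄ (p : ZMod 4) : ℤ) := by
    unfold Pool.Agent.Z700.pr
    have h0 : ∀ q ∈ X, q ≠ 0 := fun q hq => (hpm q (mem_union_left _ hq)).1.ne_zero
    rw [jac_prod _ _ h0]
    refine Finset.prod_congr rfl fun p hp => ?_
    have hp' := hpm p (mem_union_left _ hp)
    exact jacobiSym.at_neg_one (hp'.1.odd_of_ne_two hp'.2.1)
  rw [← Finset.prod_sdiff hexs, hE, e1]
  unfold Pool.Agent.Z700.loc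
  rw [e2, ← prod_Ff hS hT, fac_D2 hS hTo]
  by_cases hodd : Odd (S.factorization 2)
  · rw [if_pos hodd, if_pos (show Odd (S.factorization 2 + 2) from by
      obtain ⟨k, hk⟩ := hodd; exact ⟨k + 1, by omega⟩)]
    by_cases hF : ∀ l ∈ QQ n S T \ ex 7, Ff n S T l ≠ 0
    · have hs := sign_eq (d := 7) hsq h8 hS hT hTo hST (fun _ => P7 h) hF
      rw [h.pf, Finset.prod_union hdj] at hs
      have hX : ∏ l ∈ X, (Pn n l ^ T.factorization l * chp l T) =
          jacobiSym (-1) (pr X) * ∏ p ∈ X, wp p n T := by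
        rw [hneg, ← Finset.prod_mul_distrib]
        refine Finset.prod_congr rfl fun p hp => ?_
        have hpn : p ∈ n.primeFactors := by
          rw [h.pf]
          exact Finset.mem_union_left _ hp
        exact cmp h hS hT hST hpn (hF p (hPs hpn))
      have hZ : (∏ l ∈ Z, (Pn n l ^ T.factorization l * chp l T)) *
          (∏ l ∈ Z, (Pn n l ^ T.factorization l * chp l T)) = 1 := by
        rw [← Finset.prod_mul_distrib]
        refine Finset.prod_eq_one fun p hp => ?_
        have hpn : p ∈ n.primeFactors := by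
          rw [h.pf]
          exact Finset.mem_union_right _ hp
        have hpp := Nat.prime_of_mem_primeFactors hpn
        have c1 := chp_sq hpp hT
        have c2 : Pn n p ^ T.factorization p * Pn n p ^ T.factorization p = 1 := by
          rw [← mul_pow]
          rcases Pn_pm (n := n) hpp.ne_zero with h | h <;> rw [h] <;> norm_num
        have : Pn n p ^ T.factorization p * chp p T * (Pn n p ^ T.factorization p * chp p T) =
          (Pn n p ^ T.factorization p * Pn n p ^ T.factorization p) * (chp p T * chp p T) := by ring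
        rw [this, c1, c2, one_mul]
      have hX' : -jacobiSym (-1) (pr X) * ∏ p ∈ X, wp p n T =
          -(∏ l ∈ X, (Pn n l ^ T.factorization l * chp l T)) := by
        rw [hX, neg_mul]
      rw [hX']
      generalize ∏ l ∈ X, (Pn n l ^ T.factorization l * chp l T) = A at hs ⊢
      generalize ∏ l ∈ Z, (Pn n l ^ T.factorization l * chp l T) = B at hs hZ ⊢
      have hAB : A = B := by
        calc A = A * (B * B) := by rw [hZ, mul_one]
          _ = (A * B) * B := by ring
          _ = B := by rw [hs, one_mul]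
      rw [hAB]
      ring
    · push Not at hF
      obtain ⟨l, hl, hl0⟩ := hF
      rw [Finset.prod_eq_zero hl hl0]
      ring
  · rw [if_neg hodd, if_neg (show ¬ Odd (S.factorization 2 + 2) from fun h => hodd (by
      obtain ⟨k, hk⟩ := h
      exact ⟨k - 1, by omega⟩))]
    ring

end Pool.Agent.NH2
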