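import Pool.Agent.NH2.Defs2
import Pool.Agent.Y687.N.Expl

/-!
# Project NH2: the modular symbols as cocycles (S_CS, S_CM)
-/

set_option autoImplicit false

namespace Pool.Agent.NH2

open Finset
open Pool.Agent.Y687 (Symb2)
open Pool.Agent.Y687.N (SymbM)

namespace CsAux

theorem per_q {s : ℚ → ℤ} (h : ∀ x, s (x + 1) = s x) (x M : ℤ) :
    s (((x + M : ℤ) : ℚ) / M) = s ((x : ℚ) / M) := by
  by_cases hM : M = 0
  · subst hM
    simp
  · have hMq : (M : ℚ) ≠ 0 := by exact_mod_cast hM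
    have e : (((x + M : ℤ) : ℚ) / M) = (x : ℚ) / M + 1 := by
      push_cast
      field_simp
    rw [e, h]

theorem neg2_q (s : ℚ → ℤ) (x M : ℤ) :
    s (((-x : ℤ) : ℚ) / ((-M : ℤ) : ℚ)) = s ((x : ℚ) / M) := by
  push_cast
  rw [neg_div_neg_eq]

end CsAux

theorem t_CS : S_CS := by
  intro s a h
  refine ⟨⟨fun x M => CsAux.neg2_q s x M, fun x M => CsAux.per_q h.per x M, ?_⟩, ?_, h.s13⟩
  · intro A B C D hdet hC x M hc
    obtain ⟨C', rfl⟩ := hC
    have h1 := h.aff (A := A) (B := B) (C' := C') (D := D) (by linarith) hc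
    rw [h1]
    norm_num
  · intro x M
    have h1 := h.neg ((x : ℚ) / M)
    rw [← h1]
    push_cast
    rw [neg_div]

theorem t_CM : S_CM := by
  intro s a h
  have h0 : s 0 = 0 := h.s0
  refine ⟨⟨fun x M => CsAux.neg2_q s x M, fun x M => CsAux.per_q h.per x M, ?_⟩, ?_, h.s215 h.a5⟩
  · intro A B C D hdet hC x M hc
    obtain ⟨C', rfl⟩ := hC
    have h1 := h.aff (A := A) (B := B) (C' := C') (D := D) (by linarith) hc
    rw [h1]
    have h2 : s (((0 : ℤ) : ℚ) / ((1 : ℤ) : ℚ)) = 0 := by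
      norm_num
      exact h0
    rw [h2, sub_zero]
  · intro x M
    have h1 := h.neg ((x : ℚ) / M)
    rw [← h1]
    push_cast
    rw [neg_div]

end Pool.Agent.NH2
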