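import Pool.Agent.NH1.Sub2
import Pool.Agent.Y17.N.Defs

/-!
# The general formula for the twisted values (forms of square discriminant)

Project NH2. `N = pr X * pr Z` is a number of the class `K 3` (so `N = 3 mod 8`, `N` a nonsquare modulo
`7`), `X` and `Z` are disjoint and nonempty.  `Fx X` counts the forms of discriminant `(pr X)²`, `14 ∣ A`,
of two classes modulo `28`, with the genus character `cx X`, which change sign between `∞` and `x / M`.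
The twisted sum of `Fx X` over the units modulo `pr Z` is a square of a sum over vectors, up to a factor.
-/

set_option autoImplicit false

namespace Pool.Agent.NH2

open Finset Matrix
open Pool.Agent.Z700 (V3 vec pr cp cp7 Ln n0 ep loc un Fp)
open Pool.Agent.NH1

noncomputable section

/-! ### the forms -/

/-- the value of a form -/
def ev (q : ℤ × ℤ × ℤ) (x M : ℤ) : ℤ := q.1 * x ^ 2 + q.2.1 * x * M + q.2.2 * M ^ 2

/-- the forms of discriminant `(pr X)²` in the class `k` modulo `28` -/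
def Fm (X : Finset ℕ) (k : ℤ) (q : ℤ × ℤ × ℤ) : Prop :=
  q.2.1 ^ 2 - 4 * q.1 * q.2.2 = (pr X : ℤ) ^ 2 ∧ (14 : ℤ) ∣ q.1 ∧ (28 : ℤ) ∣ q.2.1 - k * pr X

/-- the genus character -/
def cx (X : Finset ℕ) (q : ℤ × ℤ × ℤ) : ℤ :=
  ∏ p ∈ X, if (p : ℤ) ∣ q.1 then jacobiSym q.2.2 p else jacobiSym q.1 p

open Classical in
/-- the weighted number of the forms of the class `k` changing sign between `∞` and `x / M` -/
def Nr (X : Finset ℕ) (k : ℤ) (x M : ℤ) : ℤ := ∑ᶠ q : ℤ × ℤ × ℤ,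
  if Fm X k q ∧ 0 < q.1 ∧ ev q x M < 0 then cx X q else 0

/-- the counting function -/
def Fx (X : Finset ℕ) (x M : ℤ) : ℤ := Nr X 13 x M - jacobiSym (-1) (pr X) * Nr X 15 x M

/-- functions on the cusps equivalent to `0` that come from cocycles of `Γ₀(14)` -/
structure Coc (f : ℤ → ℤ → ℤ) : Prop where
  neg2 : ∀ x M : ℤ, f (-x) (-M) = f x M
  per : ∀ x M : ℤ, f (x + M) M = f x M
  aff : ∀ a b c d : ℤ, a * d - b * c = 1 → (14 : ℤ) ∣ c → ∀ x M : ℤ, IsCoprime (14 * x) M →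
    f (a * x + b * M) (c * x + d * M) = f x M + f b d - f 0 1

/-- COC: the counting functions are cocycles -/
def S_COC : Prop := ∀ X : Finset ℕ, Pm X → X.Nonempty → Coc (Fx X)

/-- PARI: the parity -/
def S_PARI : Prop := ∀ X : Finset ℕ, Pm X → X.Nonempty → ∀ x M : ℤ,
  Fx X (-x) M = - jacobiSym (-1) (pr X) * Fx X x M

/-- UEV: uniqueness of the even functions -/
def S_UEV : Prop := ∀ f g : ℤ → ℤ → ℤ, Coc f → Coc g → (∀ x M : ℤ, f (-x) M = f x M) →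
  (∀ x M : ℤ, g (-x) M = g x M) → ∀ x M : ℤ, 0 < M → IsCoprime (14 * x) M →
  (f x M - f 0 1) * (g 1 3 - g 0 1) = (g x M - g 0 1) * (f 1 3 - f 0 1)

/-- UOD: uniqueness of the odd functions -/
def S_UOD : Prop := ∀ f g : ℤ → ℤ → ℤ, Coc f → Coc g → (∀ x M : ℤ, f (-x) M = - f x M) →
  (∀ x M : ℤ, g (-x) M = - g x M) → f 2 15 = 0 → g 2 15 = 0 →
  ∀ x M : ℤ, 0 < M → IsCoprime (14 * x) M → f x M * g 1 3 = g x M * f 1 3

/-- PARB: the value at a parabolic element -/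
def S_PARB : Prop := ∀ X : Finset ℕ, Pm X → X.Nonempty → pr X % 4 = 1 → Fx X 2 15 = 0

/-! ### the twisted sums of the counting functions -/

/-- the local weight at `p ∈ X` -/
def w1 (p a a' x y : ℕ) : ℤ := if p ∣ a ∧ p ∣ a' then jacobiSym (-((x * y : ℕ) : ℤ)) p
  else jacobiSym ((a * a' : ℕ) : ℤ) p

/-- the local weight at `p ∈ Z` -/
def w2 (p a a' x y : ℕ) : ℤ := if p ∣ a ∧ p ∣ x then jacobiSym (-((a' * y : ℕ) : ℤ)) p
  else jacobiSym ((a * x : ℕ) : ℤ) p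

/-- C1A: forms and cusps as factorizations -/
def S_C1A : Prop := ∀ X Z : Finset ℕ, Pm (X ∪ Z) → Disjoint X Z → X.Nonempty → Z.Nonempty →
  ∑ u ∈ un (pr Z), jacobiSym u (pr Z) * Nr X 13 u (pr Z) =
    ∑ T ∈ (range (pr X * pr Z)).filter (fun T => Odd T ∧ 7 ∣ T),
      ∑ a ∈ (pr X * pr Z - T).divisors.filter (2 ∣ ·), ∑ a' ∈ T.divisors.filter (7 ∣ ·),
        (∏ p ∈ X, w1 p a a' (T / a') ((pr X * pr Z - T) / a)) *
          ∑ u ∈ (un (pr Z)).filter (fun u : ℕ => (pr Z : ℤ) ∣ (a : ℤ) * (u : ℤ) - ((T / a' : ℕ) : ℤ) ∧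
            (pr Z : ℤ) ∣ (a' : ℤ) * (u : ℤ) + (((pr X * pr Z - T) / a : ℕ) : ℤ)), jacobiSym u (pr Z)

/-- C1B: the character sum over the cusps -/
def S_C1B : Prop := ∀ m d : ℕ, Squarefree m → Odd m → ∀ a a' x y : ℕ, a * y + a' * x = d * m →
  ∑ u ∈ (un m).filter (fun u : ℕ => (m : ℤ) ∣ (a : ℤ) * (u : ℤ) - (x : ℤ) ∧
    (m : ℤ) ∣ (a' : ℤ) * (u : ℤ) + (y : ℤ)), jacobiSym u m = ∏ p ∈ m.primeFactors, w2 p a a' x y

/-- the divisor sum -/
def WW (X Z : Finset ℕ) (T : ℕ) : ℤ :=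
  ∑ a ∈ (pr X * pr Z - T).divisors.filter (2 ∣ ·), ∑ a' ∈ T.divisors.filter (7 ∣ ·),
    (∏ p ∈ X, w1 p a a' (T / a') ((pr X * pr Z - T) / a)) *
      ∏ p ∈ Z, w2 p a a' (T / a') ((pr X * pr Z - T) / a)

/-- C1: the twisted sum of the counting function as a sum of divisor sums -/
def S_C1 : Prop := ∀ X Z : Finset ℕ, Pm (X ∪ Z) → Disjoint X Z → X.Nonempty → Z.Nonempty →
  K 3 (pr X * pr Z) →
  ∑ u ∈ un (pr Z), jacobiSym u (pr Z) * Fx X u (pr Z) =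
    2 * ∑ T ∈ (range (pr X * pr Z)).filter (fun T => Odd T ∧ 7 ∣ T), WW X Z T

/-- the weight at `p` of the inner product `N - 2 T` -/
def wp (p N T : ℕ) : ℤ :=
  if Even ((N - T).factorization p) then
    jacobiSym (((N - T) / p ^ (N - T).factorization p : ℕ) : ℤ) p
  else jacobiSym (((N - T) / p ^ (N - T).factorization p * (N / p) : ℕ) : ℤ) p

/-- C2: evaluation of the divisor sums -/
def S_C2 : Prop := ∀ X Z : Finset ℕ, Pm (X ∪ Z) → Disjoint X Z → K 3 (pr X * pr Z) →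
  ∀ T : ℕ, Odd T → 7 ∣ T → T < pr X * pr Z →
  WW X Z T = - jacobiSym (-1) (pr X) * (∏ p ∈ X, wp p (pr X * pr Z) T) *
    loc (pr X * pr Z) (4 * (pr X * pr Z - T) * T)

/-! ### the definite side -/

/-- VAN: the sums of the characters of an admissible set vanish -/
def S_VAN : Prop := ∀ N : Finset ℕ, Pm N → K 3 (pr N) → ∀ β : ZMod 7, β ^ 2 = -(pr N : ZMod 7) →
  ∀ P ⊆ N, P.Nonempty → (K 1 (pr P) ∨ K 7 (pr P)) →
  ∑ v ∈ (vec (pr N : ℤ)).filter fun v => Ln n0 β v, Ph P v = 0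

/-- WTV: the weights of the pairs of vectors -/
def S_WTV : Prop := ∀ N : Finset ℕ, Pm N → ∀ P ⊆ N, ∀ v ∈ vec (pr N : ℤ), ∀ w ∈ vec (pr N : ℤ),
  ∀ T : ℕ, T < pr N → v ⬝ᵥ w = (pr N : ℤ) - 2 * T → Ph P v * Ph P w = ∏ p ∈ P, wp p (pr N) T

/-- SQ: the square of the sum over the vectors -/
def S_SQ : Prop := ∀ X Z : Finset ℕ, Pm (X ∪ Z) → Disjoint X Z → X.Nonempty →
  K 3 (pr X * pr Z) → (K 1 (pr X) ∨ K 7 (pr X)) → ∀ β : ZMod 7,
  β ^ 2 = -((pr X * pr Z : ℕ) : ZMod 7) →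
  (Y 3 X ((pr X * pr Z : ℕ) : ℤ) β) ^ 2 =
    6 * ∑ T ∈ (range (pr X * pr Z)).filter (fun T => Odd T ∧ 7 ∣ T),
      (∏ p ∈ Z, wp p (pr X * pr Z) T) * loc (pr X * pr Z) (4 * (pr X * pr Z - T) * T)

/-- the product of all the weights -/
def S_WPN : Prop := ∀ N : Finset ℕ, Pm N → K 3 (pr N) → ∀ T : ℕ, Odd T → 7 ∣ T → T < pr N →
  loc (pr N) (4 * (pr N - T) * T) ≠ 0 → ∏ p ∈ N, wp p (pr N) T = -1

/-! ### the formula -/

/-- DIA: the twisted sum of the counting function is a square -/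
def S_DIA : Prop := ∀ X Z : Finset ℕ, Pm (X ∪ Z) → Disjoint X Z → X.Nonempty → Z.Nonempty →
  K 3 (pr X * pr Z) → (K 1 (pr X) ∨ K 7 (pr X)) → ∀ β : ZMod 7,
  β ^ 2 = -((pr X * pr Z : ℕ) : ZMod 7) →
  3 * ∑ u ∈ un (pr Z), jacobiSym u (pr Z) * Fx X u (pr Z) =
    jacobiSym (-1) (pr X) * (Y 3 X ((pr X * pr Z : ℕ) : ℤ) β) ^ 2 ∧
  3 * ∑ u ∈ un (pr X), jacobiSym u (pr X) * Fx Z u (pr X) =
    - jacobiSym (-1) (pr Z) * (Y 3 X ((pr X * pr Z : ℕ) : ℤ) β) ^ 2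

end

end Pool.Agent.NH2
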