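import Pool.Agent.NH2.Defs
import Pool.Agent.Y687.K2.Par
import Pool.Agent.Y687.N.SymM

/-!
# Project NH2: the twisted sums of the modular symbols
-/

set_option autoImplicit false

namespace Pool.Agent.NH2

open Finset
open Pool.Agent.Z700 (pr)
open Pool.Agent.NH1
open Pool.Agent.Y687 (SS Symb2)
open Pool.Agent.Y687.N (SymbM)

/-- CS: the even symbol -/
def S_CS : Prop := ∀ (s : ℚ → ℤ) (a : ℕ → ℤ), Symb2 s a → Coc (fun x M => s ((x : ℚ) / M)) ∧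
  (∀ x M : ℤ, s (((-x : ℤ) : ℚ) / M) = s ((x : ℚ) / M)) ∧ s (1 / 3) = -2 * s 0

/-- CM: the odd symbol -/
def S_CM : Prop := ∀ (s : ℚ → ℤ) (a : ℕ → ℤ), SymbM s a → Coc (fun x M => s ((x : ℚ) / M)) ∧
  (∀ x M : ℤ, s (((-x : ℤ) : ℚ) / M) = -s ((x : ℚ) / M)) ∧ s (2 / 15) = 0

/-- VI: the value for the numbers of the class `K 1` -/
def S_VI : Prop := ∀ (s : ℚ → ℤ) (a : ℕ → ℤ), Symb2 s a → a 5 = 0 → ∀ P : Finset ℕ, Pm P →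
  P.Nonempty → K 1 (pr P) → ∀ (σ : ZMod 7) (c : ℤ), σ ^ 2 = (pr P : ZMod 7) →
  (∀ (n : ℕ) (β : ZMod 7), 0 < n → (pr P * n) % 8 = 3 →
    Y 3 P ((pr P * n : ℕ) : ℤ) (σ * β) = c * G n β) →
  SS s (pr P) (pr P) = s 0 * c ^ 2

/-- VII: the value for the numbers of the class `K 5` -/
def S_VII : Prop := ∀ (s : ℚ → ℤ) (a : ℕ → ℤ), Symb2 s a → a 5 = 0 → ∀ N : Finset ℕ, Pm N →
  K 5 (pr N) → ∀ β : ZMod 7, β ^ 2 = -(pr N : ZMod 7) →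
  SS s (pr N) (pr N) = 2 * s 0 * G (pr N) β ^ 2

/-- VIII: the value for the numbers of the class `K 7` -/
def S_VIII : Prop := ∀ (s : ℚ → ℤ) (a : ℕ → ℤ), SymbM s a → ∀ P : Finset ℕ, Pm P →
  K 7 (pr P) → ∀ (σ : ZMod 7) (c : ℤ), σ ^ 2 = (pr P : ZMod 7) →
  (∀ (n : ℕ) (β : ZMod 7), 0 < n → (pr P * n) % 8 = 3 →
    Y 3 P ((pr P * n : ℕ) : ℤ) (σ * β) = c * G n β) →
  SS s (pr P) (pr P) = s (1 / 3) * c ^ 2

end Pool.Agent.NH2
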