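import Pool.Agent.NH2.Defs

/-!
# The product of all the weights, and the formula for the twisted sums
-/

set_option autoImplicit false

namespace Pool.Agent.NH2

open Finset Matrix
open Pool.Agent.Z700 (V3 vec pr cp cp7 Ln n0 ep loc un Fp)
open Pool.Agent.NH1

namespace Dia

lemma dt3 (v w : V3) : v ⬝ᵥ w = v 0 * w 0 + v 1 * w 1 + v 2 * w 2 := by
  simp [dotProduct, Fin.sum_univ_three]

lemma sq4 (x : ℤ) : (x % 2 = 0 ∧ x * x % 4 = 0) ∨ (x % 2 = 1 ∧ x * x % 4 = 1) := by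
  rcases Int.emod_two_eq_zero_or_one x with h | h
  · left
    refine ⟨h, ?_⟩
    obtain ⟨k, rfl⟩ : ∃ k, x = 2 * k := ⟨x / 2, by omega⟩
    have : 2 * k * (2 * k) = 4 * (k * k) := by ring
    rw [this]
    omega
  · right
    refine ⟨h, ?_⟩
    obtain ⟨k, rfl⟩ : ∃ k, x = 2 * k + 1 := ⟨x / 2, by omega⟩
    have : (2 * k + 1) * (2 * k + 1) = 4 * (k * k + k) + 1 := by ring
    rw [this]
    omega

lemma all_odd {v : V3} (h : (v ⬝ᵥ v) % 4 = 3) : v 0 % 2 = 1 ∧ v 1 % 2 = 1 ∧ v 2 % 2 = 1 := by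
  rw [dt3] at h
  have h0 := sq4 (v 0)
  have h1 := sq4 (v 1)
  have h2 := sq4 (v 2)
  omega

lemma odd4 {x : ℤ} (h : x % 2 = 1) : ∃ k : ℤ, x = 4 * k + 1 ∨ x = 4 * k - 1 := by
  rcases (by omega : x % 4 = 1 ∨ x % 4 = 3) with h | h
  · exact ⟨x / 4, Or.inl (by omega)⟩
  · exact ⟨x / 4 + 1, Or.inr (by omega)⟩

/-- odd numbers modulo four as signs -/
lemma sgn4 {x : ℤ} (h : x % 2 = 1) : ∃ s : ℤ, (s = 1 ∨ s = -1) ∧ (4 : ℤ) ∣ x - s := by
  obtain ⟨k, h | h⟩ := odd4 h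
  · exact ⟨1, Or.inl rfl, ⟨k, by rw [h]; ring⟩⟩
  · exact ⟨-1, Or.inr rfl, ⟨k, by rw [h]; ring⟩⟩

lemma ep_sgn {v : V3} {s : Fin 3 → ℤ} (hs : ∀ i, s i = 1 ∨ s i = -1)
    (h : ∀ i, (4 : ℤ) ∣ v i - s i) : ep v = s 0 * s 1 * s 2 := by
  have h1 : (4 : ℤ) ∣ v 0 * v 1 * v 2 - s 0 * s 1 * s 2 := by
    obtain ⟨a, ha⟩ := h 0
    obtain ⟨b, hb⟩ := h 1
    obtain ⟨c, hc⟩ := h 2
    have ha' : v 0 = 4 * a + s 0 := by linarith
    have hb' : v 1 = 4 * b + s 1 := by linarith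
    have hc' : v 2 = 4 * c + s 2 := by linarith
    rw [ha', hb', hc']
    refine ⟨a * (4 * b + s 1) * (4 * c + s 2) + s 0 * b * (4 * c + s 2) + s 0 * s 1 * c, ?_⟩
    ring
  unfold Pool.Agent.Z700.ep
  rcases hs 0 with e0 | e0 <;> rcases hs 1 with e1 | e1 <;> rcases hs 2 with e2 | e2 <;>
    rw [e0, e1, e2] at h1 ⊢ <;> norm_num at h1 ⊢ <;> omega

lemma ep_pair {v w : V3} (hv : v 0 % 2 = 1 ∧ v 1 % 2 = 1 ∧ v 2 % 2 = 1)
    (hw : w 0 % 2 = 1 ∧ w 1 % 2 = 1 ∧ w 2 % 2 = 1) (h : (v ⬝ᵥ w) % 4 = 1) :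
    ep v * ep w = -1 := by
  have hv' : ∀ i, v i % 2 = 1 := by
    intro i
    fin_cases i
    exacts [hv.1, hv.2.1, hv.2.2]
  have hw' : ∀ i, w i % 2 = 1 := by
    intro i
    fin_cases i
    exacts [hw.1, hw.2.1, hw.2.2]
  choose s hs hs' using fun i => sgn4 (hv' i)
  choose t ht ht' using fun i => sgn4 (hw' i)
  rw [ep_sgn hs hs', ep_sgn ht ht']
  rw [dt3] at h
  have h1 : ∀ i, (4 : ℤ) ∣ v i * w i - s i * t i := by
    intro i
    have e : v i * w i - s i * t i = (v i - s i) * w i + s i * (w i - t i) := by ring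
    rw [e]
    exact dvd_add (Dvd.dvd.mul_right (hs' i) _) (Dvd.dvd.mul_left (ht' i) _)
  have a0 := h1 0
  have a1 := h1 1
  have a2 := h1 2
  have b0 : s 0 * t 0 = 1 ∨ s 0 * t 0 = -1 := by
    rcases hs 0 with e | e <;> rcases ht 0 with e' | e' <;> rw [e, e'] <;> norm_num
  have b1 : s 1 * t 1 = 1 ∨ s 1 * t 1 = -1 := by
    rcases hs 1 with e | e <;> rcases ht 1 with e' | e' <;> rw [e, e'] <;> norm_num
  have b2 : s 2 * t 2 = 1 ∨ s 2 * t 2 = -1 := by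
    rcases hs 2 with e | e <;> rcases ht 2 with e' | e' <;> rw [e, e'] <;> norm_num
  have e : s 0 * s 1 * s 2 * (t 0 * t 1 * t 2) = (s 0 * t 0) * (s 1 * t 1) * (s 2 * t 2) := by
    ring
  rw [e]
  rcases b0 with b0 | b0 <;> rcases b1 with b1 | b1 <;> rcases b2 with b2 | b2 <;>
    rw [b0] at a0 ⊢ <;> rw [b1] at a1 ⊢ <;> rw [b2] at a2 ⊢ <;> norm_num <;> omega

lemma om3 {v : V3} (hv : v 0 % 2 = 1 ∧ v 1 % 2 = 1 ∧ v 2 % 2 = 1) : om 3 v = ep v := by
  unfold om ep0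
  rw [if_pos rfl, if_pos hv]

lemma pr_sqf {N : Finset ℕ} (hN : Pm N) : Squarefree (pr N) := by
  unfold Pool.Agent.Z700.pr
  refine Finset.squarefree_prod_of_pairwise_isCoprime ?_ fun p hp => (hN p hp).1.prime.squarefree
  intro p hp q hq hpq
  exact Nat.coprime_iff_isRelPrime.1 ((Nat.coprime_primes (hN p hp).1 (hN q hq).1).2 hpq)

lemma wp_val (p N T : ℕ) : wp p N T = 0 ∨ wp p N T = 1 ∨ wp p N T = -1 := by
  unfold wp
  split_ifs
  · exact jacobiSym.trichotomy _ _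
  · exact jacobiSym.trichotomy _ _

lemma prod_wp_pm {P : Finset ℕ} {N T : ℕ} : (∏ p ∈ P, wp p N T) = 0 ∨ (∏ p ∈ P, wp p N T) = 1 ∨
    (∏ p ∈ P, wp p N T) = -1 := by
  classical
  induction P using Finset.induction_on with
  | empty => right; left; simp
  | insert p P hp ih =>
    rw [Finset.prod_insert hp]
    rcases wp_val p N T with h | h | h <;> rcases ih with h' | h' | h' <;> rw [h, h'] <;> norm_num

end Dia

open Dia

theorem t_WPN (_h0 : S_PHI) (h1 : S_PROD) (h2 : S_WTV) (h3 : Pool.Agent.Y17.N.S_C7) : S_WPN := by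
  intro N hN hK T hT h7 hTN hloc
  obtain ⟨hK8, hK7⟩ := hK
  rw [if_neg (by norm_num)] at hK7
  obtain ⟨n, hn⟩ : ∃ n, n = pr N := ⟨_, rfl⟩
  rw [← hn] at hK8 hK7 hTN hloc ⊢
  obtain ⟨β, hβ⟩ : ∃ β : ZMod 7, β ^ 2 = -(n : ZMod 7) := by
    have h : (n : ZMod 7) = ((n % 7 : ℕ) : ZMod 7) := (ZMod.natCast_mod n 7).symm
    rcases hK7 with h' | h' | h' <;> rw [h, h']
    · exact ⟨2, by decide⟩
    · exact ⟨3, by decide⟩
    · exact ⟨1, by decide⟩
  have hβ0 : β ≠ 0 := by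
    rintro rfl
    have h : (n : ZMod 7) = ((n % 7 : ℕ) : ZMod 7) := (ZMod.natCast_mod n 7).symm
    rw [h] at hβ
    rcases hK7 with h' | h' | h' <;> rw [h'] at hβ <;> revert hβ <;> decide
  have hT1 : 1 ≤ T := hT.pos
  obtain ⟨t, ht⟩ := h7
  obtain ⟨T', hT'⟩ := hT
  obtain ⟨b, hb⟩ : ∃ b : ℤ, b = (n : ℤ) - 2 * T := ⟨_, rfl⟩
  have hbodd : Odd b := by
    rw [hb, Int.odd_sub]
    constructor
    · intro _; exact even_two_mul _
    · intro _; exact (Int.odd_iff.2 (by omega))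
  have hb7 : (b : ZMod 7) = -(β * β) := by
    have e : β * β = β ^ 2 := (sq β).symm
    rw [e, hβ, neg_neg, hb, ht]
    push_cast
    have : (7 : ZMod 7) = 0 := by decide
    rw [this]
    ring
  have hb2 : b ^ 2 < (n : ℤ) * n := by
    rw [hb]
    have h5 : (0 : ℤ) < T := by exact_mod_cast hT1
    have h6 : (T : ℤ) < n := by exact_mod_cast hTN
    nlinarith
  have hsq : Squarefree n := by rw [hn]; exact pr_sqf hN
  have hc := h3 n n hsq hK8 hK8 β β hβ0 hβ0 hβ hβ b hbodd hb7 hb2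
  have e1 : ((n : ℤ) * n - b ^ 2).toNat = 4 * (n - T) * T := by
    have h6 : T ≤ n := hTN.le
    have e : (n : ℤ) * n - b ^ 2 = ((4 * (n - T) * T : ℕ) : ℤ) := by
      rw [hb]
      push_cast [Nat.cast_sub h6]
      ring
    rw [e, Int.toNat_natCast]
  rw [e1] at hc
  have hcp : cp n b n ≠ 0 := by
    intro h
    have h' : cp7 n b n β β = 0 := by
      unfold Pool.Agent.Z700.cp Pool.Agent.Z700.cp7 at *
      rw [Finset.card_eq_zero, Finset.filter_eq_empty_iff] at h ⊢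
      intro x hx hx'
      exact h hx hx'.1
    rw [h, h'] at hc
    apply hloc
    simp at hc
    exact hc
  have hne : ((vec (n : ℤ) ×ˢ vec (n : ℤ)).filter fun q => q.1 ⬝ᵥ q.2 = b).Nonempty := by
    rw [← Finset.card_pos]
    exact Nat.pos_of_ne_zero hcp
  obtain ⟨⟨v, w⟩, hvw⟩ := hne
  rw [Finset.mem_filter, Finset.mem_product] at hvw
  obtain ⟨⟨hv, hw⟩, hvw⟩ := hvw
  simp only at hv hw hvw
  have hvv : v ⬝ᵥ v = n := by
    unfold Pool.Agent.Z700.vec at hv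
    exact (Finset.mem_filter.1 hv).2
  have hww : w ⬝ᵥ w = n := by
    unfold Pool.Agent.Z700.vec at hw
    exact (Finset.mem_filter.1 hw).2
  have hov := all_odd (v := v) (by rw [hvv]; omega)
  have how := all_odd (v := w) (by rw [hww]; omega)
  obtain ⟨C, hC, hCv⟩ := h1 N 3 (fun p hp => ⟨(hN p hp).1, (hN p hp).2.1⟩) (Or.inl rfl)
    (by rw [← hn]; exact hK8)
  rw [← hn] at hCv
  have h5 := h2 N hN N (Finset.Subset.refl N) v (by rw [← hn]; exact hv) w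
    (by rw [← hn]; exact hw) T (by rw [← hn]; exact hTN) (by rw [← hn, hvw, hb])
  rw [← hn] at h5
  rw [← h5, hCv v hv, hCv w hw, om3 hov, om3 how]
  have h6 := ep_pair hov how (by rw [hvw, hb]; omega)
  rcases hC with hC | hC <;> rw [hC]
  · rw [one_mul, one_mul, h6]
  · rw [neg_one_mul, neg_one_mul, neg_mul_neg, h6]

theorem t_DIA (h1 : S_C1) (h2 : S_C2) (h3 : S_SQ) (h4 : S_WPN) : S_DIA := by
  classical
  intro X Z hXZ hd hX hZ hK hKX β hβ
  have hsq := h3 X Z hXZ hd hX hK hKX β hβ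
  obtain ⟨n, hn⟩ : ∃ n, n = pr X * pr Z := ⟨_, rfl⟩
  have hn' : pr Z * pr X = n := by rw [hn, mul_comm]
  have hprU : pr (X ∪ Z) = n := by
    rw [hn]
    exact Finset.prod_union hd
  have hterm : ∀ T ∈ (range n).filter (fun T => Odd T ∧ 7 ∣ T),
      (∏ p ∈ X, wp p n T) * loc n (4 * (n - T) * T) =
        -((∏ p ∈ Z, wp p n T) * loc n (4 * (n - T) * T)) := by
    intro T hT
    rw [Finset.mem_filter, Finset.mem_range] at hT
    by_cases hl : loc n (4 * (n - T) * T) = 0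
    · rw [hl]; simp
    · have h5 := h4 (X ∪ Z) hXZ (by rw [hprU, hn]; exact hK) T hT.2.1 hT.2.2
        (by rw [hprU]; exact hT.1) (by rw [hprU]; exact hl)
      rw [hprU, Finset.prod_union hd] at h5
      have h6 : (∏ p ∈ X, wp p n T) = -(∏ p ∈ Z, wp p n T) := by
        rcases prod_wp_pm (P := X) (N := n) (T := T) with a | a | a <;>
          rcases prod_wp_pm (P := Z) (N := n) (T := T) with b | b | b <;>
          rw [a, b] at h5 ⊢ <;> omega
      rw [h6]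
      ring
  constructor
  · rw [h1 X Z hXZ hd hX hZ hK]
    have e1 : ∑ T ∈ (range (pr X * pr Z)).filter (fun T => Odd T ∧ 7 ∣ T), WW X Z T =
        jacobiSym (-1) (pr X) * ∑ T ∈ (range n).filter (fun T => Odd T ∧ 7 ∣ T),
          (∏ p ∈ Z, wp p n T) * loc n (4 * (n - T) * T) := by
      rw [Finset.mul_sum, ← hn]
      refine Finset.sum_congr rfl fun T hT => ?_
      have hT' := hT
      rw [Finset.mem_filter, Finset.mem_range] at hT'
      rw [h2 X Z hXZ hd hK T hT'.2.1 hT'.2.2 (by rw [← hn]; exact hT'.1), ← hn, mul_assoc,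
        hterm T hT]
      ring
    rw [e1]
    rw [← hn] at hsq
    rw [← hn, hsq]
    ring
  · have hd' : Disjoint Z X := hd.symm
    have hXZ' : Pm (Z ∪ X) := by rw [Finset.union_comm]; exact hXZ
    have hK' : K 3 (pr Z * pr X) := by rw [mul_comm]; exact hK
    rw [h1 Z X hXZ' hd' hZ hX hK']
    have e1 : ∑ T ∈ (range (pr Z * pr X)).filter (fun T => Odd T ∧ 7 ∣ T), WW Z X T =
        -jacobiSym (-1) (pr Z) * ∑ T ∈ (range n).filter (fun T => Odd T ∧ 7 ∣ T),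
          (∏ p ∈ Z, wp p n T) * loc n (4 * (n - T) * T) := by
      rw [Finset.mul_sum, hn']
      refine Finset.sum_congr rfl fun T hT => ?_
      rw [Finset.mem_filter, Finset.mem_range] at hT
      rw [h2 Z X hXZ' hd' hK' T hT.2.1 hT.2.2 (by rw [hn']; exact hT.1), hn', mul_assoc]
    rw [e1]
    rw [← hn] at hsq
    rw [← hn, hsq]
    ring

end Pool.Agent.NH2
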