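import Pool.Agent.NH2.Defs

/-!
# Project NH2: the value of the counting function at a parabolic element
-/

set_option autoImplicit false

namespace Pool.Agent.NH2

open Finset
open Pool.Agent.Z700 (pr)
open Pool.Agent.NH1

noncomputable section

namespace Parb

/-! ### the character sum -/

theorem exists_neg {X : Finset ℕ} (hX : Pm X) (hne : X.Nonempty) :
    ∃ u : ℤ, jacobiSym u (pr X) = -1 := by
  classical
  obtain ⟨p, hp⟩ := hne
  obtain ⟨hp1, hp2, -⟩ := hX p hp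
  have : Fact p.Prime := ⟨hp1⟩
  have hcop : Nat.Coprime p (∏ q ∈ X.erase p, q) := by
    apply Nat.Coprime.prod_right
    intro q hq
    rw [Finset.mem_erase] at hq
    exact (Nat.coprime_primes hp1 (hX q hq.2).1).2 (Ne.symm hq.1)
  have hpr : pr X = p * ∏ q ∈ X.erase p, q := by
    unfold pr
    rw [Finset.mul_prod_erase X (fun q => q) hp]
  obtain ⟨r, hr⟩ : ∃ r : ZMod p, ¬ IsSquare r := by
    have := FiniteField.exists_nonsquare (F := ZMod p) (by rw [ZMod.ringChar_zmod_n]; exact hp2)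
    exact this
  obtain ⟨u, hu1, hu2⟩ := Nat.chineseRemainder hcop r.val 1
  refine ⟨(u : ℤ), ?_⟩
  have : NeZero p := ⟨hp1.ne_zero⟩
  have hne0 : (∏ q ∈ X.erase p, q) ≠ 0 := by
    rw [Finset.prod_ne_zero_iff]
    intro q hq
    exact (hX q (Finset.mem_of_mem_erase hq)).1.ne_zero
  have : NeZero (∏ q ∈ X.erase p, q) := ⟨hne0⟩
  rw [hpr, jacobiSym.mul_right]
  have e1 : jacobiSym (u : ℤ) (∏ q ∈ X.erase p, q) = 1 := by
    rw [jacobiSym.mod_left]
    have h1 : ((u : ℤ) % ((∏ q ∈ X.erase p, q : ℕ) : ℤ)) = (1 : ℤ) % ((∏ q ∈ X.erase p, q : ℕ) : ℤ) := by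
      have := hu2
      unfold Nat.ModEq at this
      exact_mod_cast this
    rw [h1, ← jacobiSym.mod_left, jacobiSym.one_left]
  have e2 : jacobiSym (u : ℤ) p = -1 := by
    rw [← jacobiSym.legendreSym.to_jacobiSym]
    rw [legendreSym.eq_neg_one_iff]
    have h1 : ((u : ℤ) : ZMod p) = r := by
      have h2 := (ZMod.natCast_eq_natCast_iff u r.val p).2 hu1
      rw [ZMod.natCast_val, ZMod.cast_id', id] at h2
      rw [Int.cast_natCast, h2]
    rw [h1]
    exact hr
  rw [e1, e2]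
  norm_num

theorem sum_jac {X : Finset ℕ} (hX : Pm X) (hne : X.Nonempty) :
    ∑ c ∈ range (pr X), jacobiSym (2 * (c : ℤ) + 1) (pr X) = 0 := by
  obtain ⟨u, hu⟩ := exists_neg hX hne
  have hodd : Odd (pr X) := by
    unfold pr
    apply Finset.prod_induction _ Odd (fun a b => Odd.mul) odd_one
    intro p hp
    obtain ⟨h1, h2, -⟩ := hX p hp
    exact h1.odd_of_ne_two h2
  have hm0 : pr X ≠ 0 := by
    intro h; rw [h] at hodd; exact absurd hodd (by decide)
  set m := pr X with hm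
  have : NeZero m := ⟨hm0⟩
  set f : ZMod m → ℤ := fun x => jacobiSym (x.val : ℤ) m with hf
  have hfi : ∀ a : ℤ, f ((a : ℤ) : ZMod m) = jacobiSym a m := by
    intro a
    rw [hf]
    simp only
    rw [ZMod.val_intCast, ← jacobiSym.mod_left]
  have hsurj : ∀ x : ZMod m, ∃ a : ℤ, (a : ZMod m) = x := fun x => ZMod.intCast_surjective x
  have hmul : ∀ x : ZMod m, f ((u : ZMod m) * x) = - f x := by
    intro x
    obtain ⟨a, rfl⟩ := hsurj x
    rw [← Int.cast_mul, hfi, hfi, jacobiSym.mul_left, hu]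
    ring
  have hcopu : IsUnit (u : ZMod m) := by
    have h1 : u.gcd (m : ℤ) = 1 := by
      by_contra h2
      have h3 := jacobiSym.eq_zero_iff_not_coprime.2 h2
      rw [h3] at hu
      norm_num at hu
    have h2 : IsCoprime u (m : ℤ) := Int.isCoprime_iff_gcd_eq_one.2 h1
    obtain ⟨s, t, hst⟩ := h2
    refine IsUnit.of_mul_eq_one (s : ZMod m) ?_
    have := congrArg (fun z : ℤ => (z : ZMod m)) hst
    push_cast at this
    rw [ZMod.natCast_self, mul_zero, add_zero] at this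
    rw [mul_comm]; exact this
  have hcop2 : IsUnit (2 : ZMod m) := by
    have h1 : Nat.Coprime 2 m := (Nat.coprime_two_left).2 hodd
    have := (ZMod.isUnit_iff_coprime 2 m).2 h1
    simpa using this
  have hsum : ∑ x : ZMod m, f x = 0 := by
    have hb : Function.Bijective (fun x : ZMod m => (u : ZMod m) * x) :=
      Finite.injective_iff_bijective.1 hcopu.mul_right_injective
    have h1 : ∑ x : ZMod m, f ((u : ZMod m) * x) = ∑ x : ZMod m, f x := hb.sum_comp f
    rw [Finset.sum_congr rfl (fun x _ => hmul x), Finset.sum_neg_distrib] at h1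
    linarith
  have hb2 : Function.Bijective (fun x : ZMod m => (2 : ZMod m) * x + 1) := by
    apply Finite.injective_iff_bijective.1
    intro x y hxy
    simp only at hxy
    exact hcop2.mul_right_injective (add_right_cancel hxy)
  have h2 : ∑ x : ZMod m, f ((2 : ZMod m) * x + 1) = 0 := by
    rw [hb2.sum_comp f, hsum]
  rw [← h2]
  refine Finset.sum_nbij' (fun c => (c : ZMod m)) (fun x => x.val) ?_ ?_ ?_ ?_ ?_
  · intro c _
    exact Finset.mem_univ _
  · intro x _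
    rw [Finset.mem_range]
    exact ZMod.val_lt x
  · intro c hc
    rw [Finset.mem_range] at hc
    exact ZMod.val_cast_of_lt hc
  · intro x _
    exact ZMod.natCast_zmod_val x
  · intro c _
    have := hfi (2 * (c : ℤ) + 1)
    push_cast at this
    rw [this]

/-! ### the substitution -/

/-- substitution -/
def act (a b c d : ℤ) (q : ℤ × ℤ × ℤ) : ℤ × ℤ × ℤ :=
  (q.1 * a ^ 2 + q.2.1 * a * c + q.2.2 * c ^ 2,
   2 * q.1 * a * b + q.2.1 * (a * d + b * c) + 2 * q.2.2 * c * d,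
   q.1 * b ^ 2 + q.2.1 * b * d + q.2.2 * d ^ 2)

theorem ev_act (a b c d : ℤ) (q : ℤ × ℤ × ℤ) (x M : ℤ) :
    ev (act a b c d q) x M = ev q (a * x + b * M) (c * x + d * M) := by
  unfold ev act
  simp only
  ring

theorem act_inv {a b c d : ℤ} (h : a * d - b * c = 1) (q : ℤ × ℤ × ℤ) :
    act d (-b) (-c) a (act a b c d q) = q := by
  obtain ⟨A, B, C⟩ := q
  unfold act
  simp only [Prod.mk.injEq]
  refine ⟨?_, ?_, ?_⟩
  · linear_combination A * (a * d - b * c + 1) * h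
  · linear_combination B * (a * d - b * c + 1) * h
  · linear_combination C * (a * d - b * c + 1) * h

/-- the substitution as an equivalence -/
def eqv (a b c d : ℤ) (h : a * d - b * c = 1) : (ℤ × ℤ × ℤ) ≃ (ℤ × ℤ × ℤ) where
  toFun := act a b c d
  invFun := act d (-b) (-c) a
  left_inv := act_inv h
  right_inv := by
    intro q
    have h' : d * a - (-b) * (-c) = 1 := by linear_combination h
    have := act_inv h' q
    simpa only [neg_neg] using this

theorem Fm_act {X : Finset ℕ} {k a b c d : ℤ} (h : a * d - b * c = 1) (hc : (14 : ℤ) ∣ c)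
    {q : ℤ × ℤ × ℤ} (hq : Fm X k q) : Fm X k (act a b c d q) := by
  obtain ⟨A, B, C⟩ := q
  obtain ⟨c1, rfl⟩ := hc
  obtain ⟨h1, ⟨A1, h2⟩, ⟨B1, h3⟩⟩ := hq
  simp only at h1 h2 h3
  refine ⟨?_, ?_, ?_⟩
  · unfold act
    simp only
    linear_combination (a * d - b * (14 * c1)) ^ 2 * h1 +
      (pr X : ℤ) ^ 2 * (a * d - b * (14 * c1) + 1) * h
  · unfold act
    simp only
    exact ⟨A1 * a ^ 2 + B * a * c1 + C * c1 ^ 2 * 14, by rw [h2]; ring⟩
  · unfold act
    simp only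
    refine ⟨B1 + A1 * a * b + B * b * c1 + C * c1 * d, ?_⟩
    rw [h2]
    linear_combination B * h + h3

theorem Fm_act_iff {X : Finset ℕ} {k a b c d : ℤ} (h : a * d - b * c = 1) (hc : (14 : ℤ) ∣ c)
    {q : ℤ × ℤ × ℤ} : Fm X k (act a b c d q) ↔ Fm X k q := by
  refine ⟨fun hq => ?_, Fm_act h hc⟩
  have h' : d * a - (-b) * (-c) = 1 := by linear_combination h
  have h1 := Fm_act h' (hc.neg_right) hq
  rwa [act_inv h] at h1

/-! ### the genus character -/

theorem sym_eq {p : ℕ} (hp : p.Prime) (h2 : p ≠ 2) {u v w : ℤ} (h : (p : ℤ) ∣ 4 * u * v - w ^ 2)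
    (hu : ¬ (p : ℤ) ∣ u) (hv : ¬ (p : ℤ) ∣ v) : jacobiSym u p = jacobiSym v p := by
  have hpi : Prime (p : ℤ) := Nat.prime_iff_prime_int.1 hp
  have : Fact p.Prime := ⟨hp⟩
  have h22 : ¬ (p : ℤ) ∣ 2 := by
    intro h3
    have : p ∣ 2 := by exact_mod_cast h3
    exact h2 ((Nat.prime_dvd_prime_iff_eq hp Nat.prime_two).1 this)
  have hw : ¬ (p : ℤ) ∣ w := by
    intro h3
    have h4 : (p : ℤ) ∣ 4 * u * v := by
      have h5 : (p : ℤ) ∣ w ^ 2 := dvd_pow h3 (by norm_num)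
      have := dvd_add h h5
      simpa using this
    rcases hpi.dvd_mul.1 h4 with h5 | h5
    · rcases hpi.dvd_mul.1 h5 with h6 | h6
      · have : (4 : ℤ) = 2 * 2 := by norm_num
        rw [this] at h6
        rcases hpi.dvd_mul.1 h6 with h7 | h7 <;> exact h22 h7
      · exact hu h6
    · exact hv h5
  have hcop : ∀ z : ℤ, ¬ (p : ℤ) ∣ z → z.gcd p = 1 := by
    intro z hz
    rw [Int.gcd_comm]
    exact Int.isCoprime_iff_gcd_eq_one.1 ((hpi.coprime_iff_not_dvd).2 hz)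
  have h3 : jacobiSym (4 * u * v) p = jacobiSym (w ^ 2) p := by
    rw [jacobiSym.mod_left (4 * u * v), jacobiSym.mod_left (w ^ 2)]
    congr 1
    exact Int.emod_eq_emod_iff_emod_sub_eq_zero.2 (Int.emod_eq_zero_of_dvd h)
  have h4 : jacobiSym (4 : ℤ) p = 1 := by
    have : (4 : ℤ) = 2 ^ 2 := by norm_num
    rw [this]
    exact jacobiSym.sq_one' (hcop 2 h22)
  rw [jacobiSym.mul_left, jacobiSym.mul_left, h4, one_mul, jacobiSym.sq_one' (hcop w hw)] at h3
  have h5 := jacobiSym.sq_one (hcop v hv)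
  calc jacobiSym u p = jacobiSym u p * jacobiSym v p ^ 2 := by rw [h5, mul_one]
    _ = (jacobiSym u p * jacobiSym v p) * jacobiSym v p := by ring
    _ = jacobiSym v p := by rw [h3, one_mul]

/-- the local symbol of a form -/
def lo (p : ℕ) (A C : ℤ) : ℤ := if (p : ℤ) ∣ A then jacobiSym C p else jacobiSym A p

theorem lo_act {p : ℕ} (hp : p.Prime) (h2 : p ≠ 2) {a b c d A B C : ℤ} (h : a * d - b * c = 1)
    (hd : (p : ℤ) ∣ B ^ 2 - 4 * A * C) :
    lo p (A * a ^ 2 + B * a * c + C * c ^ 2) (A * b ^ 2 + B * b * d + C * d ^ 2) = lo p A C := by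
  have hpi : Prime (p : ℤ) := Nat.prime_iff_prime_int.1 hp
  have h22 : ¬ (p : ℤ) ∣ 2 := by
    intro h3
    have : p ∣ 2 := by exact_mod_cast h3
    exact h2 ((Nat.prime_dvd_prime_iff_eq hp Nat.prime_two).1 this)
  set A' := A * a ^ 2 + B * a * c + C * c ^ 2 with hA'
  set C' := A * b ^ 2 + B * b * d + C * d ^ 2 with hC'
  have i1 : (p : ℤ) ∣ 4 * A' * A - (2 * A * a + B * c) ^ 2 := by
    have : 4 * A' * A - (2 * A * a + B * c) ^ 2 = -(B ^ 2 - 4 * A * C) * c ^ 2 := by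
      rw [hA']; ring
    rw [this]
    exact (dvd_neg.2 hd).mul_right _
  have i2 : (p : ℤ) ∣ 4 * C' * A - (2 * A * b + B * d) ^ 2 := by
    have : 4 * C' * A - (2 * A * b + B * d) ^ 2 = -(B ^ 2 - 4 * A * C) * d ^ 2 := by
      rw [hC']; ring
    rw [this]
    exact (dvd_neg.2 hd).mul_right _
  have i3 : (p : ℤ) ∣ 4 * A' * C - (B * a + 2 * C * c) ^ 2 := by
    have : 4 * A' * C - (B * a + 2 * C * c) ^ 2 = -(B ^ 2 - 4 * A * C) * a ^ 2 := by
      rw [hA']; ring
    rw [this]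
    exact (dvd_neg.2 hd).mul_right _
  have i4 : (p : ℤ) ∣ 4 * C' * C - (B * b + 2 * C * d) ^ 2 := by
    have : 4 * C' * C - (B * b + 2 * C * d) ^ 2 = -(B ^ 2 - 4 * A * C) * b ^ 2 := by
      rw [hC']; ring
    rw [this]
    exact (dvd_neg.2 hd).mul_right _
  have hz : ∀ z : ℤ, (p : ℤ) ∣ z → jacobiSym z p = 0 := by
    intro z hz
    have : NeZero p := ⟨hp.ne_zero⟩
    rw [jacobiSym.eq_zero_iff_not_coprime]
    intro h3
    have h4 : (p : ℤ) ∣ (z.gcd p : ℤ) := Int.dvd_coe_gcd hz (dvd_refl _)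
    rw [h3] at h4
    exact hpi.not_dvd_one (by exact_mod_cast h4)
  unfold lo
  by_cases hA : (p : ℤ) ∣ A
  · rw [if_pos hA]
    have hB : (p : ℤ) ∣ B := by
      have h3 : (p : ℤ) ∣ B ^ 2 := by
        have h4 : (p : ℤ) ∣ 4 * A * C := (hA.mul_left 4).mul_right C
        have := dvd_add hd h4
        simpa using this
      exact hpi.dvd_of_dvd_pow h3
    by_cases hAA : (p : ℤ) ∣ A'
    · rw [if_pos hAA]
      by_cases hC : (p : ℤ) ∣ C
      · have h3 : (p : ℤ) ∣ C' := by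
          rw [hC']
          exact dvd_add (dvd_add (hA.mul_right _) ((hB.mul_right _).mul_right _)) (hC.mul_right _)
        rw [hz _ h3, hz _ hC]
      · have hc : (p : ℤ) ∣ c := by
          have h3 : (p : ℤ) ∣ C * c ^ 2 := by
            have h4 : C * c ^ 2 = A' - (A * a ^ 2 + B * a * c) := by rw [hA']; ring
            rw [h4]
            exact dvd_sub hAA (dvd_add (hA.mul_right _) ((hB.mul_right _).mul_right _))
          rcases hpi.dvd_mul.1 h3 with h4 | h4
          · exact absurd h4 hC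
          · exact hpi.dvd_of_dvd_pow h4
        have hdd : ¬ (p : ℤ) ∣ d := by
          intro h3
          apply hpi.not_dvd_one
          rw [← h]
          exact dvd_sub (h3.mul_left _) (hc.mul_left _)
        have h3 : ¬ (p : ℤ) ∣ C' := by
          intro h3
          have h4 : (p : ℤ) ∣ C * d ^ 2 := by
            have h4 : C * d ^ 2 = C' - (A * b ^ 2 + B * b * d) := by rw [hC']; ring
            rw [h4]
            exact dvd_sub h3 (dvd_add (hA.mul_right _) ((hB.mul_right _).mul_right _))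
          rcases hpi.dvd_mul.1 h4 with h4 | h4
          · exact hC h4
          · exact hdd (hpi.dvd_of_dvd_pow h4)
        exact sym_eq hp h2 i4 h3 hC
    · rw [if_neg hAA]
      have hC : ¬ (p : ℤ) ∣ C := by
        intro h3
        apply hAA
        rw [hA']
        exact dvd_add (dvd_add (hA.mul_right _) ((hB.mul_right _).mul_right _)) (h3.mul_right _)
      exact sym_eq hp h2 i3 hAA hC
  · rw [if_neg hA]
    by_cases hAA : (p : ℤ) ∣ A'
    · rw [if_pos hAA]
      have h3 : ¬ (p : ℤ) ∣ C' := by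
        intro h3
        have j1 : (p : ℤ) ∣ 2 * A * a + B * c := by
          apply hpi.dvd_of_dvd_pow (n := 2)
          have := dvd_sub ((hAA.mul_left 4).mul_right A) i1
          simpa using this
        have j2 : (p : ℤ) ∣ 2 * A * b + B * d := by
          apply hpi.dvd_of_dvd_pow (n := 2)
          have := dvd_sub ((h3.mul_left 4).mul_right A) i2
          simpa using this
        have j3 : (p : ℤ) ∣ 2 * A := by
          have h4 : 2 * A = (2 * A * a + B * c) * d - (2 * A * b + B * d) * c := by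
            linear_combination (-2 * A) * h
          rw [h4]
          exact dvd_sub (j1.mul_right _) (j2.mul_right _)
        rcases hpi.dvd_mul.1 j3 with h4 | h4
        · exact h22 h4
        · exact hA h4
      exact sym_eq hp h2 i2 h3 hA
    · rw [if_neg hAA]
      exact sym_eq hp h2 i1 hAA hA

theorem cx_eq_lo (X : Finset ℕ) (q : ℤ × ℤ × ℤ) : cx X q = ∏ p ∈ X, lo p q.1 q.2.2 := rfl

theorem dvd_pr {X : Finset ℕ} {p : ℕ} (hp : p ∈ X) : (p : ℤ) ∣ (pr X : ℤ) := by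
  have : p ∣ pr X := Finset.dvd_prod_of_mem (fun q => q) hp
  exact_mod_cast this

theorem cx_act {X : Finset ℕ} (hX : Pm X) {k a b c d : ℤ} (h : a * d - b * c = 1)
    {q : ℤ × ℤ × ℤ} (hq : Fm X k q) : cx X (act a b c d q) = cx X q := by
  rw [cx_eq_lo, cx_eq_lo]
  apply Finset.prod_congr rfl
  intro p hp
  obtain ⟨h1, h2, -⟩ := hX p hp
  apply lo_act h1 h2 h
  rw [hq.1]
  exact dvd_pow (dvd_pr hp) (by norm_num)

theorem prod_jac {X : Finset ℕ} (hX : ∀ p ∈ X, p ≠ 0) (a : ℤ) :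
    ∏ p ∈ X, jacobiSym a p = jacobiSym a (pr X) := by
  classical
  unfold pr
  induction X using Finset.induction with
  | empty => simp
  | insert p s hp ih =>
    rw [Finset.prod_insert hp, Finset.prod_insert hp, ih (fun q hq => hX q (mem_insert_of_mem hq)),
      jacobiSym.mul_right' a (hX p (mem_insert_self p s))]
    exact Finset.prod_ne_zero_iff.2 (fun q hq => hX q (mem_insert_of_mem hq))

theorem pm_ne {X : Finset ℕ} (hX : Pm X) : ∀ p ∈ X, p ≠ 0 := fun p hp => (hX p hp).1.ne_zero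

theorem jac_m1 {m : ℕ} (hm : m % 4 = 1) : jacobiSym (-1) m = 1 := by
  rw [jacobiSym.at_neg_one (Nat.odd_iff.2 (by omega))]
  exact ZMod.χ₄_nat_one_mod_four hm

theorem cx_neg {X : Finset ℕ} (hX : Pm X) (hm : pr X % 4 = 1) (q : ℤ × ℤ × ℤ) :
    cx X (-q) = cx X q := by
  have h1 : ∀ p ∈ X, lo p (-q.1) (-q.2.2) = jacobiSym (-1) p * lo p q.1 q.2.2 := by
    intro p _
    have h2 : ∀ z : ℤ, jacobiSym (-z) p = jacobiSym (-1) p * jacobiSym z p := by
      intro z
      rw [← jacobiSym.mul_left]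
      congr 1
      ring
    unfold lo
    by_cases h : (p : ℤ) ∣ q.1
    · rw [if_pos h, if_pos ((dvd_neg).2 h), h2]
    · rw [if_neg h, if_neg (fun h3 => h ((dvd_neg).1 h3)), h2]
  have h3 : cx X (-q) = ∏ p ∈ X, lo p (-q.1) (-q.2.2) := rfl
  rw [h3, Finset.prod_congr rfl h1, Finset.prod_mul_distrib, cx_eq_lo, prod_jac (pm_ne hX),
    jac_m1 hm, one_mul]

/-! ### the signs -/

open Classical in
/-- the difference of the signs at two points -/
def T (X : Finset ℕ) (x M y N : ℤ) (q : ℤ × ℤ × ℤ) : ℤ :=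
  if Fm X 13 q then cx X q * (Int.sign (ev q x M) - Int.sign (ev q y N)) else 0

theorem T_act {X : Finset ℕ} (hX : Pm X) {a b c d : ℤ} (h : a * d - b * c = 1)
    (hc : (14 : ℤ) ∣ c) (x M y N : ℤ) (q : ℤ × ℤ × ℤ) :
    T X (a * x + b * M) (c * x + d * M) (a * y + b * N) (c * y + d * N) q =
      T X x M y N (act a b c d q) := by
  unfold T
  by_cases hq : Fm X 13 q
  · rw [if_pos hq, if_pos (Fm_act h hc hq), cx_act hX h hq, ev_act, ev_act]
  · rw [if_neg hq, if_neg (fun h1 => hq ((Fm_act_iff h hc).1 h1))]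

theorem T_add (X : Finset ℕ) (x M y N z L : ℤ) (q : ℤ × ℤ × ℤ) :
    T X x M z L q = T X x M y N q + T X y N z L q := by
  unfold T
  split_ifs
  · ring
  · ring

theorem pr_odd {X : Finset ℕ} (hX : Pm X) : ((pr X : ℕ) : ℤ) % 2 = 1 := by
  have hodd : Odd (pr X) := by
    unfold pr
    apply Finset.prod_induction _ Odd (fun a b => Odd.mul) odd_one
    intro p hp
    obtain ⟨h1, h2, -⟩ := hX p hp
    exact h1.odd_of_ne_two h2
  rw [Nat.odd_iff] at hodd
  omega

theorem pr_7 {X : Finset ℕ} (hX : Pm X) : ((pr X : ℕ) : ℤ) % 7 ≠ 0 := by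
  intro h
  have h1 : 7 ∣ pr X := by omega
  unfold pr at h1
  rw [(Nat.prime_iff.1 (by norm_num : Nat.Prime 7)).dvd_finsetProd_iff] at h1
  obtain ⟨p, hp, h2⟩ := h1
  obtain ⟨h3, -, h4⟩ := hX p hp
  exact h4 ((Nat.prime_dvd_prime_iff_eq (by norm_num) h3).1 h2).symm

theorem A_ne {X : Finset ℕ} (hX : Pm X) {q : ℤ × ℤ × ℤ} (hq : Fm X 13 q) : q.1 ≠ 0 := by
  intro h0
  obtain ⟨h1, -, h3⟩ := hq
  have i1 := pr_odd hX
  have i2 := pr_7 hX
  rw [h0] at h1
  have h4 : (q.2.1 - pr X) * (q.2.1 + pr X) = 0 := by linear_combination h1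
  rcases mul_eq_zero.1 h4 with h5 | h5 <;> omega

theorem C_ne {X : Finset ℕ} (hX : Pm X) {q : ℤ × ℤ × ℤ} (hq : Fm X 13 q) : q.2.2 ≠ 0 := by
  intro h0
  obtain ⟨h1, -, h3⟩ := hq
  have i1 := pr_odd hX
  have i2 := pr_7 hX
  rw [h0] at h1
  have h4 : (q.2.1 - pr X) * (q.2.1 + pr X) = 0 := by linear_combination h1
  rcases mul_eq_zero.1 h4 with h5 | h5 <;> omega

theorem ev10 (q : ℤ × ℤ × ℤ) : ev q 1 0 = q.1 := by
  unfold ev; ring

theorem ev01 (q : ℤ × ℤ × ℤ) : ev q 0 1 = q.2.2 := by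
  unfold ev; ring

theorem hγ : (-13 : ℤ) * 15 - 2 * (-98) = 1 := by norm_num

theorem hγ' : (14 : ℤ) ∣ -98 := ⟨-7, by norm_num⟩

theorem ev215 {X : Finset ℕ} (hX : Pm X) {q : ℤ × ℤ × ℤ} (hq : Fm X 13 q) : ev q 2 15 ≠ 0 := by
  have h1 := C_ne hX (Fm_act hγ hγ' hq)
  rw [← ev01, ev_act] at h1
  norm_num at h1
  exact h1

/-! ### finiteness -/

theorem fin_pair (D x M y N : ℤ) (hΔ : x * N - y * M ≠ 0) :
    {q : ℤ × ℤ × ℤ | q.2.1 ^ 2 - 4 * q.1 * q.2.2 = D ∧ ev q x M * ev q y N < 0}.Finite := by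
  set Φ : ℤ × ℤ × ℤ → ℤ × ℤ × ℤ := fun q =>
    (ev q x M, 2 * q.1 * x * y + q.2.1 * (x * N + y * M) + 2 * q.2.2 * M * N, ev q y N) with hΦ
  set K : ℤ := |D * (x * N - y * M) ^ 2| with hK
  have hinj : Function.Injective Φ := by
    rintro ⟨A, B, C⟩ ⟨A', B', C'⟩ h
    rw [hΦ] at h
    simp only [Prod.mk.injEq] at h
    obtain ⟨h1, h2, h3⟩ := h
    unfold ev at h1 h3
    simp only at h1 h3
    have hΔ2 : (x * N - y * M) ^ 2 ≠ 0 := pow_ne_zero _ hΔ
    have e1 : (x * N - y * M) ^ 2 * (A - A') = 0 := by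
      linear_combination N ^ 2 * h1 - M * N * h2 + M ^ 2 * h3
    have e2 : (x * N - y * M) ^ 2 * (B - B') = 0 := by
      linear_combination (-2 * N * y) * h1 + (N * x + M * y) * h2 + (-2 * M * x) * h3
    have e3 : (x * N - y * M) ^ 2 * (C - C') = 0 := by
      linear_combination y ^ 2 * h1 - x * y * h2 + x ^ 2 * h3
    have f1 := (mul_eq_zero.1 e1).resolve_left hΔ2
    have f2 := (mul_eq_zero.1 e2).resolve_left hΔ2
    have f3 := (mul_eq_zero.1 e3).resolve_left hΔ2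
    simp only [Prod.mk.injEq]
    exact ⟨by linarith, by linarith, by linarith⟩
  refine (((Set.finite_Icc (-K) K).prod ((Set.finite_Icc (-K) K).prod
      (Set.finite_Icc (-K) K))).preimage hinj.injOn).subset ?_
  rintro q ⟨h1, h2⟩
  have h3 : (2 * q.1 * x * y + q.2.1 * (x * N + y * M) + 2 * q.2.2 * M * N) ^ 2 -
      4 * (ev q x M * ev q y N) = D * (x * N - y * M) ^ 2 := by
    unfold ev
    linear_combination (x * N - y * M) ^ 2 * h1
  set P := ev q x M with hP
  set R := ev q y N with hR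
  set S := 2 * q.1 * x * y + q.2.1 * (x * N + y * M) + 2 * q.2.2 * M * N with hS
  have h4 : S ^ 2 + 4 * (-(P * R)) ≤ K := by
    rw [hK]
    refine le_trans (le_of_eq ?_) (le_abs_self _)
    rw [← h3]; ring
  have h5 : |P| * |R| = -(P * R) := by rw [← abs_mul, abs_of_neg h2]
  have hP0 : P ≠ 0 := by rintro h; rw [h, zero_mul] at h2; exact lt_irrefl _ h2
  have hR0 : R ≠ 0 := by rintro h; rw [h, mul_zero] at h2; exact lt_irrefl _ h2
  have hP1 : 1 ≤ |P| := Int.one_le_abs hP0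
  have hR1 : 1 ≤ |R| := Int.one_le_abs hR0
  have hS2 : |S| ≤ S ^ 2 := by
    rw [← sq_abs]
    rcases (abs_nonneg S).eq_or_lt with h | h
    · rw [← h]; norm_num
    · have : 1 ≤ |S| := h
      nlinarith
  have g1 : |P| ≤ K := by nlinarith [sq_nonneg S]
  have g3 : |R| ≤ K := by nlinarith [sq_nonneg S]
  have g2 : |S| ≤ K := by nlinarith
  exact ⟨abs_le.1 g1, abs_le.1 g2, abs_le.1 g3⟩

theorem T_supp {X : Finset ℕ} {x M y N : ℤ} {q : ℤ × ℤ × ℤ} (h : T X x M y N q ≠ 0)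
    (h1 : Fm X 13 q → ev q x M ≠ 0) (h2 : Fm X 13 q → ev q y N ≠ 0) :
    q.2.1 ^ 2 - 4 * q.1 * q.2.2 = (pr X : ℤ) ^ 2 ∧ ev q x M * ev q y N < 0 := by
  unfold T at h
  by_cases hq : Fm X 13 q
  · rw [if_pos hq] at h
    refine ⟨hq.1, ?_⟩
    have h3 := h1 hq
    have h4 := h2 hq
    have h5 : Int.sign (ev q x M) ≠ Int.sign (ev q y N) := by
      intro h6
      rw [h6, sub_self, mul_zero] at h
      exact h rfl
    rcases lt_or_gt_of_ne h3 with h6 | h6 <;> rcases lt_or_gt_of_ne h4 with h7 | h7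
    · exact absurd (by rw [Int.sign_eq_neg_one_of_neg h6, Int.sign_eq_neg_one_of_neg h7]) h5
    · exact mul_neg_of_neg_of_pos h6 h7
    · exact mul_neg_of_pos_of_neg h6 h7
    · exact absurd (by rw [Int.sign_eq_one_of_pos h6, Int.sign_eq_one_of_pos h7]) h5
  · rw [if_neg hq] at h
    exact absurd rfl h

theorem fin_T {X : Finset ℕ} {x M y N : ℤ} (hΔ : x * N - y * M ≠ 0)
    (h1 : ∀ q, Fm X 13 q → ev q x M ≠ 0) (h2 : ∀ q, Fm X 13 q → ev q y N ≠ 0) :
    (Function.support (T X x M y N)).Finite := by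
  refine (fin_pair ((pr X : ℤ) ^ 2) x M y N hΔ).subset ?_
  intro q hq
  exact T_supp hq (h1 q) (h2 q)

/-! ### the counting function as a sum of signs -/

theorem Fm_neg (X : Finset ℕ) (q : ℤ × ℤ × ℤ) : Fm X 15 (-q) ↔ Fm X 13 q := by
  obtain ⟨A, B, C⟩ := q
  unfold Fm
  simp only [Prod.fst_neg, Prod.snd_neg]
  constructor
  · rintro ⟨h1, h2, h3⟩
    refine ⟨by linear_combination h1, (dvd_neg).1 h2, ?_⟩
    obtain ⟨k, hk⟩ := h3
    exact ⟨-k - pr X, by linear_combination -hk⟩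
  · rintro ⟨h1, h2, h3⟩
    refine ⟨by linear_combination h1, (dvd_neg).2 h2, ?_⟩
    obtain ⟨k, hk⟩ := h3
    exact ⟨-k - pr X, by linear_combination -hk⟩

theorem ev_neg (q : ℤ × ℤ × ℤ) (x M : ℤ) : ev (-q) x M = - ev q x M := by
  unfold ev
  simp only [Prod.fst_neg, Prod.snd_neg]
  ring

open Classical in
/-- the summands -/
def fk (X : Finset ℕ) (k : ℤ) (x M : ℤ) (q : ℤ × ℤ × ℤ) : ℤ :=
  if Fm X k q ∧ 0 < q.1 ∧ ev q x M < 0 then cx X q else 0

theorem T_split {X : Finset ℕ} (hX : Pm X) (hm : pr X % 4 = 1) {x M : ℤ} {q : ℤ × ℤ × ℤ}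
    (hNV : Fm X 13 q → ev q x M ≠ 0) :
    T X 1 0 x M q = 2 * fk X 13 x M q + (-2) * fk X 15 x M (-q) := by
  unfold T fk
  rw [ev_neg, cx_neg hX hm, ev10]
  simp only [Prod.fst_neg]
  by_cases hq : Fm X 13 q
  · rw [if_pos hq]
    have h2 := A_ne hX hq
    have h3 := hNV hq
    have hq' := (Fm_neg X q).2 hq
    rcases lt_or_gt_of_ne h2 with h4 | h4
    · have n1 : ¬ (Fm X 13 q ∧ 0 < q.1 ∧ ev q x M < 0) := fun h => by linarith [h.2.1]
      rw [if_neg n1, Int.sign_eq_neg_one_of_neg h4]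
      rcases lt_or_gt_of_ne h3 with h5 | h5
      · have n2 : ¬ (Fm X 15 (-q) ∧ 0 < -q.1 ∧ -ev q x M < 0) := fun h => by linarith [h.2.2]
        rw [if_neg n2, Int.sign_eq_neg_one_of_neg h5]
        ring
      · have n2 : (Fm X 15 (-q) ∧ 0 < -q.1 ∧ -ev q x M < 0) := ⟨hq', by linarith, by linarith⟩
        rw [if_pos n2, Int.sign_eq_one_of_pos h5]
        ring
    · have n2 : ¬ (Fm X 15 (-q) ∧ 0 < -q.1 ∧ -ev q x M < 0) := fun h => by linarith [h.2.1]
      rw [if_neg n2, Int.sign_eq_one_of_pos h4]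
      rcases lt_or_gt_of_ne h3 with h5 | h5
      · have n1 : (Fm X 13 q ∧ 0 < q.1 ∧ ev q x M < 0) := ⟨hq, h4, h5⟩
        rw [if_pos n1, Int.sign_eq_neg_one_of_neg h5]
        ring
      · have n1 : ¬ (Fm X 13 q ∧ 0 < q.1 ∧ ev q x M < 0) := fun h => by linarith [h.2.2]
        rw [if_neg n1, Int.sign_eq_one_of_pos h5]
        ring
  · have n1 : ¬ (Fm X 13 q ∧ 0 < q.1 ∧ ev q x M < 0) := fun h => hq h.1
    have n2 : ¬ (Fm X 15 (-q) ∧ 0 < -q.1 ∧ -ev q x M < 0) := fun h => hq ((Fm_neg X q).1 h.1)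
    rw [if_neg hq, if_neg n1, if_neg n2]
    ring

theorem fin_fk (X : Finset ℕ) (k : ℤ) {x M : ℤ} (hM : M ≠ 0) :
    (Function.support (fk X k x M)).Finite := by
  refine (fin_pair ((pr X : ℤ) ^ 2) 1 0 x M (by simpa using hM)).subset ?_
  intro q hq
  have h1 : Fm X k q ∧ 0 < q.1 ∧ ev q x M < 0 := by
    by_contra h2
    apply hq
    unfold fk
    rw [if_neg h2]
  refine ⟨h1.1.1, ?_⟩
  rw [ev10]
  exact mul_neg_of_pos_of_neg h1.2.1 h1.2.2

theorem Fx_eq {X : Finset ℕ} (hX : Pm X) (hm : pr X % 4 = 1) {x M : ℤ} (hM : M ≠ 0)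
    (hNV : ∀ q, Fm X 13 q → ev q x M ≠ 0) : ∑ᶠ q, T X 1 0 x M q = 2 * Fx X x M := by
  have h2 : ∑ᶠ q, fk X 15 x M (-q) = ∑ᶠ q, fk X 15 x M q :=
    finsum_comp_equiv (Equiv.neg (ℤ × ℤ × ℤ)) (f := fk X 15 x M)
  have hf : (Function.support (fun q => fk X 15 x M (-q))).Finite :=
    (fin_fk X 15 hM).preimage ((neg_injective (G := ℤ × ℤ × ℤ)).injOn)
  have h3 : ∑ᶠ q, T X 1 0 x M q = 2 * (∑ᶠ q, fk X 13 x M q) +
      (-2) * (∑ᶠ q, fk X 15 x M (-q)) := by
    rw [finsum_congr (fun q => T_split hX hm (hNV q)), finsum_add_distrib, mul_finsum, mul_finsum]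
    · exact (fin_fk X 13 hM).subset (Function.support_mul_subset_right _ _)
    · exact hf.subset (Function.support_mul_subset_right _ _)
  have h4 : Fx X x M = ∑ᶠ q, fk X 13 x M q - jacobiSym (-1) (pr X) * ∑ᶠ q, fk X 15 x M q := rfl
  rw [h3, h2, h4, jac_m1 hm]
  ring

/-! ### the forms with a root at `1 / 7` -/

open Classical in
/-- the part of the sum with a root at `1 / 7` -/
def U (X : Finset ℕ) (q : ℤ × ℤ × ℤ) : ℤ := if ev q 1 7 = 0 then T X 0 1 2 15 q else 0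

open Classical in
/-- the part of the sum without a root at `1 / 7` -/
def V (X : Finset ℕ) (q : ℤ × ℤ × ℤ) : ℤ := if ev q 1 7 = 0 then 0 else T X 0 1 1 7 q

/-- the forms with a root at `1 / 7` -/
def g (m C : ℤ) : ℤ × ℤ × ℤ := (7 * m + 49 * C, -m - 14 * C, C)

theorem T_UV {X : Finset ℕ} (hX : Pm X) (q : ℤ × ℤ × ℤ) :
    T X 0 1 2 15 q = V X q + (- V X (eqv (-13) 2 (-98) 15 hγ q) + U X q) := by
  have h0 : (eqv (-13) 2 (-98) 15 hγ q) = act (-13) 2 (-98) 15 q := rfl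
  have h1 : ev (act (-13) 2 (-98) 15 q) 1 7 = ev q 1 7 := by
    rw [ev_act]; norm_num
  have h2 := T_act hX hγ hγ' 0 1 1 7 q
  norm_num at h2
  unfold U V
  rw [h0, h1]
  by_cases h : ev q 1 7 = 0
  · rw [if_pos h, if_pos h, if_pos h]
    ring
  · rw [if_neg h, if_neg h, if_neg h, ← h2, T_add X 0 1 1 7 2 15 q]
    have h3 : T X 1 7 2 15 q = - T X 2 15 1 7 q := by
      unfold T
      split_ifs
      · ring
      · ring
    rw [h3]
    ring

theorem fin_V {X : Finset ℕ} (hX : Pm X) : (Function.support (V X)).Finite := by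
  refine (fin_pair ((pr X : ℤ) ^ 2) 0 1 1 7 (by norm_num)).subset ?_
  intro q hq
  have hq' : V X q ≠ 0 := hq
  unfold V at hq'
  by_cases h : ev q 1 7 = 0
  · rw [if_pos h] at hq'
    exact absurd rfl hq'
  · rw [if_neg h] at hq'
    exact T_supp hq' (fun h1 => by rw [ev01]; exact C_ne hX h1) (fun _ => h)

theorem fin_0215 {X : Finset ℕ} (hX : Pm X) : (Function.support (T X 0 1 2 15)).Finite :=
  fin_T (by norm_num) (fun q hq => by rw [ev01]; exact C_ne hX hq) (fun q hq => ev215 hX hq)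

theorem fin_U {X : Finset ℕ} (hX : Pm X) : (Function.support (U X)).Finite := by
  refine (fin_0215 hX).subset ?_
  intro q hq
  have hq' : U X q ≠ 0 := hq
  unfold U at hq'
  by_cases h : ev q 1 7 = 0
  · rwa [if_pos h] at hq'
  · rw [if_neg h] at hq'
    exact absurd rfl hq'

theorem Fm_g {X : Finset ℕ} (hX : Pm X) {C : ℤ} (hC : C % 2 = 1) : Fm X 13 (g (pr X) C) := by
  have i1 := pr_odd hX
  unfold g
  refine ⟨?_, ?_, ?_⟩
  · simp only
    ring
  · simp only
    omega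
  · simp only
    omega

theorem g_of {X : Finset ℕ} (hX : Pm X) {q : ℤ × ℤ × ℤ} (hq : Fm X 13 q) (h : ev q 1 7 = 0) :
    q = g (pr X) q.2.2 ∧ q.2.2 % 2 = 1 := by
  obtain ⟨A, B, C⟩ := q
  have i1 := pr_odd hX
  have i2 := pr_7 hX
  obtain ⟨h1, h2, h3⟩ := hq
  unfold ev at h
  simp only at h h1 h2 h3
  have h4 : (B + 14 * C - pr X) * (B + 14 * C + pr X) = 0 := by
    linear_combination h1 + 4 * C * h
  unfold g
  rcases mul_eq_zero.1 h4 with h5 | h5
  · omega
  · simp only [Prod.mk.injEq]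
    refine ⟨⟨?_, ?_, ?_⟩, ?_⟩ <;> first | trivial | omega

theorem cx_g {X : Finset ℕ} (hX : Pm X) (C : ℤ) : cx X (g (pr X) C) = jacobiSym C (pr X) := by
  rw [← prod_jac (pm_ne hX), cx_eq_lo]
  apply Finset.prod_congr rfl
  intro p hp
  obtain ⟨h1, h2, h3⟩ := hX p hp
  have hpi : Prime (p : ℤ) := Nat.prime_iff_prime_int.1 h1
  have h77 : ¬ (p : ℤ) ∣ 7 := by
    intro h4
    have : p ∣ 7 := by exact_mod_cast h4
    exact h3 ((Nat.prime_dvd_prime_iff_eq h1 (by norm_num)).1 this)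
  have hd := dvd_pr hp
  unfold lo g
  simp only
  split_ifs with h
  · rfl
  · have e1 : jacobiSym (7 * (pr X : ℤ) + 49 * C) p = jacobiSym (7 ^ 2 * C) p := by
      rw [jacobiSym.mod_left (7 * (pr X : ℤ) + 49 * C), jacobiSym.mod_left (7 ^ 2 * C)]
      congr 1
      apply Int.emod_eq_emod_iff_emod_sub_eq_zero.2
      apply Int.emod_eq_zero_of_dvd
      have : 7 * (pr X : ℤ) + 49 * C - 7 ^ 2 * C = 7 * pr X := by ring
      rw [this]
      exact hd.mul_left _
    have e2 : (7 : ℤ).gcd p = 1 := by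
      rw [Int.gcd_comm]
      exact Int.isCoprime_iff_gcd_eq_one.1 ((hpi.coprime_iff_not_dvd).2 h77)
    rw [e1, jacobiSym.mul_left, jacobiSym.sq_one' e2, one_mul]

theorem ev_g (m C : ℤ) : ev (g m C) 2 15 = C - 2 * m := by
  unfold ev g
  ring

theorem ev_g0 (m C : ℤ) : ev (g m C) 0 1 = C := by
  unfold ev g
  ring

theorem ev_g7 (m C : ℤ) : ev (g m C) 1 7 = 0 := by
  unfold ev g
  ring

theorem sum_U {X : Finset ℕ} (hX : Pm X) (hne : X.Nonempty) : ∑ᶠ q, U X q = 0 := by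
  classical
  have hs : Function.support (U X) ⊆
      (((range (pr X)).image (fun c : ℕ => g (pr X) (2 * (c : ℤ) + 1)) : Finset (ℤ × ℤ × ℤ)) :
        Set (ℤ × ℤ × ℤ)) := by
    intro q hq
    have hq' : U X q ≠ 0 := hq
    unfold U at hq'
    by_cases h : ev q 1 7 = 0
    · rw [if_pos h] at hq'
      have hF : Fm X 13 q := by
        by_contra h1
        unfold T at hq'
        rw [if_neg h1] at hq'
        exact hq' rfl
      obtain ⟨h1, h2⟩ := g_of hX hF h
      have h3 := (T_supp hq' (fun h1 => by rw [ev01]; exact C_ne hX h1)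
        (fun h1 => ev215 hX h1)).2
      rw [h1, ev_g, ev_g0] at h3
      have h4 : 0 < q.2.2 ∧ q.2.2 < 2 * pr X := by
        rcases mul_neg_iff.1 h3 with ⟨h5, h6⟩ | ⟨h5, h6⟩ <;> constructor <;> omega
      rw [Finset.coe_image]
      refine ⟨(q.2.2 / 2).toNat, ?_, ?_⟩
      · rw [Finset.mem_coe, Finset.mem_range]
        omega
      · have h5 : 2 * (((q.2.2 / 2).toNat : ℕ) : ℤ) + 1 = q.2.2 := by omega
        simp only
        rw [h5, ← h1]
    · rw [if_neg h] at hq'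
      exact absurd rfl hq'
  rw [finsum_eq_sum_of_support_subset _ hs, Finset.sum_image]
  · have h1 : ∀ c ∈ range (pr X), U X (g (pr X) (2 * (c : ℤ) + 1)) =
        2 * jacobiSym (2 * (c : ℤ) + 1) (pr X) := by
      intro c hc
      rw [Finset.mem_range] at hc
      unfold U T
      rw [if_pos (ev_g7 _ _), if_pos (Fm_g hX (by omega)), cx_g hX, ev_g, ev_g0,
        Int.sign_eq_one_of_pos (by omega), Int.sign_eq_neg_one_of_neg (by omega)]
      ring
    rw [Finset.sum_congr rfl h1, ← Finset.mul_sum, sum_jac hX hne, mul_zero]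
  · intro a _ b _ hab
    have h1 := congrArg (fun q : ℤ × ℤ × ℤ => q.2.2) hab
    unfold g at h1
    simp only at h1
    omega

theorem sum_0215 {X : Finset ℕ} (hX : Pm X) (hne : X.Nonempty) :
    ∑ᶠ q, T X 0 1 2 15 q = 0 := by
  have hf1 : (Function.support fun q => V X (eqv (-13) 2 (-98) 15 hγ q)).Finite :=
    (fin_V hX).preimage ((eqv (-13) 2 (-98) 15 hγ).injective.injOn)
  have hf2 : (Function.support fun q => -V X (eqv (-13) 2 (-98) 15 hγ q)).Finite := by
    refine hf1.subset ?_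
    intro q hq
    exact neg_ne_zero.1 hq
  have hf3 : (Function.support fun q => (-V X (eqv (-13) 2 (-98) 15 hγ q) + U X q)).Finite :=
    (hf2.union (fin_U hX)).subset (Function.support_add _ _)
  rw [finsum_congr (fun q => T_UV hX q), finsum_add_distrib (fin_V hX) hf3,
    finsum_add_distrib hf2 (fin_U hX), finsum_neg_distrib,
    finsum_comp_equiv (eqv (-13) 2 (-98) 15 hγ) (f := V X), sum_U hX hne]
  ring

end Parb

open Parb in
theorem t_PARB (_h : S_COC) (hp : S_PARI) : S_PARB := by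
  intro X hX hne hm
  have h1 : Fx X 0 1 = 0 := by
    have h2 := hp X hX hne 0 1
    rw [jac_m1 hm, neg_zero] at h2
    linarith
  have nv0 : ∀ q, Fm X 13 q → ev q 0 1 ≠ 0 := fun q hq => by rw [ev01]; exact C_ne hX hq
  have nvi : ∀ q, Fm X 13 q → ev q 1 0 ≠ 0 := fun q hq => by rw [ev10]; exact A_ne hX hq
  have nv2 : ∀ q, Fm X 13 q → ev q 2 15 ≠ 0 := fun q hq => ev215 hX hq
  have h2 := Fx_eq hX hm (x := 0) (M := 1) (by norm_num) nv0
  have h3 := Fx_eq hX hm (x := 2) (M := 15) (by norm_num) nv2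
  have h4 : ∑ᶠ q, T X 1 0 2 15 q = ∑ᶠ q, T X 1 0 0 1 q + ∑ᶠ q, T X 0 1 2 15 q := by
    rw [← finsum_add_distrib (fin_T (by norm_num) nvi nv0) (fin_0215 hX)]
    exact finsum_congr (fun q => T_add X 1 0 0 1 2 15 q)
  rw [sum_0215 hX hne, h2, h3, h1] at h4
  linarith

end

end Pool.Agent.NH2
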