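import Pool.Agent.NH2.Defs
import Pool.Agent.NH1.RotB
import Pool.Agent.NH1.Prod
import Pool.Agent.Y441.ZN.PR

/-!
# NH2-SQ: the square of the sum over the vectors
-/

set_option autoImplicit false

namespace Pool.Agent.NH2.SqW

open Finset Matrix
open Pool.Agent.Z700 (V3 vec pr cp cp7 Ln n0 ep loc)
open Pool.Agent.NH1
open Pool.Agent.NH1.RotW (nn LZ ln_lz hL1 hL2 hL3 hL4 hL5 hL6 hL7 uniq mem_vec dot3)
open Pool.Agent.Y17.N (PL)
open Pool.Agent.Z419 (dot_mod4)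

/-! ### pairs of vectors on a line -/

/-- the number of the pairs of vectors on the line `n` with a given inner product -/
noncomputable def Cq (N : ℤ) (n : Fin 3 → ZMod 7) (β : ZMod 7) (b : ℤ) : ℕ :=
  ((vec N ×ˢ vec N).filter fun q => (Ln n β q.1 ∧ Ln n β q.2) ∧ q.1 ⬝ᵥ q.2 = b).card

theorem cq_map (N : ℤ) (n' : Fin 3 → ZMod 7) (β : ZMod 7) (b : ℤ) (T S : V3 → V3)
    (hTS : ∀ v, T (S v) = v) (hST : ∀ v, S (T v) = v) (hd : ∀ v w, T v ⬝ᵥ T w = v ⬝ᵥ w)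
    (hL : ∀ v, Ln n' β (T v) ↔ Ln n0 β v) : Cq N n' β b = Cq N n0 β b := by
  unfold Cq
  symm
  have hS : ∀ v w, S v ⬝ᵥ S w = v ⬝ᵥ w := by
    intro v w
    rw [← hd, hTS, hTS]
  refine Finset.card_nbij' (fun q => (T q.1, T q.2)) (fun q => (S q.1, S q.2)) ?_ ?_ ?_ ?_
  · intro q hq
    rw [Finset.mem_coe, Finset.mem_filter, Finset.mem_product, mem_vec, mem_vec] at hq ⊢
    refine ⟨⟨?_, ?_⟩, ⟨(hL _).2 hq.2.1.1, (hL _).2 hq.2.1.2⟩, ?_⟩
    · rw [hd]; exact hq.1.1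
    · rw [hd]; exact hq.1.2
    · rw [hd]; exact hq.2.2
  · intro q hq
    rw [Finset.mem_coe, Finset.mem_filter, Finset.mem_product, mem_vec, mem_vec] at hq ⊢
    refine ⟨⟨?_, ?_⟩, ⟨?_, ?_⟩, ?_⟩
    · rw [hS]; exact hq.1.1
    · rw [hS]; exact hq.1.2
    · show Ln n0 β (S q.1)
      rw [← hL, hTS]; exact hq.2.1.1
    · show Ln n0 β (S q.2)
      rw [← hL, hTS]; exact hq.2.1.2
    · rw [hS]; exact hq.2.2
  · intro q _
    exact Prod.ext (hST _) (hST _)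
  · intro q _
    exact Prod.ext (hTS _) (hTS _)

theorem nn0 : nn 0 = n0 := rfl

theorem cq_all (N : ℤ) (β : ZMod 7) (b : ℤ) (i : Fin 8) : Cq N (nn i) β b = Cq N n0 β b := by
  fin_cases i
  · rfl
  · exact cq_map N (nn 1) β b (fun v => ![v 0, -v 1, -v 2]) (fun v => ![v 0, -v 1, -v 2])
      (fun v => by funext i; fin_cases i <;> simp) (fun v => by funext i; fin_cases i <;> simp)
      (fun v w => by rw [dot3, dot3]; simp)
      (fun v => by
        rw [ln_lz, ln_lz, ← hL1]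
        simp)
  · exact cq_map N (nn 2) β b (fun v => ![-v 0, v 1, -v 2]) (fun v => ![-v 0, v 1, -v 2])
      (fun v => by funext i; fin_cases i <;> simp) (fun v => by funext i; fin_cases i <;> simp)
      (fun v w => by rw [dot3, dot3]; simp)
      (fun v => by
        rw [ln_lz, ln_lz, ← hL2]
        simp)
  · exact cq_map N (nn 3) β b (fun v => ![-v 0, -v 1, v 2]) (fun v => ![-v 0, -v 1, v 2])
      (fun v => by funext i; fin_cases i <;> simp) (fun v => by funext i; fin_cases i <;> simp)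
      (fun v w => by rw [dot3, dot3]; simp)
      (fun v => by
        rw [ln_lz, ln_lz, ← hL3]
        simp)
  · exact cq_map N (nn 4) β b (fun v => ![v 0, -v 2, v 1]) (fun v => ![v 0, v 2, -v 1])
      (fun v => by funext i; fin_cases i <;> simp) (fun v => by funext i; fin_cases i <;> simp)
      (fun v w => by rw [dot3, dot3]; simp; ring)
      (fun v => by
        rw [ln_lz, ln_lz, ← hL4]
        simp)
  · exact cq_map N (nn 5) β b (fun v => ![v 0, v 2, -v 1]) (fun v => ![v 0, -v 2, v 1])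
      (fun v => by funext i; fin_cases i <;> simp) (fun v => by funext i; fin_cases i <;> simp)
      (fun v w => by rw [dot3, dot3]; simp; ring)
      (fun v => by
        rw [ln_lz, ln_lz, ← hL5]
        simp)
  · exact cq_map N (nn 6) β b (fun v => ![-v 0, -v 2, -v 1]) (fun v => ![-v 0, -v 2, -v 1])
      (fun v => by funext i; fin_cases i <;> simp) (fun v => by funext i; fin_cases i <;> simp)
      (fun v w => by rw [dot3, dot3]; simp; ring)
      (fun v => by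
        rw [ln_lz, ln_lz, ← hL6]
        simp)
  · exact cq_map N (nn 7) β b (fun v => ![-v 0, v 2, v 1]) (fun v => ![-v 0, v 2, v 1])
      (fun v => by funext i; fin_cases i <;> simp) (fun v => by funext i; fin_cases i <;> simp)
      (fun v w => by rw [dot3, dot3]; simp; ring)
      (fun v => by
        rw [ln_lz, ln_lz, ← hL7]
        simp)

theorem cls_dec : ∀ a b c : ZMod 7, (a ≠ 0 ∨ b ≠ 0 ∨ c ≠ 0) → a ^ 2 + b ^ 2 + c ^ 2 = 0 →
    ∃ i : Fin 8, ∃ k : ZMod 7, k ≠ 0 ∧ a = k * nn i 0 ∧ b = k * nn i 1 ∧ c = k * nn i 2 := by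
  decide +kernel

theorem ln_cls {n : Fin 3 → ZMod 7} (hn : n ≠ 0) {β : ZMod 7} (hβ : β ≠ 0) {v w : V3}
    (hv : Ln n β v) (hw : Ln n β w) : ∃ i : Fin 8, Ln (nn i) β v ∧ Ln (nn i) β w := by
  have : Fact (Nat.Prime 7) := ⟨by norm_num⟩
  have hi := Pool.Agent.Z419.iso_of_ln hβ hv
  have hne : n 0 ≠ 0 ∨ n 1 ≠ 0 ∨ n 2 ≠ 0 := by
    by_contra hc
    push Not at hc
    apply hn
    funext i
    fin_cases i
    · exact hc.1
    · exact hc.2.1
    · exact hc.2.2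
  obtain ⟨i, k, hk, h0, h1, h2⟩ := cls_dec _ _ _ hne hi
  have key : ∀ u : V3, Ln n β u → Ln (nn i) β u := by
    intro u hu
    unfold Pool.Agent.Z700.Ln at hu ⊢
    rw [h0, h1, h2] at hu
    obtain ⟨a, b, c⟩ := hu
    refine ⟨mul_left_cancel₀ hk ?_, mul_left_cancel₀ hk ?_, mul_left_cancel₀ hk ?_⟩
    · linear_combination a
    · linear_combination b
    · linear_combination c
  exact ⟨i, key v hv, key w hw⟩

theorem nn_ne (i : Fin 8) : nn i ≠ 0 := by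
  revert i
  decide +kernel

theorem pl_card (N : ℤ) (β : ZMod 7) (hβ : β ≠ 0) (hβ2 : β ^ 2 = -(N : ZMod 7)) (b : ℤ) :
    ((PL N N β β).filter fun q => q.1 ⬝ᵥ q.2 = b).card = 8 * Cq N n0 β b := by
  classical
  set S := (PL N N β β).filter fun q => q.1 ⬝ᵥ q.2 = b with hS
  have h1 : ∀ q ∈ S, (Finset.univ.filter fun i : Fin 8 => Ln (nn i) β q.1 ∧ Ln (nn i) β q.2).card
      = 1 := by
    intro q hq
    rw [hS, Finset.mem_filter, PL, Finset.mem_filter, Finset.mem_product] at hq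
    obtain ⟨⟨⟨hv, hw⟩, n, hn, hnv, hnw⟩, -⟩ := hq
    obtain ⟨i, hi⟩ := ln_cls hn hβ hnv hnw
    have h2 := uniq β hβ N hβ2 q.1 hv
    apply le_antisymm
    · rw [← h2]
      refine Finset.card_le_card fun j hj => ?_
      rw [Finset.mem_filter] at hj ⊢
      exact ⟨hj.1, hj.2.1⟩
    · exact Finset.card_pos.2 ⟨i, Finset.mem_filter.2 ⟨Finset.mem_univ _, hi⟩⟩
  have h2 : S.card = ∑ i : Fin 8, (S.filter fun q => Ln (nn i) β q.1 ∧ Ln (nn i) β q.2).card := by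
    simp only [Finset.card_filter]
    rw [Finset.sum_comm, Finset.card_eq_sum_ones]
    refine Finset.sum_congr rfl fun v hv => ?_
    rw [← Finset.card_filter]
    exact (h1 v hv).symm
  have h3 : ∀ i : Fin 8, (S.filter fun q => Ln (nn i) β q.1 ∧ Ln (nn i) β q.2).card =
      Cq N n0 β b := by
    intro i
    rw [← cq_all N β b i]
    unfold Cq
    congr 1
    ext q
    rw [Finset.mem_filter, hS, Finset.mem_filter, PL, Finset.mem_filter, Finset.mem_filter]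
    constructor
    · rintro ⟨⟨⟨a1, -⟩, a2⟩, a3⟩
      exact ⟨a1, a3, a2⟩
    · rintro ⟨a1, a3, a2⟩
      exact ⟨⟨⟨a1, nn i, nn_ne i, a3⟩, a2⟩, a3⟩
  rw [h2, Finset.sum_congr rfl fun i _ => h3 i, Finset.sum_const, Finset.card_univ, Fintype.card_fin,
    smul_eq_mul]

/-! ### the characters -/

theorem Ph_sq (h : S_PHI) (N : Finset ℕ) (hN : ∀ p ∈ N, p.Prime ∧ p ≠ 2) (P : Finset ℕ)
    (hP : P ⊆ N) {v : V3} (hv : v ⬝ᵥ v = (pr N : ℤ)) : Ph P v * Ph P v = 1 := by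
  have h1 : ∀ p ∈ P, ph p (rd p v) * ph p (rd p v) = 1 := by
    intro p hp
    obtain ⟨hpp, hp2⟩ := hN p (hP hp)
    obtain ⟨d1, d2⟩ := Pool.Agent.NH1.PP.pr_sq hN (hP hp)
    have hf := ph_spec h hpp hp2
    have rv : rd p v ⬝ᵥ rd p v = 0 := by
      rw [Pool.Agent.NH1.PP.rd_dot, hv, ZMod.intCast_zmod_eq_zero_iff_dvd]
      exact d1
    have rne : rd p v ≠ 0 := by
      intro h0
      apply d2
      have h3 : ∀ i, (p : ℤ) ∣ v i := fun i =>
        (ZMod.intCast_zmod_eq_zero_iff_dvd _ p).1 (congrFun h0 i)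
      obtain ⟨a, ha⟩ := h3 0
      obtain ⟨b, hb⟩ := h3 1
      obtain ⟨d, hd⟩ := h3 2
      rw [dot3, ha, hb, hd] at hv
      exact ⟨a ^ 2 + b ^ 2 + d ^ 2, by rw [← hv]; ring⟩
    rcases hf.pm _ rv rne with h | h <;> rw [h] <;> norm_num
  unfold Ph
  rw [← Finset.prod_mul_distrib, Finset.prod_congr rfl h1, Finset.prod_const_one]

theorem cs1 {n : ℤ} {v w : V3} (hv : v ⬝ᵥ v = n) (hw : w ⬝ᵥ w = n) :
    -n ≤ v ⬝ᵥ w ∧ v ⬝ᵥ w ≤ n := by
  rw [dot3] at *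
  constructor
  · nlinarith [sq_nonneg (v 0 + w 0), sq_nonneg (v 1 + w 1), sq_nonneg (v 2 + w 2)]
  · nlinarith [sq_nonneg (v 0 - w 0), sq_nonneg (v 1 - w 1), sq_nonneg (v 2 - w 2)]

end Pool.Agent.NH2.SqW

namespace Pool.Agent.NH2

open Finset Matrix
open Pool.Agent.Z700 (V3 vec pr cp cp7 Ln n0 ep loc)
open Pool.Agent.NH1
open Pool.Agent.NH1.RotW (mem_vec dot3)
open Pool.Agent.Y17.N (PL)
open Pool.Agent.Z419 (dot_mod4)
open SqW

/-- **SQ** -/
theorem t_SQ (h0 : S_PHI) (_h1 : S_PROT) (h2 : S_PROD) (h3 : S_VAN) (h4 : S_WTV)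
    (h5 : Pool.Agent.Y17.N.S_LB) (h6 : Pool.Agent.Y17.N.S_C7) : S_SQ := by
  classical
  intro X Z hPm hdis hX hK hKX β hβ2
  set n : ℕ := pr X * pr Z with hn
  have hprn : pr (X ∪ Z) = n := by
    rw [hn]
    unfold Pool.Agent.Z700.pr
    exact Finset.prod_union hdis
  have hN2 : ∀ p ∈ X ∪ Z, p.Prime ∧ p ≠ 2 := fun p hp => ⟨(hPm p hp).1, (hPm p hp).2.1⟩
  obtain ⟨hn8, hn7⟩ := hK
  rw [if_neg (by norm_num)] at hn7
  have hn7' : ¬ 7 ∣ n := by omega
  have hnZ : ((n : ℤ)) % 8 = 3 := by omega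
  have hn0' : (n : ZMod 7) ≠ 0 := by
    rw [Ne, ZMod.natCast_eq_zero_iff]
    exact hn7'
  have hβ : β ≠ 0 := by
    rintro rfl
    apply hn0'
    have h7 : -(n : ZMod 7) = 0 := by rw [← hβ2]; ring
    exact neg_eq_zero.1 h7
  have hβZ : β ^ 2 = -(((n : ℤ)) : ZMod 7) := by rw [hβ2]; push_cast; rfl
  set V := (vec (n : ℤ)).filter fun v => Ln n0 β v with hV
  have hmemV : ∀ v ∈ V, v ⬝ᵥ v = (n : ℤ) := fun v hv => mem_vec.1 (Finset.mem_filter.1 hv).1
  obtain ⟨C, hC, hprod⟩ := h2 (X ∪ Z) 3 hN2 (Or.inl rfl) (by rw [hprn]; exact hn8)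
  rw [hprn] at hprod
  have hC2 : C * C = 1 := by rcases hC with h | h <;> rw [h] <;> norm_num
  have hom : ∀ v ∈ V, om 3 v = ep v := by
    intro v hv
    have hod := Pool.Agent.Z700.SGw.od_of hnZ v (Finset.mem_filter.1 hv).1
    unfold om ep0
    rw [if_pos rfl, if_pos hod]
  have hPU : ∀ v ∈ V, Ph X v * Ph Z v = C * ep v := by
    intro v hv
    rw [← hom v hv, ← hprod v (Finset.mem_filter.1 hv).1]
    unfold Ph
    exact (Finset.prod_union hdis).symm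
  have hXs : ∀ v ∈ V, Ph X v * Ph X v = 1 := fun v hv =>
    Ph_sq h0 (X ∪ Z) hN2 X Finset.subset_union_left (by rw [hprn]; exact hmemV v hv)
  have hZs : ∀ v ∈ V, Ph Z v * Ph Z v = 1 := fun v hv =>
    Ph_sq h0 (X ∪ Z) hN2 Z Finset.subset_union_right (by rw [hprn]; exact hmemV v hv)
  have hes : ∀ v ∈ V, ep v * ep v = 1 := fun v _ => by
    rcases Pool.Agent.Y441.ZN.ep_cases v with h | h <;> rw [h] <;> norm_num
  -- the two sums
  have hy : Y 3 X ((n : ℕ) : ℤ) β = C * ∑ v ∈ V, Ph Z v := by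
    unfold Y
    rw [Finset.mul_sum]
    refine Finset.sum_congr rfl fun v hv => ?_
    rw [hom v hv]
    have e1 := hPU v hv
    have e2 := hXs v hv
    have e3 : ep v = C * (Ph X v * Ph Z v) := by
      rw [e1, ← mul_assoc, hC2, one_mul]
    rw [e3]
    linear_combination (C * Ph Z v) * e2
  have hv0 := h3 (X ∪ Z) hPm (by rw [hprn]; exact ⟨hn8, by rw [if_neg (by norm_num)]; exact hn7⟩)
    β (by rw [hprn]; exact hβ2) X Finset.subset_union_left hX hKX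
  rw [hprn] at hv0
  have hz0 : ∑ v ∈ V, ep v * Ph Z v = 0 := by
    have e1 : ∑ v ∈ V, ep v * Ph Z v = C * ∑ v ∈ V, Ph X v := by
      rw [Finset.mul_sum]
      refine Finset.sum_congr rfl fun v hv => ?_
      have e1 := hPU v hv
      have e2 := hZs v hv
      have e3 : ep v = C * (Ph X v * Ph Z v) := by
        rw [e1, ← mul_assoc, hC2, one_mul]
      rw [e3]
      linear_combination (C * Ph X v) * e2
    rw [e1, hv0, mul_zero]
  -- the square
  have hsq : (Y 3 X ((n : ℕ) : ℤ) β) ^ 2 =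
      ∑ q ∈ (V ×ˢ V).filter (fun q => ep q.1 ≠ ep q.2), 2 * (Ph Z q.1 * Ph Z q.2) := by
    have e1 : (Y 3 X ((n : ℕ) : ℤ) β) ^ 2 = (∑ v ∈ V, Ph Z v) * (∑ v ∈ V, Ph Z v) -
        (∑ v ∈ V, ep v * Ph Z v) * (∑ v ∈ V, ep v * Ph Z v) := by
      rw [hy, hz0]
      linear_combination ((∑ v ∈ V, Ph Z v) ^ 2) * hC2
    rw [e1, Finset.sum_mul_sum, Finset.sum_mul_sum, ← Finset.sum_product', ← Finset.sum_product',
      ← Finset.sum_sub_distrib, Finset.sum_filter]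
    refine Finset.sum_congr rfl fun q _ => ?_
    rcases Pool.Agent.Y441.ZN.ep_cases q.1 with a | a <;>
      rcases Pool.Agent.Y441.ZN.ep_cases q.2 with b | b <;> rw [a, b] <;> norm_num
    · ring
    · ring
  -- the inner products
  have hdot7 : ∀ q ∈ V ×ˢ V, ((q.1 ⬝ᵥ q.2 : ℤ) : ZMod 7) = (n : ZMod 7) := by
    intro q hq
    rw [Finset.mem_product] at hq
    by_contra hne
    have h7 := h5 (n : ℤ) (n : ℤ) β β hβ hβ hβZ hβZ (q.1 ⬝ᵥ q.2)
    rw [if_neg (by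
      intro h
      apply hne
      rw [h]
      linear_combination -hβ2)] at h7
    have h8 : ((PL (n : ℤ) (n : ℤ) β β).filter fun q' => q'.1 ⬝ᵥ q'.2 = q.1 ⬝ᵥ q.2).card = 0 := by
      omega
    rw [Finset.card_eq_zero] at h8
    have h9 : q ∈ (PL (n : ℤ) (n : ℤ) β β).filter fun q' => q'.1 ⬝ᵥ q'.2 = q.1 ⬝ᵥ q.2 := by
      rw [Finset.mem_filter, PL, Finset.mem_filter, Finset.mem_product]
      refine ⟨⟨⟨(Finset.mem_filter.1 hq.1).1, (Finset.mem_filter.1 hq.2).1⟩, n0, ?_,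
        (Finset.mem_filter.1 hq.1).2, (Finset.mem_filter.1 hq.2).2⟩, rfl⟩
      intro h
      have := congrFun h 0
      simp [n0] at this
    rw [h8] at h9
    exact absurd h9 (Finset.notMem_empty _)
  set F := (range n).filter (fun T => Odd T ∧ 7 ∣ T) with hF
  have hmap : ∀ q ∈ (V ×ˢ V).filter (fun q => ep q.1 ≠ ep q.2),
      (((n : ℤ) - q.1 ⬝ᵥ q.2) / 2).toNat ∈ F ∧
      q.1 ⬝ᵥ q.2 = (n : ℤ) - 2 * (((((n : ℤ) - q.1 ⬝ᵥ q.2) / 2).toNat : ℕ) : ℤ) := by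
    intro q hq
    rw [Finset.mem_filter] at hq
    obtain ⟨hq1, hq2⟩ := hq
    have hq1' := Finset.mem_product.1 hq1
    have a1 := hmemV _ hq1'.1
    have a2 := hmemV _ hq1'.2
    have a3 := (dot_mod4 hnZ hnZ a1 a2).2 hq2
    have a4 := hdot7 q hq1
    have a5 := cs1 a1 a2
    have a6 : (7 : ℤ) ∣ (n : ℤ) - q.1 ⬝ᵥ q.2 := by
      have h7 : (((n : ℤ) - q.1 ⬝ᵥ q.2 : ℤ) : ZMod 7) = 0 := by
        push_cast
        rw [a4]
        ring
      exact_mod_cast (ZMod.intCast_zmod_eq_zero_iff_dvd _ 7).1 h7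
    generalize q.1 ⬝ᵥ q.2 = d at a3 a4 a5 a6 ⊢
    obtain ⟨t, ht⟩ : ∃ t : ℤ, (n : ℤ) - d = 2 * t := ⟨((n : ℤ) - d) / 2, by omega⟩
    have e1 : ((n : ℤ) - d) / 2 = t := by omega
    rw [e1]
    have ht0 : 0 ≤ t := by omega
    have e2 : ((t.toNat : ℕ) : ℤ) = t := Int.toNat_of_nonneg ht0
    refine ⟨?_, by omega⟩
    rw [hF, Finset.mem_filter, Finset.mem_range]
    refine ⟨by omega, ?_, by omega⟩
    rw [Nat.odd_iff]
    omega
  rw [hsq, ← Finset.sum_fiberwise_of_maps_to (fun q hq => (hmap q hq).1), Finset.mul_sum]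
  refine Finset.sum_congr rfl fun T hT => ?_
  rw [hF, Finset.mem_filter, Finset.mem_range] at hT
  obtain ⟨hTn, hTo, hT7⟩ := hT
  have hTo' := Nat.odd_iff.1 hTo
  have hfib : ((V ×ˢ V).filter (fun q => ep q.1 ≠ ep q.2)).filter
      (fun q => (((n : ℤ) - q.1 ⬝ᵥ q.2) / 2).toNat = T) =
      (vec (n : ℤ) ×ˢ vec (n : ℤ)).filter fun q =>
        (Ln n0 β q.1 ∧ Ln n0 β q.2) ∧ q.1 ⬝ᵥ q.2 = (n : ℤ) - 2 * T := by
    ext q
    constructor
    · intro hq
      rw [Finset.mem_filter] at hq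
      have h7 := (hmap q hq.1).2
      rw [hq.2] at h7
      have h8 := Finset.mem_product.1 (Finset.mem_filter.1 hq.1).1
      rw [Finset.mem_filter, Finset.mem_product]
      exact ⟨⟨(Finset.mem_filter.1 h8.1).1, (Finset.mem_filter.1 h8.2).1⟩,
        ⟨(Finset.mem_filter.1 h8.1).2, (Finset.mem_filter.1 h8.2).2⟩, h7⟩
    · intro hq
      rw [Finset.mem_filter, Finset.mem_product] at hq
      obtain ⟨⟨b1, b2⟩, ⟨b3, b4⟩, b5⟩ := hq
      rw [Finset.mem_filter, Finset.mem_filter, Finset.mem_product]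
      refine ⟨⟨⟨Finset.mem_filter.2 ⟨b1, b3⟩, Finset.mem_filter.2 ⟨b2, b4⟩⟩, ?_⟩, ?_⟩
      · rw [← dot_mod4 hnZ hnZ (mem_vec.1 b1) (mem_vec.1 b2), b5]
        omega
      · rw [b5]
        omega
  rw [hfib]
  have hterm : ∀ q ∈ (vec (n : ℤ) ×ˢ vec (n : ℤ)).filter (fun q =>
        (Ln n0 β q.1 ∧ Ln n0 β q.2) ∧ q.1 ⬝ᵥ q.2 = (n : ℤ) - 2 * T),
      2 * (Ph Z q.1 * Ph Z q.2) = 2 * ∏ p ∈ Z, wp p n T := by
    intro q hq
    rw [Finset.mem_filter, Finset.mem_product] at hq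
    have h7 := h4 (X ∪ Z) hPm Z Finset.subset_union_right q.1 (by rw [hprn]; exact hq.1.1) q.2
      (by rw [hprn]; exact hq.1.2) T (by rw [hprn]; exact hTn) (by rw [hprn]; exact hq.2.2)
    rw [h7, hprn]
  rw [Finset.sum_congr rfl hterm, Finset.sum_const, nsmul_eq_mul]
  -- the count
  have hsf : Squarefree n := by
    rw [← hprn]
    rw [Nat.squarefree_iff_prime_squarefree]
    intro p hp hpp
    have hpd : p ∣ pr (X ∪ Z) := (dvd_mul_right p p).trans hpp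
    have hmem : p ∈ X ∪ Z := by
      unfold Pool.Agent.Z700.pr at hpd
      rw [hp.prime.dvd_finsetProd_iff] at hpd
      obtain ⟨q, hq, hpq⟩ := hpd
      rw [(Nat.prime_dvd_prime_iff_eq hp (hN2 q hq).1).1 hpq]
      exact hq
    exact (Pool.Agent.NH1.PP.pr_sq hN2 hmem).2 (by
      rw [sq]
      exact_mod_cast hpp)
  have hT1 : 1 ≤ T := by omega
  have hb7 : (((n : ℤ) - 2 * T : ℤ) : ZMod 7) = -(β * β) := by
    have hT0 : ((T : ℕ) : ZMod 7) = 0 := (ZMod.natCast_eq_zero_iff T 7).2 hT7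
    push_cast
    rw [hT0]
    linear_combination hβ2
  have k1 := pl_card (n : ℤ) β hβ hβZ ((n : ℤ) - 2 * T)
  have k2 := h5 (n : ℤ) (n : ℤ) β β hβ hβ hβZ hβZ ((n : ℤ) - 2 * T)
  rw [if_pos hb7, k1] at k2
  have hD : (((n : ℤ) * (n : ℤ) - ((n : ℤ) - 2 * T) ^ 2).toNat) = 4 * (n - T) * T := by
    have e1 : (n : ℤ) * (n : ℤ) - ((n : ℤ) - 2 * T) ^ 2 = ((4 * (n - T) * T : ℕ) : ℤ) := by
      push_cast [Nat.cast_sub hTn.le]
      ring
    rw [e1, Int.toNat_natCast]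
  have k3 := h6 n n hsf hn8 hn8 β β hβ hβ hβ2 hβ2 ((n : ℤ) - 2 * T) (by
      rw [Int.odd_iff]
      omega) hb7 (by
      have e2 : (T : ℤ) < n := by exact_mod_cast hTn
      have e3 : (1 : ℤ) ≤ T := by exact_mod_cast hT1
      nlinarith)
  rw [← k2, hD] at k3
  have k4 : ((Cq (n : ℤ) n0 β ((n : ℤ) - 2 * T) : ℕ) : ℤ) = 3 * loc n (4 * (n - T) * T) := by
    push_cast at k3
    linarith
  have k5 : ((((vec (n : ℤ) ×ˢ vec (n : ℤ)).filter fun q =>
        (Ln n0 β q.1 ∧ Ln n0 β q.2) ∧ q.1 ⬝ᵥ q.2 = (n : ℤ) - 2 * T).card : ℕ) : ℤ) =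
      3 * loc n (4 * (n - T) * T) := k4
  rw [k5]
  ring

end Pool.Agent.NH2
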