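import Pool.Agent.NH2.Defs

/-!
# Uniqueness of the even and of the odd cocycles of `Γ₀(14)` (`t_UEV`, `t_UOD`)
-/

set_option autoImplicit false

namespace Pool.Agent.NH2

namespace Uniq

/-- the normalized functions of parity `e` -/
structure Hm (D : ℤ → ℤ → ℤ) (e : ℤ) : Prop where
  neg2 : ∀ x M : ℤ, D (-x) (-M) = D x M
  per : ∀ x M : ℤ, D (x + M) M = D x M
  par : ∀ x M : ℤ, D (-x) M = e * D x M
  zero : D 0 1 = 0
  aff : ∀ a b c d : ℤ, a * d - b * c = 1 → (14 : ℤ) ∣ c → ∀ x M : ℤ, IsCoprime (14 * x) M →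
    D (a * x + b * M) (c * x + d * M) = D x M + D b d

section

variable {D : ℤ → ℤ → ℤ} {e : ℤ}

theorem Hm.padd (H : Hm D e) (x M : ℤ) (n : ℕ) : D (x + n * M) M = D x M := by
  induction n with
  | zero => simp
  | succ n ih =>
    have h := H.per (x + n * M) M
    rw [ih] at h
    rw [← h]
    congr 1
    push_cast
    ring

theorem Hm.add (H : Hm D e) (x M m : ℤ) : D (x + m * M) M = D x M := by
  rcases Int.eq_nat_or_neg m with ⟨n, rfl | rfl⟩
  · exact H.padd x M n
  · have h := H.padd (x + -(n : ℤ) * M) M n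
    rw [← h]
    congr 1
    ring

theorem Hm.one (H : Hm D e) (x : ℤ) : D x 1 = 0 := by
  have h := H.add 0 1 x
  rw [H.zero] at h
  simpa using h

theorem Hm.neg0 (H : Hm D e) {x M : ℤ} (h : D x M = 0) : D (-x) M = 0 := by
  rw [H.par, h, mul_zero]

theorem Hm.neg20 (H : Hm D e) {x M : ℤ} (h : D x M = 0) : D (-x) (-M) = 0 := by
  rw [H.neg2, h]

theorem Hm.van (H : Hm D e) (h13 : D 1 3 = 0) (h15 : D 1 5 = 0) (h613 : D 6 13 = 0) (n : ℕ) :
    ∀ x M : ℤ, M.natAbs = n → M ≠ 0 → IsCoprime (14 * x) M → D x M = 0 := by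
  induction n using Nat.strong_induction_on with
  | _ n ih =>
    intro x M hn hM0 hcop
    -- reduction to positive denominators
    wlog hMp : 0 < M generalizing x M
    · have h1 := this (-x) (-M) (by rw [Int.natAbs_neg, hn]) (neg_ne_zero.2 hM0)
        (by rw [mul_neg]; exact hcop.neg_neg) (by omega)
      rwa [H.neg2] at h1
    rcases eq_or_ne M 1 with rfl | hM1
    · exact H.one x
    have hodd : M % 2 = 1 := by
      rcases Int.emod_two_eq_zero_or_one M with h1 | h1
      · exfalso
        have h2 : (2 : ℤ) ∣ 14 * x := ⟨7 * x, by ring⟩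
        have h3 := hcop.isUnit_of_dvd' h2 (Int.dvd_of_emod_eq_zero h1)
        rw [Int.isUnit_iff] at h3
        omega
      · exact h1
    -- `14 x` is not divisible by `M`
    have hnd : ∀ j : ℤ, 14 * x ≠ j * M := by
      intro j hj
      have h3 := hcop.isUnit_of_dvd' (Dvd.intro_left j hj.symm) (dvd_refl M)
      rw [Int.isUnit_iff] at h3
      omega
    -- the general step
    have step : ∀ (y : ℤ), IsCoprime (14 * y) M → 0 < y → 2 * y < M → D y M = 0 := by
      intro y hy hy0 hy1
      have hnd' : ∀ j : ℤ, 14 * y ≠ j * M := by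
        intro j hj
        have h3 := hy.isUnit_of_dvd' (Dvd.intro_left j hj.symm) (dvd_refl M)
        rw [Int.isUnit_iff] at h3
        omega
      have main : ∀ (A B E : ℤ) (c : ℕ), A * E - B * (14 * c) = 1 → 0 < c →
          |14 * c * y + E * M| < M → D B E = 0 → D y M = 0 := by
        intro A B E c hdet hc hlt hBD
        have hK : 14 * (c : ℤ) * y + E * M ≠ 0 := by
          intro h0
          have h1 : E % 2 = 1 := by
            rcases Int.emod_two_eq_zero_or_one E with h1 | h1
            · exfalso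
              obtain ⟨d, hd⟩ := Int.dvd_of_emod_eq_zero h1
              rw [hd] at hdet
              have : (2 : ℤ) ∣ 1 := ⟨A * d - B * (7 * c), by rw [← hdet]; ring⟩
              norm_num at this
            · exact h1
          obtain ⟨d, hd⟩ : ∃ d, E = 2 * d + 1 := ⟨E / 2, by omega⟩
          obtain ⟨e', he⟩ : ∃ e', M = 2 * e' + 1 := ⟨M / 2, by omega⟩
          rw [hd, he] at h0
          have : (2 : ℤ) ∣ 1 := ⟨-(7 * c * y + 2 * d * e' + d + e'), by linear_combination h0⟩
          norm_num at this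
        have h3 := H.aff A B (14 * c) E hdet ⟨c, rfl⟩ y M hy
        rw [hBD, add_zero] at h3
        rw [← h3]
        refine ih _ ?_ _ _ rfl hK ?_
        · rw [← hn]
          zify
          rw [abs_of_pos hMp]
          exact hlt
        · -- coprimality
          obtain ⟨u, v, huv⟩ := hy
          have h14 : IsCoprime (14 : ℤ) (14 * (c : ℤ) * y + E * M) := by
            have h1 : IsCoprime (14 : ℤ) (E * M) := by
              refine IsCoprime.mul_right ⟨-(B * c), A, by linear_combination hdet⟩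
                ⟨u * y, v, by linear_combination huv⟩
            have h2 : 14 * (c : ℤ) * y + E * M = E * M + 14 * (c * y) := by ring
            rw [h2]
            exact (IsCoprime.add_mul_left_right_iff).2 h1
          refine IsCoprime.mul_left h14 ?_
          -- Bezout from the inverse matrix
          refine ⟨u * 14 * E - v * (14 * c), -(u * 14 * B) + v * A, ?_⟩
          linear_combination (u * 14 * y + v * M) * hdet + huv
      have c1 : 14 * y < 2 * M ∨ (2 * M < 14 * y ∧ 14 * y < 4 * M) ∨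
          (4 * M < 14 * y ∧ 14 * y < 6 * M) ∨ (6 * M < 14 * y ∧ 14 * y < 7 * M) := by
        have := hnd' 2
        have := hnd' 4
        have := hnd' 6
        omega
      rcases c1 with c1 | c1 | c1 | c1
      · refine main (-1) 0 (-1) 1 (by norm_num) one_pos ?_ ?_
        · rw [abs_lt]
          push_cast
          constructor <;> omega
        · have h1 := H.neg20 H.zero
          exact h1
      · refine main (-5) 1 (-3) 1 (by norm_num) one_pos ?_ ?_
        · rw [abs_lt]
          push_cast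
          constructor <;> omega
        · have h1 := H.neg20 (H.neg0 h13)
          exact h1
      · refine main (-3) 1 (-5) 1 (by norm_num) one_pos ?_ ?_
        · rw [abs_lt]
          push_cast
          constructor <;> omega
        · have h1 := H.neg20 (H.neg0 h15)
          exact h1
      · refine main (-13) 6 (-13) 2 (by norm_num) two_pos ?_ ?_
        · rw [abs_lt]
          push_cast
          constructor <;> omega
        · have h1 := H.neg20 (H.neg0 h613)
          exact h1
    -- reduce `x` modulo `M`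
    obtain ⟨y, m, hxy, hy0, hyM⟩ : ∃ y m : ℤ, x = y + m * M ∧ 0 ≤ y ∧ y < M :=
      ⟨x % M, x / M, by linear_combination -(Int.emod_add_mul_ediv x M), Int.emod_nonneg _ hM0,
        Int.emod_lt_of_pos _ hMp⟩
    have hcy : IsCoprime (14 * y) M := by
      have h1 : 14 * x = 14 * y + (14 * m) * M := by rw [hxy]; ring
      rw [h1] at hcop
      exact (IsCoprime.add_mul_right_left_iff).1 hcop
    have hy00 : y ≠ 0 := by
      rintro rfl
      exact hnd (14 * m) (by rw [hxy]; ring)
    rw [hxy, H.add]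
    rcases lt_or_ge (2 * y) M with h1 | h1
    · exact step y hcy (by omega) h1
    · have h2 : IsCoprime (14 * (M - y)) M := by
        have h3 : 14 * (M - y) = -(14 * y) + 14 * M := by ring
        rw [h3]
        exact (IsCoprime.add_mul_right_left_iff).2 hcy.neg_left
      have h3 := step (M - y) h2 (by omega) (by omega)
      have h4 := H.neg0 h3
      have h5 := H.add (-(M - y)) M 1
      rw [h4] at h5
      have e : -(M - y) + 1 * M = y := by ring
      rwa [e] at h5

/-! ### the relations -/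

theorem Hm.ev15 (H : Hm D 1) : D 1 5 = - D 1 3 := by
  have h1 := H.aff 11 (-4) 14 (-5) (by norm_num) ⟨1, by norm_num⟩ 1 3 ⟨-1, 5, by norm_num⟩
  have h2 := H.one 1
  have h3 := H.neg2 4 5
  have h4 := H.per (-1) 5
  have h5 := H.par 1 5
  have h6 := H.neg2 1 1
  norm_num at h1 h2 h3 h4 h5 h6 ⊢
  omega

theorem Hm.ev613 (H : Hm D 1) : D 6 13 = 0 := by
  have h1 := H.aff 15 (-7) 28 (-13) (by norm_num) ⟨2, by norm_num⟩ 6 13 ⟨-2, 13, by norm_num⟩
  have h2 := H.one 1
  have h3 := H.neg2 7 13
  have h4 := H.per (-6) 13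
  have h5 := H.par 6 13
  have h6 := H.neg2 1 1
  norm_num at h1 h2 h3 h4 h5 h6 ⊢
  omega

theorem Hm.od25 (H : Hm D (-1)) : D 2 5 = 0 := by
  have h1 := H.aff 5 1 14 3 (by norm_num) ⟨1, by norm_num⟩ (-1) 3 ⟨1, 5, by norm_num⟩
  have h2 := H.par 1 3
  have h3 := H.par 2 5
  have h4 := H.neg2 2 5
  norm_num at h1 h2 h3 h4 ⊢
  omega

theorem Hm.od15 (H : Hm D (-1)) : D 1 5 = D 1 3 := by
  have h0 := H.od25
  have h1 := H.aff 3 1 14 5 (by norm_num) ⟨1, by norm_num⟩ (-2) 5 ⟨3, 17, by norm_num⟩
  have h2 := H.par 2 5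
  have h4 := H.neg2 1 3
  norm_num at h0 h1 h2 h4 ⊢
  omega

theorem Hm.od613 (H : Hm D (-1)) (h215 : D 2 15 = 0) : D 6 13 = 0 := by
  have h0 := H.od25
  have h1 := H.aff 13 6 28 13 (by norm_num) ⟨2, by norm_num⟩ (-2) 5 ⟨3, 17, by norm_num⟩
  have h2 := H.aff 25 (-3) 42 (-5) (by norm_num) ⟨3, by norm_num⟩ 2 15 ⟨7, -13, by norm_num⟩
  have h3 := H.par 2 5
  have h4 := H.neg2 3 5
  have h5 := H.per (-2) 5
  have h6 := H.per (-4) 9
  have h7 := H.par 4 9
  norm_num at h0 h1 h2 h3 h4 h5 h6 h7 ⊢
  omega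

theorem Hm.vanE (H : Hm D 1) (h13 : D 1 3 = 0) (x M : ℤ) (hM : M ≠ 0)
    (hcop : IsCoprime (14 * x) M) : D x M = 0 :=
  H.van h13 (by rw [H.ev15, h13, neg_zero]) H.ev613 _ x M rfl hM hcop

theorem Hm.vanO (H : Hm D (-1)) (h13 : D 1 3 = 0) (h215 : D 2 15 = 0) (x M : ℤ) (hM : M ≠ 0)
    (hcop : IsCoprime (14 * x) M) : D x M = 0 :=
  H.van h13 (by rw [H.od15, h13]) (H.od613 h215) _ x M rfl hM hcop

end

/-- the combination of two cocycles -/
theorem comb {f g : ℤ → ℤ → ℤ} (hf : Coc f) (hg : Coc g) {e : ℤ}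
    (pf : ∀ x M : ℤ, f (-x) M - f 0 1 = e * (f x M - f 0 1))
    (pg : ∀ x M : ℤ, g (-x) M - g 0 1 = e * (g x M - g 0 1)) (r s : ℤ) :
    Hm (fun x M => (f x M - f 0 1) * s - (g x M - g 0 1) * r) e where
  neg2 x M := by
    simp only [hf.neg2, hg.neg2]
  per x M := by
    simp only [hf.per, hg.per]
  par x M := by
    simp only [pf, pg]
    ring
  zero := by ring
  aff a b c d hd hc x M hcop := by
    simp only [hf.aff a b c d hd hc x M hcop, hg.aff a b c d hd hc x M hcop]
    ring

end Uniq

open Uniq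

/-- **UEV** -/
theorem t_UEV : S_UEV := by
  intro f g hf hg pf pg x M hM hcop
  have H := comb hf hg (e := 1) (fun x M => by rw [pf, one_mul]) (fun x M => by rw [pg, one_mul])
    (f 1 3 - f 0 1) (g 1 3 - g 0 1)
  have h := H.vanE (by ring) x M hM.ne' hcop
  linarith

/-- **UOD** -/
theorem t_UOD : S_UOD := by
  intro f g hf hg pf pg f2 g2 x M hM hcop
  have f0 : f 0 1 = 0 := by
    have := pf 0 1
    rw [neg_zero] at this
    omega
  have g0 : g 0 1 = 0 := by
    have := pg 0 1
    rw [neg_zero] at this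
    omega
  have H := comb hf hg (e := -1) (fun x M => by rw [pf, f0]; ring) (fun x M => by rw [pg, g0]; ring)
    (f 1 3) (g 1 3)
  have h := H.vanO (by simp only [f0, g0]; ring) (by simp only [f0, g0, f2, g2]; ring) x M hM.ne' hcop
  simp only [f0, g0, sub_zero] at h
  linarith

end Pool.Agent.NH2
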