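import Pool.Agent.NH2.Defs2
import Pool.Agent.NH1.Base
import Pool.Agent.Z700.Ana
import Pool.Agent.Y681.Z7.SymCore

/-!
# Project NH2: the values (`S_VI`, `S_VII`, `S_VIII`)
-/

set_option autoImplicit false

namespace Pool.Agent.NH2

open Finset Matrix
open Pool.Agent.Z700 (pr un)
open Pool.Agent.NH1
open Pool.Agent.Y687 (SS Symb2 rr)
open Pool.Agent.Y687.N (SymbM)

namespace VL

/-! ### sets of primes -/

lemma prime_of {P : Finset ℕ} (hP : Pm P) : ∀ p ∈ P, p.Prime := fun p hp => (hP p hp).1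

lemma cop14 {P : Finset ℕ} (hP : Pm P) : Nat.Coprime 14 (pr P) := by
  rw [show (14 : ℕ) = 2 * 7 by norm_num]
  refine Nat.Coprime.mul_left ?_ ?_
  · rw [Nat.Prime.coprime_iff_not_dvd Nat.prime_two]
    intro hd
    exact (hP 2 (Pool.Agent.Z700.mem_of_dvd_pr (prime_of hP) Nat.prime_two hd)).2.1 rfl
  · rw [Nat.Prime.coprime_iff_not_dvd (by norm_num)]
    intro hd
    exact (hP 7 (Pool.Agent.Z700.mem_of_dvd_pr (prime_of hP) (by norm_num) hd)).2.2 rfl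

lemma odd_pr {P : Finset ℕ} (hP : Pm P) : Odd (pr P) := by
  rw [← Nat.coprime_two_left]
  exact Nat.Coprime.coprime_dvd_left (by norm_num : 2 ∣ 14) (cop14 hP)

lemma jm1_3 {n : ℕ} (h : n % 4 = 3) : jacobiSym (-1) n = -1 := by
  rw [jacobiSym.at_neg_one (Nat.odd_iff.2 (by omega)), ZMod.χ₄_nat_three_mod_four h]

lemma jm1_1 {n : ℕ} (h : n % 4 = 1) : jacobiSym (-1) n = 1 := by
  rw [jacobiSym.at_neg_one (Nat.odd_iff.2 (by omega)), ZMod.χ₄_nat_one_mod_four h]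

lemma cop_un {P : Finset ℕ} (hP : Pm P) {u : ℕ} (hu : u ∈ un (pr P)) :
    IsCoprime (14 * (u : ℤ)) ((pr P : ℕ) : ℤ) := by
  unfold Pool.Agent.Z700.un at hu
  rw [mem_filter] at hu
  have h1 : Nat.Coprime (14 * u) (pr P) := Nat.Coprime.mul_left (cop14 hP) hu.2
  exact_mod_cast (Nat.isCoprime_iff_coprime.2 h1)

lemma pos_pr {P : Finset ℕ} (hP : Pm P) : (0 : ℤ) < ((pr P : ℕ) : ℤ) := by
  exact_mod_cast Pool.Agent.Z700.pr_pos (prime_of hP)

lemma sum_jac0 {P : Finset ℕ} (hP : Pm P) (hne : P.Nonempty) :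
    ∑ u ∈ un (pr P), jacobiSym (u : ℤ) (pr P) = 0 :=
  Pool.Agent.Z700.sum_jac (prime_of hP) hne fun p hp => (hP p hp).2.1

lemma SS_un (s : ℚ → ℤ) (P : Finset ℕ) : SS s (pr P) (pr P) =
    ∑ u ∈ un (pr P), jacobiSym (u : ℤ) (pr P) * s ((u : ℚ) / (pr P : ℕ)) := rfl

/-! ### the relations between the sums -/

/-- the even case -/
lemma even_rel (h1 : S_COC) (h2 : S_PARI) (h3 : S_UEV) (h7 : S_CS) {s : ℚ → ℤ} {a : ℕ → ℤ}
    (hs : Symb2 s a) {X Z : Finset ℕ} (hX : Pm X) (hXn : X.Nonempty) (hX4 : pr X % 4 = 3) (hZ : Pm Z)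
    (hZn : Z.Nonempty) : (Fx X 1 3 - Fx X 0 1) * SS s (pr Z) (pr Z) =
      -3 * s 0 * ∑ u ∈ un (pr Z), jacobiSym (u : ℤ) (pr Z) * Fx X u (pr Z) := by
  obtain ⟨c1, c2, c3⟩ := h7 s a hs
  have hev : ∀ x M : ℤ, Fx X (-x) M = Fx X x M := by
    intro x M
    rw [h2 X hX hXn x M, jm1_3 hX4]
    ring
  have key : ∀ u ∈ un (pr Z), (Fx X 1 3 - Fx X 0 1) * (s ((u : ℚ) / (pr Z : ℕ)) - s 0) =
      -3 * s 0 * (Fx X u (pr Z) - Fx X 0 1) := by
    intro u hu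
    have h := h3 (Fx X) (fun x M => s ((x : ℚ) / M)) (h1 X hX hXn) c1 hev c2 u (pr Z) (pos_pr hZ)
      (cop_un hZ hu)
    have e1 : s (((1 : ℤ) : ℚ) / ((3 : ℤ) : ℚ)) = -2 * s 0 := by
      rw [← c3]
      norm_num
    have e2 : s (((0 : ℤ) : ℚ) / ((1 : ℤ) : ℚ)) = s 0 := by norm_num
    rw [e1, e2] at h
    push_cast at h
    linarith
  have hz := sum_jac0 hZ hZn
  have e1 : (Fx X 1 3 - Fx X 0 1) * SS s (pr Z) (pr Z) =
      ∑ u ∈ un (pr Z), jacobiSym (u : ℤ) (pr Z) * ((Fx X 1 3 - Fx X 0 1) * (s ((u : ℚ) / (pr Z : ℕ)) - s 0)) +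
      (Fx X 1 3 - Fx X 0 1) * s 0 * ∑ u ∈ un (pr Z), jacobiSym (u : ℤ) (pr Z) := by
    rw [SS_un, mul_sum, mul_sum, ← sum_add_distrib]
    refine sum_congr rfl fun u _ => ?_
    ring
  rw [e1, hz, mul_zero, add_zero, mul_sum]
  have e2 : ∑ u ∈ un (pr Z), -3 * s 0 * (jacobiSym (u : ℤ) (pr Z) * Fx X u (pr Z)) =
      ∑ u ∈ un (pr Z), jacobiSym (u : ℤ) (pr Z) * (-3 * s 0 * (Fx X u (pr Z) - Fx X 0 1)) +
      -3 * s 0 * Fx X 0 1 * ∑ u ∈ un (pr Z), jacobiSym (u : ℤ) (pr Z) := by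
    rw [mul_sum, ← sum_add_distrib]
    refine sum_congr rfl fun u _ => ?_
    ring
  rw [e2, hz, mul_zero, add_zero]
  exact sum_congr rfl fun u hu => by rw [key u hu]

/-- the odd case -/
lemma odd_rel (h1 : S_COC) (h2 : S_PARI) (h4 : S_UOD) (h5 : S_PARB) (h8 : S_CM) {s : ℚ → ℤ} {a : ℕ → ℤ}
    (hs : SymbM s a) {X Z : Finset ℕ} (hX : Pm X) (hXn : X.Nonempty) (hX4 : pr X % 4 = 1) (hZ : Pm Z) :
    Fx X 1 3 * SS s (pr Z) (pr Z) =
      s (1 / 3) * ∑ u ∈ un (pr Z), jacobiSym (u : ℤ) (pr Z) * Fx X u (pr Z) := by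
  obtain ⟨c1, c2, c3⟩ := h8 s a hs
  have hod : ∀ x M : ℤ, Fx X (-x) M = -Fx X x M := by
    intro x M
    rw [h2 X hX hXn x M, jm1_1 hX4]
    ring
  have key : ∀ u ∈ un (pr Z), Fx X 1 3 * s ((u : ℚ) / (pr Z : ℕ)) = s (1 / 3) * Fx X u (pr Z) := by
    intro u hu
    have e3 : s (((2 : ℤ) : ℚ) / ((15 : ℤ) : ℚ)) = 0 := by
      rw [← c3]
      norm_num
    have h := h4 (Fx X) (fun x M => s ((x : ℚ) / M)) (h1 X hX hXn) c1 hod c2 (h5 X hX hXn hX4) e3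
      u (pr Z) (pos_pr hZ) (cop_un hZ hu)
    have e1 : s (((1 : ℤ) : ℚ) / ((3 : ℤ) : ℚ)) = s (1 / 3) := by norm_num
    rw [e1] at h
    push_cast at h
    linarith
  rw [SS_un, mul_sum, mul_sum]
  refine sum_congr rfl fun u hu => ?_
  have := key u hu
  linear_combination jacobiSym (u : ℤ) (pr Z) * this

/-! ### sets of primes of type `I` -/

/-- all elements are of type `I` -/
def TI (X : Finset ℕ) : Prop := ∀ p ∈ X, ¬ sq2 p ∧ ¬ sq7 p

lemma TI.sS {X : Finset ℕ} (h : TI X) : sS X = ∅ := by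
  unfold Pool.Agent.NH1.sS
  exact filter_eq_empty_iff.2 fun p hp h' => (h p hp).1 h'.1

lemma TI.sA {X : Finset ℕ} (h : TI X) : sA X = ∅ := by
  unfold Pool.Agent.NH1.sA
  exact filter_eq_empty_iff.2 fun p hp h' => (h p hp).1 h'.1

lemma TI.sB {X : Finset ℕ} (h : TI X) : sB X = ∅ := by
  unfold Pool.Agent.NH1.sB
  exact filter_eq_empty_iff.2 fun p hp h' => (h p hp).2 h'.2

lemma TI.DD {X : Finset ℕ} (h : TI X) (f : ℕ → ZMod 2) : DD f X = 1 := by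
  unfold Pool.Agent.NH1.DD
  rw [h.sS, h.sA, h.sB, empty_union]
  exact Pool.Agent.NH1.BaseAux.perm2_empty _

lemma ne_of_odd {c : ℤ} {k : ℕ} {u : ℤ} (h : c = 2 ^ k * u) (hu : (u : ZMod 2) = 1) : c ≠ 0 := by
  have hu0 : u ≠ 0 := by
    rintro rfl
    simp at hu
  rw [h]
  exact mul_ne_zero (pow_ne_zero _ (by norm_num)) hu0

lemma c_ne (m : S_MAIN) {X : Finset ℕ} (hX : Pm X) (hT : TI X) (hK : K 1 (pr X) ∨ K 7 (pr X))
    {σ : ZMod 7} {c : ℤ} (hσ : σ ^ 2 = (pr X : ZMod 7))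
    (hc : ∀ (n : ℕ) (β : ZMod 7), 0 < n → (pr X * n) % 8 = 3 →
      Y 3 X ((pr X * n : ℕ) : ℤ) (σ * β) = c * G n β) : c ≠ 0 := by
  obtain ⟨u, hu, hu2⟩ := m.1 3 X (Or.inl rfl) hX hK σ c hσ hc
  refine ne_of_odd hu ?_
  rw [hu2 (by rw [hT.sA, hT.sB]), hT.DD]

lemma G_ne (m : S_MAIN) {N : Finset ℕ} (hN : Pm N) (hT : TI N) (hK : K 3 (pr N) ∨ K 5 (pr N))
    {β : ZMod 7} (hβ : β ^ 2 = -(pr N : ZMod 7)) : G (pr N) β ≠ 0 := by
  obtain ⟨u, hu, hu2⟩ := m.2 N hN hK β hβ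
  refine ne_of_odd hu ?_
  rw [hu2 (by rw [hT.sA, hT.sB]), hT.DD]

lemma pr_single (q : ℕ) : pr {q} = q := by
  unfold Pool.Agent.Z700.pr
  rw [prod_singleton]

/-- a large prime in a class modulo `56` -/
lemma exists_prime (a : ℕ) (ha : Nat.Coprime a 56) (n : ℕ) : ∃ q : ℕ, n < q ∧ q.Prime ∧ q % 56 = a % 56 := by
  have hu : IsUnit ((a : ℕ) : ZMod 56) := (ZMod.isUnit_iff_coprime a 56).2 ha
  obtain ⟨p, hp, hpp, hpa⟩ := Nat.forall_exists_prime_gt_and_eq_mod hu n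
  refine ⟨p, hp, hpp, ?_⟩
  exact (ZMod.natCast_eq_natCast_iff' _ _ _).1 hpa

lemma notMem_of_gt {P : Finset ℕ} {q : ℕ} (h : pr P < q) (hP : Pm P) : q ∉ P := by
  intro hq
  have := Nat.le_of_dvd (Pool.Agent.Z700.pr_pos (prime_of hP)) (Pool.Agent.Z700.dvd_pr hq)
  omega

lemma K_mul13 {a b : ℕ} (h1 : K 1 a) (h2 : K 3 b) : K 3 (a * b) := by
  obtain ⟨h3, h4⟩ := h1
  obtain ⟨h5, h6⟩ := h2
  rw [if_pos (by norm_num)] at h4
  rw [if_neg (by norm_num)] at h6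
  refine ⟨?_, ?_⟩
  · rw [Nat.mul_mod, h3, h5]
  · rw [if_neg (by norm_num), Nat.mul_mod]
    rcases h4 with h | h | h <;> rcases h6 with h' | h' | h' <;> rw [h, h'] <;> norm_num

lemma K_mul75 {a b : ℕ} (h1 : K 7 a) (h2 : K 5 b) : K 3 (a * b) := by
  obtain ⟨h3, h4⟩ := h1
  obtain ⟨h5, h6⟩ := h2
  rw [if_pos (by norm_num)] at h4
  rw [if_neg (by norm_num)] at h6
  refine ⟨?_, ?_⟩
  · rw [Nat.mul_mod, h3, h5]
  · rw [if_neg (by norm_num), Nat.mul_mod]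
    rcases h4 with h | h | h <;> rcases h6 with h' | h' | h' <;> rw [h, h'] <;> norm_num

/-- the diagonal identities with the constants of `S_A2` -/
lemma dia (h6 : S_DIA) {X Z : Finset ℕ} (hX : Pm X) (hZ : Pm Z) (hd : Disjoint X Z) (hXn : X.Nonempty)
    (hZn : Z.Nonempty) (hK : K 3 (pr X * pr Z)) (hKX : K 1 (pr X) ∨ K 7 (pr X)) {σ β : ZMod 7} {c : ℤ}
    (hσ : σ ^ 2 = (pr X : ZMod 7)) (hβ : β ^ 2 = -(pr Z : ZMod 7))
    (hc : ∀ (n : ℕ) (β : ZMod 7), 0 < n → (pr X * n) % 8 = 3 →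
      Y 3 X ((pr X * n : ℕ) : ℤ) (σ * β) = c * G n β) :
    3 * ∑ u ∈ un (pr Z), jacobiSym u (pr Z) * Fx X u (pr Z) =
      jacobiSym (-1) (pr X) * (c * G (pr Z) β) ^ 2 ∧
    3 * ∑ u ∈ un (pr X), jacobiSym u (pr X) * Fx Z u (pr X) =
      - jacobiSym (-1) (pr Z) * (c * G (pr Z) β) ^ 2 := by
  have hXZ : Pm (X ∪ Z) := by
    intro p hp
    rcases mem_union.1 hp with h | h
    · exact hX p h
    · exact hZ p h
  have hb : (σ * β) ^ 2 = -((pr X * pr Z : ℕ) : ZMod 7) := by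
    rw [mul_pow, hσ, hβ]
    push_cast
    ring
  have h := h6 X Z hXZ hd hXn hZn hK hKX (σ * β) hb
  rw [hc (pr Z) β (Pool.Agent.Z700.pr_pos (prime_of hZ)) hK.1] at h
  exact h

/-! ### the base values -/

lemma pr3 : ((pr {3} : ℕ) : ℤ) = 3 := by
  rw [pr_single]
  rfl

lemma Fm3 {k : ℤ} (hk : k = 13 ∨ k = 15) {q : ℤ × ℤ × ℤ} (h : Fm {3} k q) : Pool.Agent.Z700.Fm q := by
  obtain ⟨h1, h2, h3⟩ := h
  rw [pr3] at h1 h3
  refine ⟨by linarith, h2, ?_⟩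
  rcases hk with rfl | rfl
  · left; omega
  · right; omega

lemma Nr3_form {k : ℤ} (hk : k = 13 ∨ k = 15) {A B C : ℤ} (h : Fm {3} k (A, B, C) ∧ 0 < A ∧ ev (A, B, C) 1 3 < 0) :
    k = 15 ∧ A = 14 ∧ B = -11 ∧ C = 2 := by
  have h9 := Fm3 hk h.1
  obtain ⟨⟨e1, e2, e3⟩, h7, h8⟩ := h
  have h8' : A * 1 ^ 2 + B * 1 * 3 + C * 3 ^ 2 < 0 := h8
  obtain ⟨h1, h2, h3⟩ := Pool.Agent.Y681.Z7.bound' (x := 1) (M := 3) (by norm_num) ⟨h9, h7, h8'⟩
  obtain ⟨h4, ⟨l, h5⟩, h6⟩ := h9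
  rw [pr3] at e3
  simp only at h4 h5 h6 e3
  subst h5
  have hl : l = 1 := by omega
  subst hl
  have hB : B = -11 := by omega
  subst hB
  have hC : C = 2 := by omega
  refine ⟨?_, by norm_num, rfl, hC⟩
  rcases hk with rfl | rfl
  · omega
  · rfl

lemma Nr3_13 : Nr {3} 13 1 3 = 0 := by
  classical
  unfold Nr
  rw [finsum_eq_zero_of_forall_eq_zero]
  rintro ⟨A, B, C⟩
  rw [if_neg]
  intro h
  have := (Nr3_form (Or.inl rfl) h).1
  norm_num at this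

lemma Nr3_15 : Nr {3} 15 1 3 = -1 := by
  classical
  have hs : Function.support (fun q : ℤ × ℤ × ℤ =>
      if Fm {3} 15 q ∧ 0 < q.1 ∧ ev q 1 3 < 0 then cx {3} q else 0) ⊆
      (({(14, -11, 2)} : Finset (ℤ × ℤ × ℤ)) : Set (ℤ × ℤ × ℤ)) := by
    rintro ⟨A, B, C⟩ hq
    have h : Fm {3} 15 (A, B, C) ∧ 0 < A ∧ ev (A, B, C) 1 3 < 0 := by
      by_contra h
      exact hq (if_neg h)
    obtain ⟨_, rfl, rfl, rfl⟩ := Nr3_form (Or.inr rfl) h
    simp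
  unfold Nr
  rw [finsum_eq_sum_of_support_subset _ hs, Finset.sum_singleton, if_pos]
  · unfold cx
    rw [prod_singleton, if_neg (by norm_num)]
    have : jacobiSym 14 3 = -1 := by norm_num
    exact this
  · refine ⟨⟨?_, by norm_num, ?_⟩, by norm_num, ?_⟩
    · rw [pr3]; norm_num
    · rw [pr3]; norm_num
    · unfold ev; norm_num

lemma Nr3_0 {k : ℤ} : Nr {3} k 0 1 = 0 := by
  classical
  unfold Nr
  rw [finsum_eq_zero_of_forall_eq_zero]
  rintro ⟨A, B, C⟩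
  rw [if_neg]
  rintro ⟨⟨e1, ⟨l, e2⟩, e3⟩, h7, h8⟩
  rw [pr3] at e1
  unfold ev at h8
  simp only at e1 e2 h7 h8
  subst e2
  have hl : 1 ≤ l := by omega
  have hC : C ≤ -1 := by
    have : C < 0 := by linarith
    omega
  nlinarith [sq_nonneg B, mul_nonneg (by linarith : (0 : ℤ) ≤ l - 1) (by linarith : (0 : ℤ) ≤ -1 - C)]

lemma kappa3 : Fx {3} 1 3 - Fx {3} 0 1 = -1 := by
  unfold Fx
  rw [Nr3_13, Nr3_15, Nr3_0, Nr3_0]
  rw [pr_single, jm1_3 (by norm_num)]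
  norm_num

set_option maxRecDepth 100000 in
lemma Y35 {σ : ZMod 7} (hσ : σ ^ 2 = ((3 * 5 : ℕ) : ZMod 7)) :
    Y 3 {3, 5} ((75 : ℤ)) (σ * ((3 : ℤ) : ZMod 7)) = 6 ∨ Y 3 {3, 5} ((75 : ℤ)) (σ * ((3 : ℤ) : ZMod 7)) = -6 := by
  exact Pool.Agent.NH1.BaseAux.y_step t_PHI (by decide) Pool.Agent.NH1.BaseAux.o3 Pool.Agent.NH1.BaseAux.o5 3 8 75
    (by norm_num) (by norm_num) (by decide) (by decide) 1 3 _ (by decide) (by decide +kernel) (by decide +kernel) σ hσ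

lemma pr_pair {p q : ℕ} (h : p ≠ q) : pr {p, q} = p * q := by
  unfold Pool.Agent.Z700.pr
  rw [prod_pair h]

lemma c35 {σ : ZMod 7} {c : ℤ} (hσ : σ ^ 2 = (pr {3, 5} : ZMod 7))
    (hc : ∀ (n : ℕ) (β : ZMod 7), 0 < n → (pr {3, 5} * n) % 8 = 3 →
      Y 3 {3, 5} ((pr {3, 5} * n : ℕ) : ℤ) (σ * β) = c * G n β) : c ^ 2 = 4 := by
  rw [pr_pair (by norm_num)] at hσ hc
  have h1 := hc 5 ((3 : ℤ) : ZMod 7) (by norm_num) (by norm_num)
  rw [Pool.Agent.NH1.BaseAux.g53] at h1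
  have e : (((3 * 5 * 5 : ℕ)) : ℤ) = 75 := by norm_num
  rw [e] at h1
  rcases Y35 hσ with h | h
  · have : c = -2 := by linarith
    rw [this]; norm_num
  · have : c = 2 := by linarith
    rw [this]; norm_num

/-! ### the even symbol -/

lemma Pm_single {q : ℕ} (hq : q.Prime) (h2 : q ≠ 2) (h7 : q ≠ 7) : Pm {q} := by
  intro p hp
  rw [mem_singleton] at hp
  subst hp
  exact ⟨hq, h2, h7⟩

lemma Pm_pair {p q : ℕ} (hp : p.Prime ∧ p ≠ 2 ∧ p ≠ 7) (hq : q.Prime ∧ q ≠ 2 ∧ q ≠ 7) : Pm {p, q} := by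
  intro r hr
  rw [mem_insert, mem_singleton] at hr
  rcases hr with rfl | rfl
  · exact hp
  · exact hq

lemma cast_zmod7 {q r : ℕ} (h : q % 7 = r % 7) : (q : ZMod 7) = (r : ZMod 7) :=
  (ZMod.natCast_eq_natCast_iff' _ _ _).2 h

/-- the relation with an additional prime `q = 3 mod 56` -/
lemma rel_A (h1 : S_COC) (h2 : S_PARI) (h3 : S_UEV) (h6 : S_DIA) (h7 : S_CS) {s : ℚ → ℤ} {a : ℕ → ℤ}
    (hs : Symb2 s a) {P : Finset ℕ} (hP : Pm P) (hPn : P.Nonempty) (hK : K 1 (pr P)) {σ : ZMod 7} {c : ℤ}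
    (hσ : σ ^ 2 = (pr P : ZMod 7))
    (hc : ∀ (n : ℕ) (β : ZMod 7), 0 < n → (pr P * n) % 8 = 3 →
      Y 3 P ((pr P * n : ℕ) : ℤ) (σ * β) = c * G n β) {q : ℕ} (hq : q.Prime) (hq56 : q % 56 = 3) (hqP : q ∉ P) :
    (Fx {q} 1 3 - Fx {q} 0 1) * SS s (pr P) (pr P) = -s 0 * (c * G q ((2 : ℤ) : ZMod 7)) ^ 2 := by
  have hqm : Pm {q} := Pm_single hq (by omega) (by omega)
  have hd : Disjoint P {q} := by rwa [disjoint_singleton_right]
  have hKq : K 3 (pr {q}) := by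
    rw [pr_single]
    refine ⟨by omega, ?_⟩
    rw [if_neg (by norm_num)]
    left; omega
  have hβ : (((2 : ℤ) : ZMod 7)) ^ 2 = -(pr {q} : ZMod 7) := by
    rw [pr_single, cast_zmod7 (show q % 7 = 3 % 7 by omega)]
    decide
  have e1 := even_rel h1 h2 h3 h7 hs hqm (singleton_nonempty q) (by rw [pr_single]; omega) hP hPn
  have e2 := (dia h6 hP hqm hd hPn (singleton_nonempty q) (K_mul13 hK hKq) (Or.inl hK) hσ hβ hc).2
  rw [pr_single, jm1_3 (show q % 4 = 3 by omega)] at e2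
  rw [e1]
  linear_combination (-s 0) * e2

lemma TI_single {q : ℕ} (h : ¬ sq2 q ∧ ¬ sq7 q) : TI {q} := by
  intro p hp
  rw [mem_singleton] at hp
  subst hp
  exact h

lemma kappa_q (h1 : S_COC) (h2 : S_PARI) (h3 : S_UEV) (h6 : S_DIA) (h7 : S_CS) (m : S_MAIN) (a2 : S_A2)
    {s : ℚ → ℤ} {a : ℕ → ℤ} (hs : Symb2 s a) {q : ℕ} (hq : q.Prime) (hq56 : q % 56 = 3) :
    Fx {q} 1 3 - Fx {q} 0 1 = -G q ((2 : ℤ) : ZMod 7) ^ 2 := by
  have hP : Pm {5, 13} := Pm_pair (by norm_num) (by norm_num)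
  have hpr : pr {5, 13} = 65 := by rw [pr_pair (by norm_num)]
  have hK : K 1 (pr {5, 13}) := by rw [hpr]; decide
  have hσ : (((3 : ℕ) : ZMod 7)) ^ 2 = (pr {5, 13} : ZMod 7) := by rw [hpr]; decide
  obtain ⟨c, hc⟩ := a2 3 {5, 13} ((3 : ℕ) : ZMod 7) (Or.inl rfl) hP (Or.inl hK) hσ
  have hT : TI {5, 13} := by
    intro p hp
    rw [mem_insert, mem_singleton] at hp
    rcases hp with rfl | rfl <;> decide
  have hc0 : c ≠ 0 := c_ne m hP hT (Or.inl hK) hσ hc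
  have hs0 : s 0 ≠ 0 := by
    have := hs.odd0
    rintro h
    rw [h] at this
    exact absurd this (by decide)
  have hne : ({5, 13} : Finset ℕ).Nonempty := ⟨5, by simp⟩
  have e1 := rel_A h1 h2 h3 h6 h7 hs hP hne hK hσ hc (q := 3) (by norm_num) (by norm_num) (by decide)
  rw [kappa3, Pool.Agent.NH1.BaseAux.g32] at e1
  have hq5 : q ∉ ({5, 13} : Finset ℕ) := by
    rw [mem_insert, mem_singleton]
    omega
  have e2 := rel_A h1 h2 h3 h6 h7 hs hP hne hK hσ hc hq hq56 hq5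
  have e3 : SS s (pr {5, 13}) (pr {5, 13}) = s 0 * c ^ 2 := by linarith
  rw [e3] at e2
  have hne2 : s 0 * c ^ 2 ≠ 0 := mul_ne_zero hs0 (pow_ne_zero _ hc0)
  apply mul_right_cancel₀ hne2
  rw [e2]
  ring

end VL

/-- VI: the value for the numbers of the class `K 1` -/
theorem t_VI (h1 : S_COC) (h2 : S_PARI) (h3 : S_UEV) (h6 : S_DIA) (h7 : S_CS) (m : S_MAIN) (a2 : S_A2) :
    S_VI := by
  intro s a hs _ P hP hPn hK σ c hσ hc
  obtain ⟨q, hq1, hq, hq56⟩ := VL.exists_prime 3 (by decide) (pr P)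
  have hq56' : q % 56 = 3 := by omega
  have e1 := VL.rel_A h1 h2 h3 h6 h7 hs hP hPn hK hσ hc hq hq56' (VL.notMem_of_gt hq1 hP)
  rw [VL.kappa_q h1 h2 h3 h6 h7 m a2 hs hq hq56'] at e1
  have hG : G q ((2 : ℤ) : ZMod 7) ≠ 0 := by
    have hqm : Pm {q} := VL.Pm_single hq (by omega) (by omega)
    have hKq : K 3 (pr {q}) := by
      rw [VL.pr_single]
      refine ⟨by omega, ?_⟩
      rw [if_neg (by norm_num)]
      left; omega
    have hβ : (((2 : ℤ) : ZMod 7)) ^ 2 = -(pr {q} : ZMod 7) := by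
      rw [VL.pr_single, VL.cast_zmod7 (show q % 7 = 3 % 7 by omega)]
      decide
    have := VL.G_ne m hqm (VL.TI_single (q := q) ⟨by unfold sq2; omega, by unfold sq7; omega⟩) (Or.inl hKq) hβ
    rwa [VL.pr_single] at this
  have hG2 : -G q ((2 : ℤ) : ZMod 7) ^ 2 ≠ 0 := neg_ne_zero.2 (pow_ne_zero _ hG)
  apply mul_left_cancel₀ hG2
  rw [e1]
  ring

/-- VII: the value for the numbers of the class `K 5` -/
theorem t_VII (h1 : S_COC) (h2 : S_PARI) (h3 : S_UEV) (h6 : S_DIA) (h7 : S_CS) (m : S_MAIN) (a2 : S_A2) :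
    S_VII := by
  intro s a hs ha5 N hN hKN β hβ
  obtain ⟨q1, hq11, hq1, hq156⟩ := VL.exists_prime 3 (by decide) (pr N)
  obtain ⟨q2, hq21, hq2, hq256⟩ := VL.exists_prime 5 (by decide) (pr N + 5)
  have h156 : q1 % 56 = 3 := by omega
  have h256 : q2 % 56 = 5 := by omega
  have hne : q1 ≠ q2 := by omega
  have hX : Pm {q1, q2} := VL.Pm_pair ⟨hq1, by omega, by omega⟩ ⟨hq2, by omega, by omega⟩
  have hpr : pr {q1, q2} = q1 * q2 := VL.pr_pair hne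
  have hm56 : (q1 * q2) % 56 = 15 := by rw [Nat.mul_mod, h156, h256]
  have hKX : K 7 (pr {q1, q2}) := by
    rw [hpr]
    refine ⟨by omega, ?_⟩
    rw [if_pos (by norm_num)]
    left; omega
  have hσ : (((1 : ℕ) : ZMod 7)) ^ 2 = (pr {q1, q2} : ZMod 7) := by
    rw [hpr, VL.cast_zmod7 (show (q1 * q2) % 7 = 1 % 7 by omega)]
    decide
  obtain ⟨c, hc⟩ := a2 3 {q1, q2} ((1 : ℕ) : ZMod 7) (Or.inl rfl) hX (Or.inr hKX) hσ
  have hT : VL.TI {q1, q2} := by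
    intro p hp
    rw [mem_insert, mem_singleton] at hp
    rcases hp with rfl | rfl
    · exact ⟨by unfold sq2; omega, by unfold sq7; omega⟩
    · exact ⟨by unfold sq2; omega, by unfold sq7; omega⟩
  have hc0 : c ≠ 0 := VL.c_ne m hX hT (Or.inr hKX) hσ hc
  have hs0 : s 0 ≠ 0 := by
    have := hs.odd0
    rintro h
    rw [h] at this
    exact absurd this (by decide)
  have hXn : ({q1, q2} : Finset ℕ).Nonempty := ⟨q1, by simp⟩
  have hX4 : pr {q1, q2} % 4 = 3 := by rw [hpr]; omega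
  -- the relation for a set `Z` of the class `K 5`
  have rel : ∀ (Z : Finset ℕ), Pm Z → Z.Nonempty → K 5 (pr Z) → q1 ∉ Z → q2 ∉ Z → ∀ β : ZMod 7,
      β ^ 2 = -(pr Z : ZMod 7) → (Fx {q1, q2} 1 3 - Fx {q1, q2} 0 1) * SS s (pr Z) (pr Z) =
        s 0 * (c * G (pr Z) β) ^ 2 := by
    intro Z hZ hZn hKZ hz1 hz2 β hβ
    have hd : Disjoint ({q1, q2} : Finset ℕ) Z := by
      rw [disjoint_left]
      intro p hp
      rw [mem_insert, mem_singleton] at hp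
      rcases hp with rfl | rfl
      · exact hz1
      · exact hz2
    have e1 := VL.even_rel h1 h2 h3 h7 hs hX hXn hX4 hZ hZn
    have e2 := (VL.dia h6 hX hZ hd hXn hZn (VL.K_mul75 hKX hKZ) (Or.inr hKX) hσ hβ hc).1
    rw [VL.jm1_3 hX4] at e2
    rw [e1]
    linear_combination (-s 0) * e2
  -- the base
  have hs5 : SS s 5 5 = 18 * s 0 := by
    have h15 := hs.s15
    have h25 := hs.s25 (k := 0) (by rw [ha5]; norm_num)
    have h45 : s (4 / 5) = s (1 / 5) := by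
      have e1 := hs.per (-(1 / 5))
      have e2 := hs.neg (1 / 5)
      norm_num at e1 e2
      rw [e1, e2]
    have h35 : s (3 / 5) = s (2 / 5) := by
      have e1 := hs.per (-(2 / 5))
      have e2 := hs.neg (2 / 5)
      norm_num at e1 e2
      rw [e1, e2]
    have hr : rr 5 = {1, 2, 3, 4} := by decide
    unfold Pool.Agent.Y687.SS
    rw [hr, sum_insert (by decide), sum_insert (by decide), sum_insert (by decide), sum_singleton]
    have j1 : jacobiSym ((1 : ℕ) : ℤ) 5 = 1 := by norm_num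
    have j2 : jacobiSym ((2 : ℕ) : ℤ) 5 = -1 := by norm_num
    have j3 : jacobiSym ((3 : ℕ) : ℤ) 5 = -1 := by norm_num
    have j4 : jacobiSym ((4 : ℕ) : ℤ) 5 = 1 := by norm_num
    rw [j1, j2, j3, j4]
    push_cast
    rw [h45, h35, h25, h15]
    ring
  have hP5 : Pm {5} := VL.Pm_single (by norm_num) (by norm_num) (by norm_num)
  have hK5 : K 5 (pr {5}) := by rw [VL.pr_single]; decide
  have hβ5 : (((3 : ℤ) : ZMod 7)) ^ 2 = -(pr {5} : ZMod 7) := by rw [VL.pr_single]; decide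
  have e5 := rel {5} hP5 (singleton_nonempty 5) hK5 (by rw [mem_singleton]; omega) (by rw [mem_singleton]; omega)
    ((3 : ℤ) : ZMod 7) hβ5
  rw [VL.pr_single, Pool.Agent.NH1.BaseAux.g53, hs5] at e5
  have hκ : 2 * (Fx {q1, q2} 1 3 - Fx {q1, q2} 0 1) = c ^ 2 := by
    apply mul_right_cancel₀ hs0
    linarith
  have hNn : N.Nonempty := by
    rw [nonempty_iff_ne_empty]
    rintro rfl
    have := hKN.1
    unfold Pool.Agent.Z700.pr at this
    simp at this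
  have hq1N : q1 ∉ N := VL.notMem_of_gt hq11 hN
  have hq2N : q2 ∉ N := VL.notMem_of_gt (by omega) hN
  have eN := rel N hN hNn hKN hq1N hq2N β hβ
  have hc2 : c ^ 2 ≠ 0 := pow_ne_zero _ hc0
  apply mul_left_cancel₀ hc2
  linear_combination 2 * eN - hκ * SS s (pr N) (pr N)

namespace VL

/-! ### the odd symbol -/

lemma SS15 {s : ℚ → ℤ} {a : ℕ → ℤ} (hs : SymbM s a) (h2 : s (2 / 15) = 0) : SS s 15 15 = 4 * s (1 / 3) := by
  have h0 : s 0 = 0 := by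
    have := hs.neg 0
    rw [neg_zero] at this
    linarith
  have h1 : s 1 = 0 := by
    have := hs.per 0
    rw [zero_add] at this
    rw [this, h0]
  have h115 : s (1 / 15) = 0 := by
    have := hs.aff (A := 1) (B := 0) (C' := 1) (D := 1) (by norm_num) (x := 1) (c := 1) (by norm_num)
    norm_num at this
    rw [this, h1, h0]
    norm_num
  have h815 : s (8 / 15) = 0 := by
    have := hs.inv 15 2 8 (by norm_num) (by norm_num)
    push_cast at this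
    rw [← this, h2]
  have h715 : s (7 / 15) = 0 := by
    have e1 := hs.per (-(7 / 15))
    have e2 := hs.neg (7 / 15)
    norm_num at e1 e2
    rw [h815] at e1
    linarith
  have h15 : s (1 / 5) = s (1 / 3) := by
    have e1 := hs.aff (A := -5) (B := 1) (C' := 1) (D := -3) (by norm_num) (x := 1) (c := 5) (by norm_num)
    have e2 := hs.neg (1 / 3)
    norm_num at e1 e2
    rw [h0] at e1
    linarith
  have h35 : s (3 / 5) = -s (2 / 5) := by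
    have e1 := hs.per (-(2 / 5))
    have e2 := hs.neg (2 / 5)
    norm_num at e1 e2
    rw [e1, e2]
  have h1115 : s (11 / 15) = -s (4 / 15) := by
    have e1 := hs.per (-(4 / 15))
    have e2 := hs.neg (4 / 15)
    norm_num at e1 e2
    rw [e1, e2]
  have h1315 : s (13 / 15) = -s (2 / 15) := by
    have e1 := hs.per (-(2 / 15))
    have e2 := hs.neg (2 / 15)
    norm_num at e1 e2
    rw [e1, e2]
  have h1415 : s (14 / 15) = -s (1 / 15) := by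
    have e1 := hs.per (-(1 / 15))
    have e2 := hs.neg (1 / 15)
    norm_num at e1 e2
    rw [e1, e2]
  have h415 : s (4 / 15) = 2 * s (1 / 3) := by
    have e1 := hs.hecke 3 Nat.prime_three (by norm_num) (1 / 5)
    rw [hs.a3] at e1
    simp only [Finset.sum_range_succ, Finset.sum_range_zero] at e1
    norm_num at e1
    rw [h35, h115, h1115, h15] at e1
    linarith
  have hr : rr 15 = {1, 2, 4, 7, 8, 11, 13, 14} := by decide
  unfold Pool.Agent.Y687.SS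
  rw [hr, sum_insert (by decide), sum_insert (by decide), sum_insert (by decide), sum_insert (by decide),
    sum_insert (by decide), sum_insert (by decide), sum_insert (by decide), sum_singleton]
  have j1 : jacobiSym ((1 : ℕ) : ℤ) 15 = 1 := by norm_num
  have j2 : jacobiSym ((2 : ℕ) : ℤ) 15 = 1 := by norm_num
  have j4 : jacobiSym ((4 : ℕ) : ℤ) 15 = 1 := by norm_num
  have j7 : jacobiSym ((7 : ℕ) : ℤ) 15 = -1 := by norm_num
  have j8 : jacobiSym ((8 : ℕ) : ℤ) 15 = 1 := by norm_num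
  have j11 : jacobiSym ((11 : ℕ) : ℤ) 15 = -1 := by norm_num
  have j13 : jacobiSym ((13 : ℕ) : ℤ) 15 = -1 := by norm_num
  have j14 : jacobiSym ((14 : ℕ) : ℤ) 15 = -1 := by norm_num
  rw [j1, j2, j4, j7, j8, j11, j13, j14]
  push_cast
  rw [h115, h2, h415, h715, h815, h1115, h1315, h1415, h415, h2, h115]
  ring

/-- the relation with an additional prime `q = 5 mod 56` -/
lemma rel_C (h1 : S_COC) (h2 : S_PARI) (h4 : S_UOD) (h5 : S_PARB) (h6 : S_DIA) (h8 : S_CM) {s : ℚ → ℤ}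
    {a : ℕ → ℤ} (hs : SymbM s a) {P : Finset ℕ} (hP : Pm P) (hPn : P.Nonempty) (hK : K 7 (pr P)) {σ : ZMod 7}
    {c : ℤ} (hσ : σ ^ 2 = (pr P : ZMod 7))
    (hc : ∀ (n : ℕ) (β : ZMod 7), 0 < n → (pr P * n) % 8 = 3 →
      Y 3 P ((pr P * n : ℕ) : ℤ) (σ * β) = c * G n β) {q : ℕ} (hq : q.Prime) (hq56 : q % 56 = 5) (hqP : q ∉ P) :
    3 * Fx {q} 1 3 * SS s (pr P) (pr P) = -s (1 / 3) * (c * G q ((3 : ℤ) : ZMod 7)) ^ 2 := by
  have hqm : Pm {q} := Pm_single hq (by omega) (by omega)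
  have hd : Disjoint P {q} := by rwa [disjoint_singleton_right]
  have hKq : K 5 (pr {q}) := by
    rw [pr_single]
    refine ⟨by omega, ?_⟩
    rw [if_neg (by norm_num)]
    right; left; omega
  have hβ : (((3 : ℤ) : ZMod 7)) ^ 2 = -(pr {q} : ZMod 7) := by
    rw [pr_single, cast_zmod7 (show q % 7 = 5 % 7 by omega)]
    decide
  have e1 := odd_rel h1 h2 h4 h5 h8 hs hqm (singleton_nonempty q) (by rw [pr_single]; omega) hP
  have e2 := (dia h6 hP hqm hd hPn (singleton_nonempty q) (K_mul75 hK hKq) (Or.inr hK) hσ hβ hc).2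
  rw [pr_single, jm1_1 (show q % 4 = 1 by omega)] at e2
  linear_combination 3 * e1 + s (1 / 3) * e2

lemma F13_q (h1 : S_COC) (h2 : S_PARI) (h4 : S_UOD) (h5 : S_PARB) (h6 : S_DIA) (h8 : S_CM) (a2 : S_A2)
    {q : ℕ} (hq : q.Prime) (hq56 : q % 56 = 5) (hq5 : q ≠ 5) :
    3 * Fx {q} 1 3 = -G q ((3 : ℤ) : ZMod 7) ^ 2 := by
  obtain ⟨_, _, s, _, _, _, _, _, _, _, _, hs, hs13⟩ := Pool.Agent.Y687.N.exists_symbM
  have hP : Pm {3, 5} := Pm_pair (by norm_num) (by norm_num)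
  have hpr : pr {3, 5} = 15 := by rw [pr_pair (by norm_num)]
  have hK : K 7 (pr {3, 5}) := by rw [hpr]; decide
  have hσ : (((1 : ℕ) : ZMod 7)) ^ 2 = (pr {3, 5} : ZMod 7) := by rw [hpr]; decide
  obtain ⟨c, hc⟩ := a2 3 {3, 5} ((1 : ℕ) : ZMod 7) (Or.inl rfl) hP (Or.inr hK) hσ
  have hc2 := c35 hσ hc
  have hne : ({3, 5} : Finset ℕ).Nonempty := ⟨3, by simp⟩
  have hq35 : q ∉ ({3, 5} : Finset ℕ) := by
    rw [mem_insert, mem_singleton]
    omega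
  have e1 := rel_C h1 h2 h4 h5 h6 h8 hs hP hne hK hσ hc hq hq56 hq35
  rw [hpr, SS15 hs (h8 s _ hs).2.2, mul_pow, hc2] at e1
  have hne2 : 4 * s (1 / 3) ≠ 0 := mul_ne_zero (by norm_num) hs13
  apply mul_right_cancel₀ hne2
  rw [e1]
  ring

end VL

/-- VIII: the value for the numbers of the class `K 7` -/
theorem t_VIII (h1 : S_COC) (h2 : S_PARI) (h4 : S_UOD) (h5 : S_PARB) (h6 : S_DIA) (h8 : S_CM)
    (m : S_MAIN) (a2 : S_A2) : S_VIII := by
  intro s a hs P hP hK σ c hσ hc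
  obtain ⟨q, hq1, hq, hq56⟩ := VL.exists_prime 5 (by decide) (pr P + 5)
  have hq56' : q % 56 = 5 := by omega
  have hPn : P.Nonempty := by
    rw [nonempty_iff_ne_empty]
    rintro rfl
    have := hK.1
    unfold Pool.Agent.Z700.pr at this
    simp at this
  have e1 := VL.rel_C h1 h2 h4 h5 h6 h8 hs hP hPn hK hσ hc hq hq56' (VL.notMem_of_gt (by omega) hP)
  rw [VL.F13_q h1 h2 h4 h5 h6 h8 a2 hq hq56' (by omega)] at e1
  have hG : G q ((3 : ℤ) : ZMod 7) ≠ 0 := by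
    have hqm : Pm {q} := VL.Pm_single hq (by omega) (by omega)
    have hKq : K 5 (pr {q}) := by
      rw [VL.pr_single]
      refine ⟨by omega, ?_⟩
      rw [if_neg (by norm_num)]
      right; left; omega
    have hβ : (((3 : ℤ) : ZMod 7)) ^ 2 = -(pr {q} : ZMod 7) := by
      rw [VL.pr_single, VL.cast_zmod7 (show q % 7 = 5 % 7 by omega)]
      decide
    have := VL.G_ne m hqm (VL.TI_single (q := q) ⟨by unfold sq2; omega, by unfold sq7; omega⟩) (Or.inr hKq) hβ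
    rwa [VL.pr_single] at this
  have hG2 : -G q ((3 : ℤ) : ZMod 7) ^ 2 ≠ 0 := neg_ne_zero.2 (pow_ne_zero _ hG)
  apply mul_left_cancel₀ hG2
  rw [e1]
  ring

end Pool.Agent.NH2
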