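import Pool.Agent.NH2.Defs
import Pool.Agent.NH1.Prod
import Pool.Agent.NH1.Rel

/-!
# Project NH2: the sums of the characters vanish, the weights of the pairs of vectors
-/

set_option autoImplicit false

namespace Pool.Agent.NH2

open Finset Matrix
open Pool.Agent.Z700 (V3 vec pr cp cp7 Ln n0 ep loc un Fp)
open Pool.Agent.NH1

namespace Wtv

/-- selection of a sign pattern -/
theorem sel {N P : Finset ℕ} (hP : P ⊆ N) (c : ℕ → ℤ) (hc : ∀ p ∈ N, c p = 1 ∨ c p = -1)
    [∀ D : Finset ℕ, Decidable (∀ p ∈ N, c p = Rl.de D p)] :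
    ∑ D ∈ N.powerset, (if ∀ p ∈ N, c p = Rl.de D p then ∏ p ∈ P, Rl.de D p else 0) =
      ∏ p ∈ P, c p := by
  classical
  have hD : ∀ p ∈ N, c p = Rl.de (N.filter fun p => c p = -1) p := by
    intro p hp
    unfold Rl.de
    split_ifs with h
    · exact (Finset.mem_filter.1 h).2
    · rcases hc p hp with h1 | h1
      · exact h1
      · exact absurd (Finset.mem_filter.2 ⟨hp, h1⟩) h
  rw [Finset.sum_eq_single (N.filter fun p => c p = -1)]
  · rw [if_pos hD]
    exact Finset.prod_congr rfl fun p hp => (hD p (hP hp)).symm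
  · intro D hDN hne
    rw [if_neg]
    intro h
    apply hne
    ext p
    rw [Finset.mem_filter]
    constructor
    · intro hp
      have hpN := Finset.mem_powerset.1 hDN hp
      refine ⟨hpN, ?_⟩
      rw [h p hpN]
      unfold Rl.de
      rw [if_pos hp]
    · rintro ⟨hpN, hp⟩
      by_contra hcon
      have h1 := h p hpN
      unfold Rl.de at h1
      rw [if_neg hcon, hp] at h1
      norm_num at h1
  · intro h
    exact absurd (Finset.mem_powerset.2 (Finset.filter_subset _ _)) h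

end Wtv

/-- **the sums of the characters of an admissible set vanish** -/
theorem t_VAN (h0 : S_PHI) (h1 : S_ROT) (h2 : S_EQU) : S_VAN := by
  classical
  intro N hN hK β hβ P hPN hPne hKP
  have hPm : Pm P := fun p hp => hN p (hPN hp)
  set L := (vec (pr N : ℤ)).filter fun v => Ln n0 β v with hL
  have hJ : jacobiSym 2 (pr P) = 1 := by
    rw [Rl.jac2 (Rl.pr_odd hPm), if_pos]
    rcases hKP with h | h
    · exact Or.inl h.1
    · exact Or.inr h.1
  have hRcard : ∀ γ : ℕ → ℤ, (R N β γ : ℤ) =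
      ∑ v ∈ L, if ∀ p ∈ N, ph p (rd p v) = γ p then 1 else 0 := by
    intro γ
    rw [Finset.sum_boole, hL, Finset.filter_filter]
    unfold R
    congr
  have hj2 : ∀ p ∈ N, jacobiSym 2 p = 1 ∨ jacobiSym 2 p = -1 := by
    intro p hp
    rw [Rl.jac2 ((hN p hp).1.odd_of_ne_two (hN p hp).2.1)]
    split_ifs <;> simp
  have hpm : ∀ v ∈ L, ∀ p ∈ N, ph p (rd p v) = 1 ∨ ph p (rd p v) = -1 := by
    intro v hv p hp
    exact Rl.ph_pm h0 hN (Finset.mem_filter.1 hv).1 hp
  have s1 : ∑ D ∈ N.powerset, (∏ p ∈ P, Rl.de D p) * (R N β (Rl.de D) : ℤ) =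
      ∑ v ∈ L, Ph P v := by
    simp_rw [hRcard, Finset.mul_sum]
    rw [Finset.sum_comm]
    refine Finset.sum_congr rfl fun v hv => ?_
    have := Wtv.sel hPN (fun p => ph p (rd p v)) (hpm v hv)
    unfold Ph
    rw [← this]
    refine Finset.sum_congr rfl fun D _ => ?_
    split_ifs <;> simp
  have s2 : ∑ D ∈ N.powerset, (∏ p ∈ P, Rl.de D p) *
      ((R N β fun p => Rl.de D p * jacobiSym 2 p : ℕ) : ℤ) = ∑ v ∈ L, Ph P v := by
    simp_rw [hRcard, Finset.mul_sum]
    rw [Finset.sum_comm]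
    refine Finset.sum_congr rfl fun v hv => ?_
    have hc : ∀ p ∈ N, ph p (rd p v) * jacobiSym 2 p = 1 ∨
        ph p (rd p v) * jacobiSym 2 p = -1 := by
      intro p hp
      rcases hpm v hv p hp with e | e <;> rcases hj2 p hp with e1 | e1 <;> rw [e, e1] <;> norm_num
    have := Wtv.sel hPN (fun p => ph p (rd p v) * jacobiSym 2 p) hc
    have e1 : Ph P v = ∏ p ∈ P, (ph p (rd p v) * jacobiSym 2 p) := by
      rw [Finset.prod_mul_distrib, Rl.jac_prod 2 hPm, hJ, mul_one]
      rfl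
    rw [e1, ← this]
    refine Finset.sum_congr rfl fun D _ => ?_
    have e2 : (∀ p ∈ N, ph p (rd p v) = Rl.de D p * jacobiSym 2 p) ↔
        ∀ p ∈ N, ph p (rd p v) * jacobiSym 2 p = Rl.de D p := by
      refine forall₂_congr fun p hp => ?_
      have e3 : jacobiSym 2 p * jacobiSym 2 p = 1 := Rl.pm_sq (hj2 p hp)
      constructor
      · intro h
        rw [h, mul_assoc, e3, mul_one]
      · intro h
        rw [← h, mul_assoc, e3, mul_one]
    by_cases h : ∀ p ∈ N, ph p (rd p v) = Rl.de D p * jacobiSym 2 p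
    · rw [if_pos h, if_pos (e2.1 h), mul_one]
    · rw [if_neg h, if_neg fun h' => h (e2.2 h'), mul_zero]
  have s3 : ∑ D ∈ N.powerset, ∏ p ∈ P, Rl.de D p = 0 := by
    have e1 : ∀ D ∈ N.powerset, ∏ p ∈ P, Rl.de D p = ∏ p ∈ D, Rl.de P p :=
      fun D _ => Rl.de_swap P D
    rw [Finset.sum_congr rfl e1, ← Finset.prod_one_add]
    obtain ⟨p, hp⟩ := hPne
    apply Finset.prod_eq_zero (hPN hp)
    unfold Rl.de
    rw [if_pos hp]
    norm_num
  have s4 : (4 * 2 ^ N.card) * (2 * ∑ v ∈ L, Ph P v) = 0 := by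
    have e1 : 2 * ∑ v ∈ L, Ph P v = ∑ D ∈ N.powerset, (∏ p ∈ P, Rl.de D p) *
        ((R N β (Rl.de D) : ℤ) + ((R N β fun p => Rl.de D p * jacobiSym 2 p : ℕ) : ℤ)) := by
      simp_rw [mul_add]
      rw [Finset.sum_add_distrib, s1, s2]
      ring
    rw [e1, Finset.mul_sum]
    have e2 : ∀ D ∈ N.powerset, (4 * 2 ^ N.card : ℤ) * ((∏ p ∈ P, Rl.de D p) *
        ((R N β (Rl.de D) : ℤ) + ((R N β fun p => Rl.de D p * jacobiSym 2 p : ℕ) : ℤ))) =
        ((vec (pr N : ℤ)).card : ℤ) * ∏ p ∈ P, Rl.de D p := by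
      intro D _
      have := Rl.total h1 h2 hN (Or.inl hK) hβ (Rl.de D) (fun p _ => Rl.de_pm D p)
      rw [this]
      ring
    rw [Finset.sum_congr rfl e2, ← Finset.mul_sum, s3, mul_zero]
  have hne : (4 * 2 ^ N.card : ℤ) ≠ 0 := by positivity
  have s5 := (mul_eq_zero.1 s4).resolve_left hne
  have s6 := (mul_eq_zero.1 s5).resolve_left two_ne_zero
  exact s6

/-- **the weights of the pairs of vectors** -/
theorem t_WTV (h0 : S_PHI) : S_WTV := by
  intro N hN P hPN v hv w hw T hT hvw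
  have hNp : ∀ p ∈ N, p.Prime ∧ p ≠ 2 := fun p hp => ⟨(hN p hp).1, (hN p hp).2.1⟩
  have hv' := Rl.vec_norm hv
  have hw' := Rl.vec_norm hw
  set n := pr N with hn
  set S := n - T with hS
  have hSpos : 0 < S := Nat.sub_pos_of_lt hT
  have hSn : (S : ℤ) = n - T := by
    rw [hS, Nat.cast_sub hT.le]
  have hsum : (v 0 + w 0) ^ 2 + (v 1 + w 1) ^ 2 + (v 2 + w 2) ^ 2 = 4 * (S : ℤ) := by
    rw [Rl.dot3] at hv' hw' hvw
    rw [hSn]
    linear_combination hv' + hw' + 2 * hvw
  have hx : ∃ i, v i + w i ≠ 0 := by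
    by_contra hcon
    push Not at hcon
    rw [hcon 0, hcon 1, hcon 2] at hsum
    have : (S : ℤ) = 0 := by linarith
    have : S = 0 := by exact_mod_cast this
    omega
  obtain ⟨c, u, hc0, hcu, hprim⟩ := PP.prim_part (fun i => v i + w i) hx
  have hc0' : (c : ℤ) ≠ 0 := by exact_mod_cast hc0
  have hq0 : 0 ≤ u ⬝ᵥ u := by
    rw [Rl.dot3]
    nlinarith [sq_nonneg (u 0), sq_nonneg (u 1), sq_nonneg (u 2)]
  obtain ⟨q, hq⟩ := Int.eq_ofNat_of_zero_le hq0
  have hcq : c ^ 2 * q = 4 * S := by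
    have h1 : (c : ℤ) ^ 2 * (q : ℤ) = 4 * S := by
      rw [← hsum, ← hq, Rl.dot3]
      have a0 : v 0 + w 0 = c * u 0 := hcu 0
      have a1 : v 1 + w 1 = c * u 1 := hcu 1
      have a2 : v 2 + w 2 = c * u 2 := hcu 2
      rw [a0, a1, a2]
      ring
    exact_mod_cast h1
  have hq1 : q ≠ 0 := by
    intro h
    rw [h, mul_zero] at hcq
    omega
  unfold Ph
  rw [← Finset.prod_mul_distrib]
  refine Finset.prod_congr rfl fun p hp => ?_
  obtain ⟨hpp, hp2⟩ := hNp p (hPN hp)
  obtain ⟨d1, d2⟩ := PP.pr_sq hNp (hPN hp)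
  have hpi : Prime (p : ℤ) := Nat.prime_iff_prime_int.1 hpp
  have hloc := PP.loc_main hpp hp2 (ph_spec h0 hpp hp2) hv' hw' hcu hq hc0' d1 d2 (hprim p hpp)
  have hp4 : (4 : ℕ).factorization p = 0 := by
    apply Nat.factorization_eq_zero_of_not_dvd
    intro h
    have h1 : p ∣ 2 ^ 2 := by simpa using h
    exact hp2 ((Nat.prime_dvd_prime_iff_eq hpp Nat.prime_two).1 (hpp.dvd_of_dvd_pow h1))
  have hfac : S.factorization p = 2 * c.factorization p + q.factorization p := by
    have h1 := congrArg (fun m => Nat.factorization m p) hcq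
    rw [Nat.factorization_mul (pow_ne_zero 2 hc0) hq1, Nat.factorization_mul (by norm_num)
      hSpos.ne', Nat.factorization_pow, Finsupp.add_apply, Finsupp.add_apply, hp4, zero_add,
      Finsupp.smul_apply, smul_eq_mul] at h1
    omega
  obtain ⟨c', hc'⟩ := Nat.ordProj_dvd c p
  set e := c.factorization p with he
  have hpc' : ¬ p ∣ c' := by
    intro h
    have h1 : p ^ (e + 1) ∣ c := by
      rw [hc', pow_succ]
      exact Nat.mul_dvd_mul_left _ h
    exact Nat.pow_succ_factorization_not_dvd hc0 hpp h1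
  have hpc'' : ¬ (p : ℤ) ∣ (c' : ℤ) := fun h => hpc' (by exact_mod_cast h)
  have hpow : 0 < p ^ e := pow_pos hpp.pos _
  have hp2' : ¬ (p : ℤ) ∣ (2 : ℤ) := by
    intro h
    have h3 : p ∣ 2 := by exact_mod_cast h
    exact hp2 ((Nat.prime_dvd_prime_iff_eq hpp Nat.prime_two).1 h3)
  have hj4 : ∀ x : ℤ, jacobiSym (4 * x) p = jacobiSym x p := by
    intro x
    rw [show (4 : ℤ) = 2 ^ 2 by norm_num, jacobiSym.mul_left, PP.jac_sq hpp hp2', one_mul]
  by_cases hpq : (p : ℤ) ∣ (q : ℤ)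
  · obtain ⟨hpq2, hval⟩ := hloc.2 hpq
    rw [hval]
    have hpqN : p ∣ q := by exact_mod_cast hpq
    obtain ⟨q', hq'⟩ := hpqN
    have hpq' : ¬ p ∣ q' := by
      rintro ⟨a, ha⟩
      apply hpq2
      refine ⟨a, ?_⟩
      rw [hq', ha]
      push_cast
      ring
    have hq'0 : q' ≠ 0 := by
      intro h
      rw [h, mul_zero] at hq'
      exact hq1 hq'
    have hfq : q.factorization p = 1 := by
      rw [hq', Nat.factorization_mul hpp.ne_zero hq'0, Finsupp.add_apply,
        hpp.factorization_self, Nat.factorization_eq_zero_of_not_dvd hpq']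
    rw [hfq] at hfac
    have hSval : S = p ^ (2 * e + 1) * (S / p ^ (2 * e + 1)) := by
      have h1 := Nat.ordProj_mul_ordCompl_eq_self S p
      rw [hfac] at h1
      exact h1.symm
    set S' := S / p ^ (2 * e + 1) with hS'
    have hcq' : c' ^ 2 * q' = 4 * S' := by
      have h1 : p ^ (2 * e + 1) * (c' ^ 2 * q') = p ^ (2 * e + 1) * (4 * S') := by
        calc p ^ (2 * e + 1) * (c' ^ 2 * q') = (p ^ e * c') ^ 2 * (p * q') := by ring
          _ = c ^ 2 * q := by rw [← hc', ← hq']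
          _ = 4 * S := hcq
          _ = p ^ (2 * e + 1) * (4 * S') := by rw [hSval]; ring
      exact Nat.eq_of_mul_eq_mul_left (pow_pos hpp.pos _) h1
    have hwp : wp p n T = jacobiSym ((S' * (n / p) : ℕ) : ℤ) p := by
      unfold wp
      rw [← hS, hfac, if_neg (by rintro ⟨a, ha⟩; omega)]
    rw [hwp]
    have hq1' : ((q : ℤ) / p) = (q' : ℤ) := by
      rw [hq']
      push_cast
      exact Int.mul_ediv_cancel_left _ hpi.ne_zero
    have hn1 : ((n : ℤ) / p) = ((n / p : ℕ) : ℤ) := by push_cast; rfl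
    rw [hq1', hn1, Nat.cast_mul, jacobiSym.mul_left, jacobiSym.mul_left]
    congr 1
    have h2 : (4 : ℤ) * (S' : ℤ) = (c' : ℤ) ^ 2 * q' := by exact_mod_cast hcq'.symm
    rw [← hj4 (S' : ℤ), h2, jacobiSym.mul_left, PP.jac_sq hpp hpc'', one_mul]
  · have hval := hloc.1 hpq
    rw [hval]
    have hpqN : ¬ p ∣ q := fun h => hpq (by exact_mod_cast h)
    rw [Nat.factorization_eq_zero_of_not_dvd hpqN, add_zero] at hfac
    have hSval : S = p ^ (2 * e) * (S / p ^ (2 * e)) := by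
      have h1 := Nat.ordProj_mul_ordCompl_eq_self S p
      rw [hfac] at h1
      exact h1.symm
    set S' := S / p ^ (2 * e) with hS'
    have hcq' : c' ^ 2 * q = 4 * S' := by
      have h1 : p ^ (2 * e) * (c' ^ 2 * q) = p ^ (2 * e) * (4 * S') := by
        calc p ^ (2 * e) * (c' ^ 2 * q) = (p ^ e * c') ^ 2 * q := by ring
          _ = c ^ 2 * q := by rw [← hc']
          _ = 4 * S := hcq
          _ = p ^ (2 * e) * (4 * S') := by rw [hSval]; ring
      exact Nat.eq_of_mul_eq_mul_left (pow_pos hpp.pos _) h1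
    have hwp : wp p n T = jacobiSym (S' : ℤ) p := by
      unfold wp
      rw [← hS, hfac, if_pos (even_two_mul e)]
    rw [hwp]
    have h2 : (4 : ℤ) * (S' : ℤ) = (c' : ℤ) ^ 2 * q := by exact_mod_cast hcq'.symm
    rw [← hj4 (S' : ℤ), h2, jacobiSym.mul_left, PP.jac_sq hpp hpc'', one_mul]

end Pool.Agent.NH2
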